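import Pool.Agent.MP_829a8f_lc.Hensel
import Pool.Agent.MP_829a8f_lc.h33.Ext
import Pool.Agent.MP_829a8f_lc.h33.Form

-- ======== part 0: formerly Pool.Agent.MP_829a8f_lc.h33.Main
section MrgPart0

/-!
Dependent fields with finitely many power classes.
-/

namespace Pool.Agent.MP_829a8f_lc.H33

open FirstOrder FirstOrder.Ring Finset IntermediateField

/-- The structure of definable sets of a dependent field. -/
def nsOf {K : Type} [Field K] (h : NIPn 1 K) : NS K where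
  D P := ∀ [CompatibleRing K], Df P
  re f _ hP := Set.Definable.preimage_comp f hP
  not hP := Set.Definable.compl hP
  and hP hQ := Df.and hP hQ
  ex {α β} _ _ P hP := Df.ex (P := fun v u => P (Sum.elim v u)) (Df.congr hP fun w =>
    iff_of_eq (congrArg P (Sum.elim_comp_inl_inr w)))
  add := Df.eq ((Fn.proj 0).add (Fn.proj 1)) (Fn.proj 2)
  mul := Df.eq ((Fn.proj 0).mul (Fn.proj 1)) (Fn.proj 2)
  cst c := Df.eq (Fn.proj 0) (Fn.const c)
  nip {α β} _ _ P hP := by
    let _ := compatibleRingOfRing K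
    obtain ⟨N, hN⟩ := exists_not_pattern h (μ := α ⊕ β)
      (fun b y => P (Sum.elim (fun a => b (Sum.inl a)) fun c => y 0 (Sum.inr c)))
      (Df.congr (Set.Definable.preimage_comp (Sum.elim (fun a => (0, Sum.inl a))
        fun c => ((0 : Fin 1).succ, Sum.inr c)) hP) fun v => iff_of_eq (congrArg P (by
          funext c
          cases c <;> rfl)))
    exact ⟨N, fun ⟨a, b, hab⟩ => hN ⟨fun _ j => Sum.elim 0 (a j),
      fun s => Sum.elim (b {j | (fun _ => j) ∈ s}) 0, fun s j => (hab _ (j 0)).trans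
        (iff_of_eq (congrArg (· ∈ s) (funext fun i => congrArg j (Subsingleton.elim _ _))))⟩⟩

lemma fi_of_subgroup {L : Type} [Field L] {T : Subgroup Lˣ} (h : T.FiniteIndex) :
    FI {x : L | x ≠ 0} (Units.val '' T) := by
  classical
  refine ⟨Lˣ ⧸ T, inferInstance, fun x => if h : x = 0 then 1 else QuotientGroup.mk (Units.mk0 x h),
    fun x hx y hy e => ?_⟩
  simp only [dif_neg hx, dif_neg hy] at e
  exact ⟨_, QuotientGroup.eq.1 e.symm, by simp [div_eq_inv_mul]⟩

lemma pw_eq {L : Type} [Field L] {l : ℕ} (hl : l ≠ 0) :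
    Units.val '' ((powMonoidHom l : Lˣ →* Lˣ).range : Set Lˣ) = PW L l := by
  ext x
  constructor
  · rintro ⟨_, ⟨y, rfl⟩, rfl⟩
    exact ⟨Units.ne_zero _, y, by simp⟩
  · rintro ⟨h, y, rfl⟩
    exact ⟨_, ⟨Units.mk0 y (ne_zero_pow hl h), rfl⟩, by simp⟩

lemma fi_of_index {L : Type} [Field L] {l : ℕ} (hl : l.Prime)
    (h : (powMonoidHom l : Lˣ →* Lˣ).range.FiniteIndex) : FI {x : L | x ≠ 0} (PW L l) :=
  pw_eq (L := L) hl.ne_zero ▸ fi_of_subgroup h

variable {K : Type} [Field K]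

/-- A definable subgroup of finite index gives a valuation ring that is definable up to scaling. -/
theorem exists_sandwich (S : NS K) (L : Type) [Field L] [Algebra K L] [FiniteDimensional K L]
    [Infinite L] {T : Set L} (hT : MG T) (hP : ∀ S : NS L, S.U T) (hf : FI {x : L | x ≠ 0} T)
    {q : L} (hq0 : q ≠ 0) (hq : q ∉ T) (hh : (∃ p : ℕ, p.Prime ∧ (p : L) = 0) ∨ -1 ∈ T ∧
      ∃ (l : ℕ) (ζ : L), ζ ^ l = 1 ∧ ζ ≠ 1 ∧ (l : L) ≠ 0 ∧ FI {x : L | x ≠ 0} (PW L l)) :
    ∃ (O : ValuationSubring K) (D : Set K) (π : K), S.U D ∧ π ≠ 0 ∧ π ∈ O.nonunits ∧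
      (∀ x ∈ O, π * x ∈ D) ∧ ∀ x ∈ D, x ∈ O := by
  obtain ⟨S', -, hS'⟩ := exists_ext S L
  obtain ⟨V, h1, hV, h2, h3⟩ := exists_vgauge S' hT (hP S') hf hq0 hq (hh.imp_right And.right)
  obtain ⟨W, h4, h5, t, ht, h6⟩ := hV.exists_val h3 hT h2
    (hh.symm.imp And.left fun ⟨p, hp, e⟩ => ⟨p, hp.ne_zero, e⟩) hq0 hq
  obtain ⟨x, hx⟩ := exists_not_mem h4
  have h0 : x⁻¹ ≠ 0 := inv_ne_zero fun e => hx (e ▸ zero_mem W)
  have h7 := W.inv_mem_nonunits_iff.2 (Or.inr hx)
  have h8 : t ∈ W := h5 _ (by simpa using h6 1 (one_mem W))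
  obtain ⟨N, c, hc, w, hw, e, hw'⟩ := exists_pow (K := K) rfl
    (Algebra.IsIntegral.isIntegral (t * x⁻¹)) (nu_mul' h8 h7)
  have h9 := e ▸ pow_ne_zero N (mul_ne_zero ht h0)
  refine ⟨_, _, c, hS' V h1, fun h => h9 (by simp [h]), hc, fun y hy => ?_,
    fun y hy => h5 _ hy⟩
  cases N with
  | zero => exact absurd (e ▸ nu_mul ((over_nu rfl).2 hc) hw) (by simpa using one_nu)
  | succ N =>
    have := h6 _ (mul_mem (mul_mem (mul_mem (pow_mem (mul_mem h8 (nu_le h7)) N) (nu_le h7)) hw') hy)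
    rw [Set.mem_preimage, map_mul, (eq_mul_inv_iff_mul_eq₀ (right_ne_zero_of_mul h9)).2 e.symm]
    convert this using 1
    ring

/-- A valuation ring that is definable up to scaling has a henselian coarsening. -/
theorem henselian_of_sandwich (S : NS K) {l l' : ℕ} (hl : l.Prime) (hl' : l'.Prime) (hne : l ≠ l')
    (hf : ∀ (L : Type) [Field L] [Algebra K L] [FiniteDimensional K L] [Algebra.IsSeparable K L],
      ((l : K) ≠ 0 → FI {x : L | x ≠ 0} (PW L l)) ∧ ((l' : K) ≠ 0 → FI {x : L | x ≠ 0} (PW L l')))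
    {O : ValuationSubring K} {D : Set K} {π : K} (hD : S.U D) (h0 : π ≠ 0) (h1 : π ∈ O.nonunits)
    (h2 : ∀ x ∈ O, π * x ∈ D) (h3 : ∀ x ∈ D, x ∈ O) :
    ∃ R : ValuationSubring K, R ≠ ⊤ ∧ HenselianLocalRing R := by
  have hπ := nu_le h1
  have k1 : O ≤ coarse O hπ := fun x hx k => mul_mem (pow_mem hx k) hπ
  have k2 : π⁻¹ ∉ coarse O hπ := fun h => not_nu.2 ⟨h0, by simpa [pow_two, h0] using h 2⟩ h1
  have k3 : coarse O hπ ≠ ⊤ := fun h => k2 (h ▸ trivial)
  have k4 : ∀ y ∈ (coarse O hπ).nonunits, ∃ k, y ^ k / (π * π) ∈ coarse O hπ := by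
    intro y hy
    rcases (coarse O hπ).mem_nonunits_iff_or.1 hy with h | h
    · exact ⟨1, by simp [h]⟩
    · obtain ⟨k, hk⟩ := not_forall.1 h
      have h4 : y ^ k / π ∈ O := by
        simpa [div_eq_inv_mul] using (O.mem_or_inv_mem _).resolve_left hk
      exact ⟨k + k, k1 (by rw [pow_add, ← div_mul_div_comm]; exact mul_mem h4 h4)⟩
  have k5 : ∀ x ∈ coarse O hπ, π * π * x ∈ D := fun x hx => by
    rw [mul_assoc]
    exact h2 _ (by simpa [mul_comm] using hx 1)
  generalize coarse O hπ = R at *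
  obtain ⟨r, hr, k6, k7⟩ : ∃ r : ℕ, r.Prime ∧ (r : K) ∉ R.nonunits ∧ ∀ (L : Type) [Field L]
      [Algebra K L] [FiniteDimensional K L] [Algebra.IsSeparable K L],
      FI {x : L | x ≠ 0} (PW L r) := by
    by_cases h : (l : K) ∈ R.nonunits
    · have h' : (l' : K) ∉ R.nonunits := fun h' => by
        obtain ⟨a, b, e⟩ := Nat.Coprime.isCoprime ((Nat.coprime_primes hl hl').2 hne)
        have e' := congrArg (Int.cast : ℤ → K) e
        push_cast at e'
        exact one_nu (e' ▸ add_mem (nu_mul' (intCast_mem R a) h) (nu_mul' (intCast_mem R b) h'))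
      exact ⟨l', hl', h', fun L _ _ _ _ => (hf L).2 (not_nu.1 h').1⟩
    · exact ⟨l, hl, h, fun L _ _ _ _ => (hf L).1 (not_nu.1 h).1⟩
  refine ⟨R, k3, henselian_of_uniq k3 fun x hx W W' hW hW' h => ?_⟩
  have := NeZero.mk (not_nu.1 k6).1
  obtain ⟨ζ, hζ⟩ := HasEnoughRootsOfUnity.exists_primitiveRoot (AlgebraicClosure K) r
  have : FiniteDimensional K (adjoin K {x, ζ}) :=
    finiteDimensional_adjoin fun z _ => Algebra.IsIntegral.isIntegral z
  have : Algebra.IsSeparable K (adjoin K {x, ζ}) := (isSeparable_adjoin_iff_isSeparable K _).2 (by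
    rintro _ (rfl | rfl)
    exacts [hx, sep_of_pow (c := 1) (not_nu.1 k6).1 one_ne_zero (by simpa using hζ.pow_eq_one)])
  have h4 := uniq_ext S hD (mul_ne_zero h0 h0) k5 (fun x hx => k1 (h3 x hx)) k4
    (ζ := (⟨ζ, subset_adjoin K _ (Or.inr rfl)⟩ : adjoin K {x, ζ})) (Subtype.ext hζ.pow_eq_one)
    (fun e => hζ.ne_one hr.one_lt (congrArg Subtype.val e)) k6 (k7 _)
    (W₁ := W.comap (algebraMap _ _)) (W₂ := W'.comap (algebraMap _ _)) hW hW'
  exact (SetLike.ext_iff.1 h4 ⟨x, subset_adjoin K _ (Or.inl rfl)⟩).1 h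

theorem henselian_of_subgroup (hK : NIPn 1 K) [Infinite K] (L : Type) [Field L] [Algebra K L]
    [FiniteDimensional K L] (T : Subgroup Lˣ) (hf : T.FiniteIndex) (hT : T ≠ ⊤)
    (hP : ∀ S : NS L, S.U (Units.val '' T))
    (h : ringChar K ≠ 0 ∨ -1 ∈ T ∧ ∃ l l' : ℕ, l.Prime ∧ l'.Prime ∧ l ≠ l' ∧
      (∃ ζ : L, ζ ^ l = 1 ∧ ζ ≠ 1) ∧
      ∀ (M : Type) [Field M] [Algebra K M] [FiniteDimensional K M],
        (powMonoidHom l : Mˣ →* Mˣ).range.FiniteIndex ∧
        (powMonoidHom l' : Mˣ →* Mˣ).range.FiniteIndex) :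
    ∃ R : ValuationSubring K, R ≠ ⊤ ∧ HenselianLocalRing R := by
  have := Infinite.of_injective _ (algebraMap K L).injective
  obtain ⟨q, hq⟩ := not_forall.1 (mt (Subgroup.eq_top_iff' T).2 hT)
  have hM : MG (Units.val '' (T : Set Lˣ)) := ⟨⟨1, T.one_mem, rfl⟩,
    fun ⟨x, hx, e⟩ ⟨y, hy, e'⟩ => ⟨x * y, T.mul_mem hx hy, by rw [← e, ← e', Units.val_mul]⟩,
    fun ⟨x, hx, e⟩ => ⟨x⁻¹, T.inv_mem hx, by rw [← e, Units.val_inv_eq_inv_val]⟩,
    fun ⟨x, _, e⟩ => e ▸ x.ne_zero⟩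
  have key := exists_sandwich (nsOf hK) L hM hP (fi_of_subgroup hf) q.ne_zero
    fun ⟨x, hx, e⟩ => hq (Units.val_injective e ▸ hx)
  by_cases h0 : ringChar K = 0
  · obtain ⟨hn, l, l', hl, hl', hne, ⟨ζ, hζ, hζ1⟩, h⟩ := h.resolve_left (not_not.2 h0)
    have := (CharP.ringChar_zero_iff_CharZero K).1 h0
    have : CharZero L := charZero_of_injective_algebraMap (algebraMap K L).injective
    obtain ⟨O, D, π, h1, h2, h3, h4, h5⟩ := key (Or.inr ⟨⟨-1, hn, by simp⟩, l, ζ, hζ, hζ1,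
      Nat.cast_ne_zero.2 hl.ne_zero, fi_of_index hl (h L).1⟩)
    exact henselian_of_sandwich (nsOf hK) hl hl' hne (fun L _ _ _ _ =>
      ⟨fun _ => fi_of_index hl (h L).1, fun _ => fi_of_index hl' (h L).2⟩) h1 h2 h3 h4 h5
  · have := Fact.mk ((CharP.char_is_prime_or_zero K (ringChar K)).resolve_right h0)
    obtain ⟨O, D, π, h1, h2, h3, h4, h5⟩ := key (Or.inl ⟨ringChar K, this.1, by
      rw [← map_natCast (algebraMap K L), ringChar.Nat.cast_ringChar, map_zero]⟩)
    obtain ⟨R, -, hR⟩ := henselian_of_definable (ringChar K) hK h2 (O.mem_nonunits_iff.1 h3)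
      (X := D) (fun {_ α _ f} hf => Df.congr (Df.ex (P := fun v (u : Unit → K) => f v = u () ∧
        u () ∈ D) (Df.and (Df.eq hf.inl (Fn.proj _)) (Set.Definable.preimage_comp Sum.inr h1)))
        fun v => ⟨fun h => ⟨fun _ => f v, rfl, h⟩, fun ⟨u, e, h⟩ => e ▸ h⟩)
      (fun x hx => by rw [pow_two, mul_assoc]; exact h4 _ (mul_mem (nu_le h3) hx)) h5
    exact ⟨R, hR⟩

theorem shelah_of_finite_index (hK : NIPn 1 K)
    (h : ∀ (L : Type) [Field L] [Algebra K L] [FiniteDimensional K L] [Algebra.IsSeparable K L]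
      (l : ℕ), l.Prime → (l : K) ≠ 0 → (powMonoidHom l : Lˣ →* Lˣ).range.FiniteIndex) :
    Finite K ∨ IsSepClosed K ∨ Module.finrank K (AlgebraicClosure K) = 2 ∨
      ∃ R : ValuationSubring K, R ≠ ⊤ ∧ HenselianLocalRing R := by
  refine or_iff_not_imp_left.2 fun h1 => or_iff_not_imp_left.2 fun h2 =>
    or_iff_not_imp_left.2 fun h3 => ?_
  have := not_finite_iff_infinite.1 h1
  obtain ⟨L, _, _, _, _, ⟨p, hp, ⟨h4, c, hc⟩ | ⟨h4, ζ, q, hζ, hζ1, -, hq⟩⟩, i, hi⟩ :=
    exists_obst' K h2 h3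
  · have := Infinite.of_injective _ (algebraMap K L).injective
    obtain ⟨S, -⟩ := exists_ext (nsOf hK) L
    exact absurd (as_closed S hp h4 c) (not_exists.2 hc)
  have h5 : q ≠ 0 := fun e => hq 0 (by rw [e, zero_pow hp.ne_zero])
  refine henselian_of_subgroup hK L _ (h L p hp fun e => h4 (by
    rw [← map_natCast (algebraMap K L), e, map_zero])) (fun e => ?_)
    (fun S => pw_eq (L := L) hp.ne_zero ▸ U_PW S p) (or_iff_not_imp_left.2 fun e => ⟨?_, ?_⟩)
  · obtain ⟨x, hx⟩ : Units.mk0 q h5 ∈ (powMonoidHom p : Lˣ →* Lˣ).range := e ▸ trivial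
    exact hq x (by simpa using (congrArg Units.val hx).symm)
  · rcases hp.eq_two_or_odd' with rfl | e
    · exact ⟨Units.mk0 i fun e => by simp [e] at hi, Units.ext (by simpa using hi)⟩
    · exact ⟨-1, e.neg_one_pow⟩
  · have := (CharP.ringChar_zero_iff_CharZero K).1 (not_not.1 e)
    obtain ⟨r, hr, hr'⟩ := Nat.exists_infinite_primes (p + 1)
    exact ⟨p, r, hp, hr', by omega, ⟨ζ, hζ, hζ1⟩, fun M _ _ _ =>
      ⟨h M p hp (Nat.cast_ne_zero.2 hp.ne_zero), h M r hr' (Nat.cast_ne_zero.2 hr'.ne_zero)⟩⟩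

end Pool.Agent.MP_829a8f_lc.H33

end MrgPart0

-- ======== part 1: formerly Pool.Agent.MP_829a8f_lc.h56.Mean
section MrgPart1

/-!
Means (finitely additive probabilities), their iteration, and invariant means.
-/

namespace Pool.Agent.MP_829a8f_lc.H56

open Filter Topology

/-- A linear functional that respects bounds. -/
structure Mean (X : Type) where
  E : (X → ℝ) →ₗ[ℝ] ℝ
  bd : ∀ (f : X → ℝ) (a b : ℝ), (∀ x, a ≤ f x ∧ f x ≤ b) → a ≤ E f ∧ E f ≤ b

open Classical in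
/-- The indicator of a proposition. -/
noncomputable def ind (p : Prop) : ℝ := if p then 1 else 0

lemma ind_pos {p : Prop} (h : p) : ind p = 1 := if_pos h

lemma ind_neg {p : Prop} (h : ¬ p) : ind p = 0 := if_neg h

lemma ind_mem (p : Prop) : 0 ≤ ind p ∧ ind p ≤ 1 := by
  by_cases h : p
  · simp [ind_pos h]
  · simp [ind_neg h]

/-- Functions with values in the unit interval. -/
def Un {X : Type} (f : X → ℝ) : Prop := ∀ x, 0 ≤ f x ∧ f x ≤ 1

namespace Mean

variable {X Y : Type} (m : Mean X)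

lemma const (c : ℝ) : m.E (fun _ => c) = c :=
  le_antisymm (m.bd _ c c fun _ => ⟨le_rfl, le_rfl⟩).2 (m.bd _ c c fun _ => ⟨le_rfl, le_rfl⟩).1

lemma mono {f g : X → ℝ} (C : ℝ) (h : ∀ x, f x ≤ g x) (hC : ∀ x, g x - f x ≤ C) :
    m.E f ≤ m.E g := by
  have := (m.bd (g - f) 0 C fun x => ⟨sub_nonneg.2 (h x), hC x⟩).1
  rwa [map_sub, sub_nonneg] at this

lemma add (f g : X → ℝ) : m.E (fun x => f x + g x) = m.E f + m.E g := map_add m.E f g

lemma sub (f g : X → ℝ) : m.E (fun x => f x - g x) = m.E f - m.E g := map_sub m.E f g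

lemma mul (c : ℝ) (f : X → ℝ) : m.E (fun x => c * f x) = c * m.E f := map_smul m.E c f

lemma sum {ι : Type} (s : Finset ι) (f : ι → X → ℝ) :
    m.E (fun x => ∑ i ∈ s, f i x) = ∑ i ∈ s, m.E (f i) := by
  rw [← map_sum]
  exact congrArg _ (funext fun x => (Finset.sum_apply x s f).symm)

lemma exists_lt {f : X → ℝ} {a c : ℝ} (h : ∀ x, a ≤ f x) (hc : c < m.E f) : ∃ x, c < f x := by
  by_contra h'
  exact hc.not_ge (m.bd f a c fun x => ⟨h x, not_lt.1 fun e => h' ⟨x, e⟩⟩).2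

lemma abs_le {f : X → ℝ} {c : ℝ} (h : ∀ x, |f x| ≤ c) : |m.E f| ≤ c :=
  _root_.abs_le.2 (m.bd f _ _ fun x => _root_.abs_le.1 (h x))

lemma sq_le {f : X → ℝ} (h : ∀ x, |f x| ≤ 1) : m.E f ^ 2 ≤ m.E fun x => f x ^ 2 := by
  have h1 := m.abs_le h
  have h2 := m.mono (f := fun x => 2 * m.E f * f x - m.E f ^ 2) (g := fun x => f x ^ 2) 4
    (fun x => by nlinarith [sq_nonneg (f x - m.E f)]) fun x => by
      have := _root_.abs_le.1 (h x)
      have := _root_.abs_le.1 h1
      nlinarith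
  rw [m.sub, m.mul, m.const] at h2
  nlinarith

lemma pow_two_le (n : ℕ) : ∀ {f : X → ℝ}, (∀ x, |f x| ≤ 1) →
    m.E f ^ 2 ^ n ≤ m.E fun x => f x ^ 2 ^ n := by
  induction n with
  | zero => exact fun _ => by simp
  | succ n ih =>
    intro f h
    have h1 := ih (f := fun x => f x ^ 2) fun x => by
      rw [abs_pow]
      exact pow_le_one₀ (abs_nonneg _) (h x)
    simp only [pow_succ' 2 n, pow_mul]
    exact (pow_le_pow_left₀ (sq_nonneg _) (m.sq_le h) _).trans h1

lemma pow_le {f : X → ℝ} (h : Un f) (n : ℕ) : m.E f ^ n ≤ m.E fun x => f x ^ n := by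
  have h1 := m.bd f 0 1 h
  cases n with
  | zero => simp [m.const]
  | succ n =>
    have h2 := m.mono (f := fun x => (n + 1) * m.E f ^ n * f x + (m.E f ^ (n + 1) -
      (n + 1) * m.E f ^ n * m.E f)) (g := fun x => f x ^ (n + 1)) (n + 2) (fun x => by
        have := pow_add_mul_le_add_pow (a := m.E f) (b := f x - m.E f) h1.1
          (by linarith [(h x).1]) (n + 1)
        rw [add_sub_cancel, Nat.add_sub_cancel, Nat.cast_succ] at this
        linarith) fun x => by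
      have h3 := pow_le_one₀ (n := n + 1) (h x).1 (h x).2
      have h4 := pow_le_one₀ (n := n + 1) h1.1 h1.2
      have h5 : 0 ≤ (n + 1) * m.E f ^ n * f x := by
        have := h1.1
        have := (h x).1
        positivity
      have h6 := pow_nonneg h1.1 (n + 1)
      rw [mul_assoc _ _ (m.E f), ← pow_succ]
      nlinarith [Nat.cast_nonneg (α := ℝ) n]
    rw [m.add, m.mul, m.const] at h2
    linarith

/-- The image of a mean. -/
def map (g : X → Y) : Mean Y where
  E := m.E.comp (LinearMap.funLeft ℝ ℝ g)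
  bd _ a b h := m.bd _ a b fun x => h (g x)

/-- Iterated means. -/
def bind (k : X → Mean Y) : Mean (X × Y) where
  E :=
    { toFun := fun f => m.E fun x => (k x).E fun y => f (x, y)
      map_add' := fun f g => by simp only [Pi.add_apply, add]
      map_smul' := fun c f => by simp only [Pi.smul_apply, smul_eq_mul, mul, RingHom.id_apply] }
  bd f a b h := m.bd _ a b fun x => (k x).bd _ a b fun y => h (x, y)

/-- Products of means; the first factor is the outer one. -/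
def prod (k : Mean Y) : Mean (X × Y) := m.bind fun _ => k

/-- The average over a finite type. -/
noncomputable def avg (X : Type) [Fintype X] [Nonempty X] : Mean X where
  E :=
    { toFun := fun f => (∑ x, f x) / Fintype.card X
      map_add' := fun f g => by simp only [Pi.add_apply, Finset.sum_add_distrib, add_div]
      map_smul' := fun c f => by
        simp only [Pi.smul_apply, smul_eq_mul, RingHom.id_apply, ← Finset.mul_sum, mul_div_assoc] }
  bd f a b h := by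
    have h0 : (0 : ℝ) < Fintype.card X := Nat.cast_pos.2 Fintype.card_pos
    have h1 := Finset.card_nsmul_le_sum Finset.univ f a fun x _ => (h x).1
    have h2 := Finset.sum_le_card_nsmul Finset.univ f b fun x _ => (h x).2
    rw [Finset.card_univ, nsmul_eq_mul, mul_comm] at h1 h2
    exact ⟨(le_div_iff₀ h0).2 h1, (div_le_iff₀ h0).2 h2⟩

lemma avg_E [Fintype X] [Nonempty X] (f : X → ℝ) :
    (avg X).E f = (∑ x, f x) / Fintype.card X := rfl

lemma avg_comm [Fintype X] [Nonempty X] (k : Mean Y) (f : X → Y → ℝ) :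
    k.E (fun y => (avg X).E fun x => f x y) = (avg X).E fun x => k.E (f x) := by
  simp only [avg_E, div_eq_inv_mul, mul, sum]

/-- Probabilities. -/
noncomputable def P (A : X → Prop) : ℝ := m.E fun x => ind (A x)

lemma P_mem (A : X → Prop) : 0 ≤ m.P A ∧ m.P A ≤ 1 := m.bd _ 0 1 fun _ => ind_mem _

lemma P_le_add {A B C : X → Prop} (h : ∀ x, A x → B x ∨ C x) : m.P A ≤ m.P B + m.P C := by
  refine (m.mono 2 (fun x => ?_) fun x => ?_).trans_eq (m.add _ _)
  · by_cases hA : A x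
    · rw [ind_pos hA]
      rcases h x hA with h | h <;> rw [ind_pos h]
      · exact le_add_of_nonneg_right (ind_mem _).1
      · exact le_add_of_nonneg_left (ind_mem _).1
    · rw [ind_neg hA]
      exact add_nonneg (ind_mem _).1 (ind_mem _).1
  · linarith [ind_mem (A x), ind_mem (B x), ind_mem (C x)]

lemma P_false {A : X → Prop} (h : ∀ x, ¬ A x) : m.P A = 0 :=
  (congrArg m.E (funext fun x => ind_neg (h x))).trans (m.const 0)

lemma P_true {A : X → Prop} (h : ∀ x, A x) : m.P A = 1 :=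
  (congrArg m.E (funext fun x => ind_pos (h x))).trans (m.const 1)

lemma P_mono {A B : X → Prop} (h : ∀ x, A x → B x) : m.P A ≤ m.P B := by
  simpa [m.P_false (A := fun _ => False) fun _ => id] using
    m.P_le_add (C := fun _ => False) fun x hx => Or.inl (h x hx)

lemma P_exists {ι : Type} [Fintype ι] (A : ι → X → Prop) {c : ℝ} (h : ∀ i, m.P (A i) ≤ c) :
    m.P (fun x => ∃ i, A i x) ≤ Fintype.card ι * c := by
  have h1 : m.P (fun x => ∃ i, A i x) ≤ m.E fun x => ∑ i, ind (A i x) := by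
    refine m.mono (Fintype.card ι) (fun x => ?_) fun x => ?_
    · by_cases hA : ∃ i, A i x
      · obtain ⟨i, hi⟩ := hA
        exact ((ind_mem _).2.trans_eq (ind_pos hi).symm).trans
          (Finset.single_le_sum (f := fun i => ind (A i x)) (fun i _ => (ind_mem _).1)
            (Finset.mem_univ i))
      · rw [ind_neg hA]
        exact Finset.sum_nonneg fun i _ => (ind_mem _).1
    · have := Finset.sum_le_card_nsmul Finset.univ (fun i => ind (A i x)) 1
        fun i _ => (ind_mem _).2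
      rw [Finset.card_univ, nsmul_eq_mul, mul_one] at this
      linarith [ind_mem (∃ i, A i x)]
  rw [m.sum] at h1
  simpa using h1.trans (Finset.sum_le_card_nsmul _ _ c fun i _ => h i)

/-- The sets of full mean. -/
def ae : Filter X where
  sets := {A | m.P (· ∉ A) = 0}
  univ_sets := m.P_false fun _ h => h trivial
  sets_of_superset h h' := le_antisymm ((m.P_mono fun _ k k' => k (h' k')).trans_eq h) (m.P_mem _).1
  inter_sets {A B} h h' := le_antisymm ((m.P_le_add fun x k => not_and_or.1 k).trans_eq (by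
    rw [show m.P (· ∉ A) = 0 from h, show m.P (· ∉ B) = 0 from h', add_zero])) (m.P_mem _).1

variable {m} {A B : X → Prop}

lemma ae_iff : (∀ᶠ x in m.ae, A x) ↔ m.P (fun x => ¬ A x) = 0 := Iff.rfl

lemma P_mono_ae (h : ∀ᶠ x in m.ae, A x → B x) : m.P A ≤ m.P B := by
  have := m.P_le_add (A := A) (B := B) (C := fun x => ¬ (A x → B x)) fun x hx => by tauto
  rwa [ae_iff.1 h, add_zero] at this

lemma exists_of_pos (h : 0 < m.P A) (h' : ∀ᶠ x in m.ae, B x) : ∃ x, A x ∧ B x := by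
  by_contra hc
  exact h.not_ge ((m.P_mono fun x hx hb => hc ⟨x, hx, hb⟩).trans_eq (ae_iff.1 h'))

instance : m.ae.NeBot := ⟨fun h => by
  obtain ⟨_, -, h⟩ := exists_of_pos (A := fun _ => True) (B := fun _ => False)
    ((m.P_true fun _ => trivial).symm ▸ one_pos) (h ▸ eventually_bot)
  exact h⟩

lemma E_le_ae {f : X → ℝ} (hf : Un f) {c : ℝ} (hc : 0 ≤ c) (h : ∀ᶠ x in m.ae, f x ≤ c) :
    m.E f ≤ c := by
  have := m.mono (f := f) (g := fun x => c + ind (¬ f x ≤ c)) (c + 1) (fun x => ?_) fun x => ?_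
  · rwa [m.add, m.const, show m.E (fun x => ind (¬ f x ≤ c)) = 0 from ae_iff.1 h, add_zero] at this
  · by_cases hx : f x ≤ c
    · rwa [ind_neg (not_not.2 hx), add_zero]
    · rw [ind_pos hx]
      linarith [hf x]
  · linarith [hf x, ind_mem (¬ f x ≤ c)]

lemma ae_le {f : X → ℝ} (hf : Un f) (h : m.E f = 0) {c : ℝ} (hc : 0 < c) :
    ∀ᶠ x in m.ae, f x ≤ c := by
  refine le_antisymm ?_ (m.P_mem _).1
  have := m.mono (f := fun x => c * ind (¬ f x ≤ c)) (g := f) 1 (fun x => ?_) fun x => ?_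
  · rw [m.mul, h] at this
    exact nonpos_of_mul_nonpos_right this hc
  · by_cases hx : f x ≤ c
    · rw [ind_neg (not_not.2 hx), mul_zero]
      exact (hf x).1
    · rw [ind_pos hx, mul_one]
      exact (not_le.1 hx).le
  · have := mul_nonneg hc.le (ind_mem (¬ f x ≤ c)).1
    linarith [hf x]

lemma P_bind_le {k : X → Mean Y} {C : X × Y → Prop} {c : ℝ} (hc : 0 ≤ c)
    (h : ∀ᶠ x in m.ae, (k x).P (fun y => C (x, y)) ≤ c) : (m.bind k).P C ≤ c :=
  E_le_ae (fun x => (k x).P_mem _) hc h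

lemma ae_bind {k : X → Mean Y} {C : X × Y → Prop}
    (h : ∀ᶠ x in m.ae, ∀ᶠ y in (k x).ae, C (x, y)) : ∀ᶠ p in (m.bind k).ae, C p :=
  le_antisymm (P_bind_le le_rfl (h.mono fun _ hx => (ae_iff.1 hx).le)) (P_mem _ _).1

lemma ae_fst {k : X → Mean Y} (h : ∀ᶠ x in m.ae, A x) : ∀ᶠ p in (m.bind k).ae, A p.1 :=
  ae_bind (h.mono fun _ hx => Eventually.of_forall fun _ => hx)

variable (m) in
/-- Invariance under a map. -/
def Inv (τ : X → X) : Prop := ∀ f, Un f → m.E (fun x => f (τ x)) = m.E f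

lemma Inv.P {τ : X → X} (h : m.Inv τ) (A : X → Prop) : m.P (fun x => A (τ x)) = m.P A :=
  h (fun x => ind (A x)) fun _ => ind_mem _

lemma Inv.ae {τ : X → X} (h : m.Inv τ) (hA : ∀ᶠ x in m.ae, A x) : ∀ᶠ x in m.ae, A (τ x) :=
  (h.P fun x => ¬ A x).trans hA

end Mean

open Mean

lemma exists_lim {X : Type} (u : Ultrafilter X) : ∃ m : Mean X,
    ∀ (f : X → ℝ) (a b : ℝ), (∀ x, a ≤ f x ∧ f x ≤ b) → Tendsto f u (𝓝 (m.E f)) := by
  let B : Submodule ℝ (X → ℝ) :=
    { carrier := {f | ∃ y, Tendsto f u (𝓝 y)}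
      add_mem' := fun ⟨_, h⟩ ⟨_, h'⟩ => ⟨_, h.add h'⟩
      zero_mem' := ⟨0, tendsto_const_nhds⟩
      smul_mem' := fun c _ ⟨_, h⟩ => ⟨_, h.const_smul c⟩ }
  choose l hl using fun f : B => f.2
  obtain ⟨L, hL⟩ := LinearMap.exists_extend (p := B)
    { toFun := l
      map_add' := fun f g => tendsto_nhds_unique (hl _) ((hl f).add (hl g))
      map_smul' := fun c f => tendsto_nhds_unique (hl _) ((hl f).const_smul c) }
  have key : ∀ (f : X → ℝ) (a b : ℝ), (∀ x, a ≤ f x ∧ f x ≤ b) → Tendsto f u (𝓝 (L f)) := by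
    intro f a b h
    obtain ⟨y, -, hy⟩ := (isCompact_Icc (a := a) (b := b)).ultrafilter_le_nhds (u.map f)
      (le_principal_iff.2 (mem_map.2 (Eventually.of_forall h)))
    have := LinearMap.congr_fun hL ⟨f, y, hy⟩
    exact (show L f = l ⟨f, y, hy⟩ from this) ▸ hl _
  exact ⟨⟨L, fun f a b h => ⟨ge_of_tendsto' (key f a b h) fun x => (h x).1,
    le_of_tendsto' (key f a b h) fun x => (h x).2⟩⟩, key⟩

lemma exists_ae_le {X : Type} (l : Filter X) [l.NeBot] : ∃ m : Mean X, m.ae ≤ l := by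
  obtain ⟨m, hm⟩ := exists_lim (Ultrafilter.of l)
  refine ⟨m, fun A hA => tendsto_nhds_unique (hm _ 0 1 fun _ => ind_mem _)
    (tendsto_const_nhds.congr' ?_)⟩
  filter_upwards [Ultrafilter.of_le l hA] with x hx using (ind_neg (not_not.2 hx)).symm

lemma exists_banach : ∃ m : Mean ℕ, m.Inv (· + 1) := by
  obtain ⟨m, hm⟩ := exists_lim (Ultrafilter.of (atTop : Filter ℕ))
  refine ⟨(m.bind fun K => (avg (Fin (K + 1))).map Fin.val).map Prod.snd, fun f hf => ?_⟩
  rw [← sub_eq_zero]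
  refine (m.sub _ _).symm.trans ?_
  have e : ∀ K, (avg (Fin (K + 1))).E (fun k => f (k + 1)) - (avg (Fin (K + 1))).E (fun k => f k) =
      (f (K + 1) - f 0) / (K + 1 : ℝ) := fun K => by
    rw [avg_E, avg_E, ← sub_div, Fin.sum_univ_eq_sum_range (fun k => f (k + 1)),
      Fin.sum_univ_eq_sum_range f, ← Finset.sum_sub_distrib, Finset.sum_range_sub]
    simp
  have h : ∀ K : ℕ, |(f (K + 1) - f 0) / (K + 1 : ℝ)| ≤ 1 / (K + 1 : ℝ) := fun K => by
    have : (0 : ℝ) < K + 1 := by positivity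
    rw [abs_div, abs_of_pos this]
    exact div_le_div_of_nonneg_right (abs_le.2 (by constructor <;> linarith [hf 0, hf (K + 1)]))
      this.le
  refine (congrArg m.E (funext e)).trans (tendsto_nhds_unique (hm _ (-1) 1 fun K => abs_le.1
    ((h K).trans (div_le_one_of_le₀ (by simp) (by positivity)))) ?_)
  exact (squeeze_zero_norm h tendsto_one_div_add_atTop_nhds_zero_nat).mono_left
    (Ultrafilter.of_le _)

theorem exists_inv {X ι : Type} (x₀ : X) (τ : ι → X → X)
    (h : ∀ i j, Function.Commute (τ i) (τ j)) : ∃ m : Mean X, ∀ i, m.Inv (τ i) := by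
  classical
  obtain ⟨B, hB⟩ := exists_banach
  have key : ∀ s : Finset ι, ∃ m : Mean X, ∀ i ∈ s, m.Inv (τ i) := fun s => by
    induction s using Finset.induction_on with
    | empty => exact ⟨(avg Unit).map fun _ => x₀, by simp⟩
    | insert i s _ ih =>
      obtain ⟨m, hm⟩ := ih
      refine ⟨(B.prod m).map fun p => (τ i)^[p.1] p.2, Finset.forall_mem_insert .. |>.2
        ⟨fun f hf => ?_, fun j hj f hf => congrArg B.E (funext fun k => ?_)⟩⟩
      · refine Eq.trans (congrArg B.E (funext fun k => congrArg m.E (funext fun x => ?_)))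
          (hB (fun k => m.E fun x => f ((τ i)^[k] x)) fun k => m.bd _ 0 1 fun x => hf _)
        exact congrArg f (Function.iterate_succ_apply' _ _ _).symm
      · refine Eq.trans (congrArg m.E (funext fun x => ?_))
          (hm j hj (fun x => f ((τ i)^[k] x)) fun x => hf _)
        exact congrArg f ((h j i).iterate_right k x)
  choose μ hμ using key
  obtain ⟨u, hu⟩ := exists_lim (Ultrafilter.of (atTop : Filter (Finset ι)))
  refine ⟨(u.bind μ).map Prod.snd, fun i f hf => tendsto_nhds_unique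
    (hu _ 0 1 fun s => (μ s).bd _ 0 1 fun x => hf _)
    ((hu _ 0 1 fun s => (μ s).bd _ 0 1 hf).congr' ?_)⟩
  filter_upwards [Ultrafilter.of_le _ (eventually_ge_atTop {i})] with s hs
  exact (hμ s i (hs (Finset.mem_singleton_self i)) f hf).symm

/-- A mean on a field that is invariant under all affine maps. -/
theorem exists_aff (F : Type) [Field F] :
    ∃ m : Mean F, (∀ b, m.Inv (· + b)) ∧ ∀ a, a ≠ 0 → m.Inv (a * ·) := by
  obtain ⟨m, hm⟩ := exists_inv (0 : F) (fun b x => x + b) fun _ _ _ => add_right_comm _ _ _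
  obtain ⟨k, hk⟩ := exists_inv (1 : Fˣ) (fun b x => b * x) fun _ _ _ => mul_left_comm _ _ _
  refine ⟨(k.prod m).map fun p => p.1 * p.2, fun b f hf => congrArg k.E (funext fun a => ?_),
    fun a ha f hf => ?_⟩
  · refine Eq.trans (congrArg m.E (funext fun x => ?_))
      (hm (a⁻¹ * b) (fun x => f (a * x)) fun x => hf _)
    exact congrArg f (by simp [mul_add])
  · refine Eq.trans (congrArg k.E (funext fun c => congrArg m.E (funext fun x => ?_)))
      (hk (Units.mk0 a ha) (fun c => m.E fun x => f (c * x)) fun c => m.bd _ 0 1 fun x => hf _)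
    exact congrArg f (by simp [mul_assoc])

end Pool.Agent.MP_829a8f_lc.H56

end MrgPart1

-- ======== part 2: formerly Pool.Agent.MP_829a8f_lc.h56.Box
section MrgPart2

/-!
Box norms: if all products over boxes have mean zero, every pattern appears on some grid.
-/

namespace Pool.Agent.MP_829a8f_lc.H56

open Mean

section

variable {X Y : Type} [Fintype X] [Nonempty X] [Fintype Y] [Nonempty Y]

lemma avg_equiv (e : X ≃ Y) (f : Y → ℝ) : (avg X).E (fun x => f (e x)) = (avg Y).E f := by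
  rw [avg_E, avg_E, e.sum_comp, Fintype.card_congr e]

lemma avg_prod (f : X × Y → ℝ) :
    (avg (X × Y)).E f = (avg X).E fun x => (avg Y).E fun y => f (x, y) := by
  simp only [avg_E, Fintype.sum_prod_type, Fintype.card_prod, Nat.cast_mul, ← Finset.sum_div,
    div_div, mul_comm]

lemma avg_cons {n : ℕ} (f : (Fin (n + 1) → X) → ℝ) :
    (avg _).E f = (avg X).E fun a => (avg (Fin n → X)).E fun x => f (Fin.cons a x) :=
  (avg_equiv (Fin.consEquiv fun _ => X) f).symm.trans (avg_prod _)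

lemma avg_pow (f : X → ℝ) (N : ℕ) :
    (avg (Fin N → X)).E (fun x => ∏ i, f (x i)) = (avg X).E f ^ N := by
  simp [avg_E, div_pow, Fintype.sum_pow]

lemma avg_diag : (avg (X × X)).E (fun a => ind (a.1 = a.2)) = 1 / Fintype.card X := by
  classical
  rw [avg_prod, ← (avg X).const (1 / Fintype.card X)]
  refine congrArg _ (funext fun x => ?_)
  simp [avg_E, ind]

end

lemma abs_mul_le {a b : ℝ} (ha : |a| ≤ 1) (hb : |b| ≤ 1) : |a * b| ≤ 1 :=
  (abs_mul a b).trans_le (mul_le_one₀ ha (abs_nonneg _) hb)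

lemma abs_prod_le {ι : Type} (s : Finset ι) {f : ι → ℝ} (h : ∀ i, |f i| ≤ 1) :
    |∏ i ∈ s, f i| ≤ 1 :=
  (Finset.abs_prod s f).trans_le (Finset.prod_le_one (fun _ _ => abs_nonneg _) fun i _ => h i)

variable {Ω β : Type} (E : Mean Ω)

/-- All products over nondegenerate boxes have mean zero. -/
def Zn : (n : ℕ) → ((Fin n → β) → Ω → ℝ) → Prop
  | 0, f => ∀ x, E.E (f x) = 0
  | n + 1, f => ∀ a a', a ≠ a' → Zn n fun x ω => f (Fin.cons a x) ω * f (Fin.cons a' x) ω

variable [Fintype β] [Nonempty β]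

theorem box (n : ℕ) : ∀ (σ : (Fin n → β) → ℝ) (f : (Fin n → β) → Ω → ℝ)
    (G : Fin n → (Fin n → β) → Ω → ℝ), (∀ x, |σ x| ≤ 1) → (∀ x ω, |f x ω| ≤ 1) →
    (∀ r x ω, |G r x ω| ≤ 1) → (∀ r x a, G r (Function.update x r a) = G r x) → Zn E n f →
    E.E (fun ω => (avg _).E fun x => σ x * f x ω * ∏ r, G r x ω) ^ 2 ^ n ≤
      n / Fintype.card β := by
  induction n with
  | zero =>
    intro σ f G _ _ _ _ h
    have h : ∀ x, E.E (f x) = 0 := h
    simp [avg_comm, mul, h, const]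
  | succ n ih =>
    intro σ f G hσ hf hG hu h
    obtain ⟨a₀⟩ := ‹Nonempty β›
    let t : β → Ω × (Fin n → β) → ℝ := fun a p => σ (Fin.cons a p.2) * f (Fin.cons a p.2) p.1 *
      ∏ r : Fin n, G r.succ (Fin.cons a p.2) p.1
    have ht : ∀ a p, |t a p| ≤ 1 := fun a p =>
      abs_mul_le (abs_mul_le (hσ _) (hf _ _)) (abs_prod_le _ fun _ => hG _ _ _)
    let M := E.prod (avg (Fin n → β))
    have e : E.E (fun ω => (avg _).E fun x => σ x * f x ω * ∏ r, G r x ω) =
        M.E fun p => G 0 (Fin.cons a₀ p.2) p.1 * (avg β).E fun a => t a p := by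
      refine congrArg E.E (funext fun ω => ?_)
      rw [avg_cons, ← avg_comm]
      refine congrArg _ (funext fun x => ?_)
      refine Eq.trans (congrArg _ (funext fun a => ?_)) ((avg β).mul _ _)
      rw [Fin.prod_univ_succ, ← hu 0 (Fin.cons a₀ x) a, Fin.update_cons_zero]
      ring
    have h1 : ∀ p, |(avg β).E fun a => t a p| ≤ 1 := fun p => (avg β).abs_le fun a => ht a p
    have h2 := (M.sq_le fun p => abs_mul_le (hG 0 (Fin.cons a₀ p.2) p.1) (h1 p)).trans
      (M.mono (g := fun p => (avg (β × β)).E fun a => t a.1 p * t a.2 p) 1 (fun p => ?_)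
        fun p => ?_)
    · rw [avg_comm] at h2
      have h3 : ∀ a : β × β, |M.E fun p => t a.1 p * t a.2 p| ≤ 1 := fun a =>
        M.abs_le fun p => abs_mul_le (ht _ _) (ht _ _)
      rw [e, pow_succ', pow_mul]
      refine (pow_le_pow_left₀ (sq_nonneg _) h2 _).trans (((avg _).pow_two_le n h3).trans ?_)
      have h0 : (0 : ℝ) ≤ n / Fintype.card β := by positivity
      refine ((avg _).mono (g := fun a => n / Fintype.card β + ind (a.1 = a.2))
        (n / Fintype.card β + 2) (fun a => ?_) fun a => ?_).trans_eq ?_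
      · by_cases ha : a.1 = a.2
        · rw [ind_pos ha]
          exact ((le_abs_self _).trans ((abs_pow _ _).trans_le
            (pow_le_one₀ (abs_nonneg _) (h3 a)))).trans (le_add_of_nonneg_left h0)
        · rw [ind_neg ha, add_zero]
          convert ih (fun x => σ (Fin.cons a.1 x) * σ (Fin.cons a.2 x))
            (fun x ω => f (Fin.cons a.1 x) ω * f (Fin.cons a.2 x) ω)
            (fun r x ω => G r.succ (Fin.cons a.1 x) ω * G r.succ (Fin.cons a.2 x) ω)
            (fun x => abs_mul_le (hσ _) (hσ _)) (fun x ω => abs_mul_le (hf _ _) (hf _ _))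
            (fun r x ω => abs_mul_le (hG _ _ _) (hG _ _ _))
            (fun r x b => by simp only [Fin.cons_update, hu]) (h a.1 a.2 ha) using 2
          refine congrArg E.E (funext fun ω => congrArg _ (funext fun x => ?_))
          simp only [t, Finset.prod_mul_distrib]
          ring
      · have := neg_abs_le ((M.E fun p => t a.1 p * t a.2 p) ^ 2 ^ n)
        have := (abs_pow _ _).trans_le (pow_le_one₀ (n := 2 ^ n) (abs_nonneg _) (h3 a))
        linarith [ind_mem (a.1 = a.2)]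
      · rw [add, const, avg_diag, Nat.cast_succ, add_div]
    · have e2 : ((avg (β × β)).E fun a => t a.1 p * t a.2 p) = ((avg β).E fun a => t a p) ^ 2 := by
        simp only [avg_prod, mul]
        simp only [mul_comm (t _ p), mul, pow_two]
      rw [e2, mul_pow]
      exact mul_le_of_le_one_left (sq_nonneg _) ((sq_le_one_iff_abs_le_one _).2 (hG _ _ _))
    · have := (le_abs_self _).trans
        ((avg (β × β)).abs_le fun a => abs_mul_le (ht a.1 p) (ht a.2 p))
      linarith [sq_nonneg (G 0 (Fin.cons a₀ p.2) p.1 * (avg β).E fun a => t a p)]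

lemma Un.prod {ι X : Type} (s : Finset ι) {f : ι → X → ℝ} (h : ∀ i, Un (f i)) :
    Un fun x => ∏ i ∈ s, f i x := fun x =>
  ⟨Finset.prod_nonneg fun i _ => (h i x).1,
    Finset.prod_le_one (fun i _ => (h i x).1) fun i _ => (h i x).2⟩

theorem jensen (N n : ℕ) : ∀ G : (Fin n → β) → ℝ, Un G → (avg _).E G ^ N ^ n ≤
    (avg (Fin n → Fin N → β)).E fun ψ => ∏ i : Fin n → Fin N, G fun r => ψ r (i r) := by
  induction n with
  | zero =>
    intro G _
    simp [avg_E, Subsingleton.elim _ (default : Fin 0 → β)]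
  | succ n ih =>
    intro G hG
    let G' : (Fin N → β) → (Fin n → β) → ℝ := fun φ x => ∏ k, G (Fin.cons (φ k) x)
    have hG' : ∀ φ, Un (G' φ) := fun φ => Un.prod _ fun k x => hG _
    have h1 : (avg _).E G ^ N ≤ (avg _).E fun φ => (avg _).E (G' φ) := by
      rw [← avg_comm, avg_cons, ← avg_comm]
      refine ((avg _).pow_le (fun x => (avg β).bd _ 0 1 fun a => hG _) N).trans_eq ?_
      exact congrArg _ (funext fun x => (avg_pow _ N).symm)
    rw [pow_succ', pow_mul, avg_cons (X := Fin N → β)]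
    refine (pow_le_pow_left₀ (pow_nonneg ((avg _).bd _ 0 1 hG).1 _) h1 _).trans
      (((avg _).pow_le (fun φ => (avg _).bd _ 0 1 (hG' φ)) _).trans
      ((avg _).mono 1 (fun φ => (ih _ (hG' φ)).trans_eq ?_) fun φ => ?_))
    · refine congrArg _ (funext fun ψ => ?_)
      rw [← (Fin.consEquiv fun _ => Fin N).prod_comp, Fintype.prod_prod_type_right]
      refine Finset.prod_congr rfl fun i _ => Finset.prod_congr rfl fun k _ => congrArg G ?_
      funext r
      induction r using Fin.cases <;> rfl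
    · have := pow_nonneg ((avg _).bd _ 0 1 (hG' φ)).1 (N ^ n)
      refine sub_le_iff_le_add.2 (le_add_of_le_of_nonneg ((avg _).bd _ 0 1 fun ψ => ?_).2 this)
      exact Un.prod _ (fun (i : Fin (n + 1) → Fin N) (ψ : Fin (n + 1) → Fin N → β) =>
        hG fun r => ψ r (i r)) _

variable {n N : ℕ}

/-- The point of the subgrid `ψ` with index `i`. -/
def pt (ψ : Fin n → Fin N → β) (i : Fin n → Fin N) : Fin n → β := fun r => ψ r (i r)

lemma resample (i : Fin n → Fin N) (D : (Fin n → Fin N → β) → ℝ) : (avg _).E D =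
    (avg (Fin n → Fin N → β)).E fun ψ => (avg (Fin n → β)).E fun x =>
      D fun r => Function.update (ψ r) (i r) (x r) := by
  have h : Function.Involutive fun p : (Fin n → Fin N → β) × (Fin n → β) =>
      (fun r => Function.update (p.1 r) (i r) (p.2 r), pt p.1 i) := fun p => by
    ext <;> simp [pt]
  have := avg_equiv h.toPerm fun p => D p.1
  simp only [avg_prod, const] at this
  exact this.symm

lemma one_step {g : (Fin n → β) → Ω → ℝ} (hg : ∀ x ω, |g x ω| ≤ 1) (hZ : Zn E n g) {η : ℝ}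
    (h0 : 0 ≤ η) (hη : n / Fintype.card β ≤ η ^ 2 ^ n) (i₀ : Fin n → Fin N)
    (a : (Fin n → Fin N) → (Fin n → β) → Ω → ℝ) (ha : ∀ i x ω, |a i x ω| ≤ 1) :
    (avg (Fin n → Fin N → β)).E (fun ψ => |E.E fun ω => g (pt ψ i₀) ω *
      ∏ i : {i // i ≠ i₀}, a i (pt ψ i) ω|) ≤ η := by
  choose ρ hρ using fun i : {i // i ≠ i₀} => Function.ne_iff.1 i.2
  rw [resample i₀]
  refine ((avg _).bd _ 0 η fun ψ => ⟨((avg _).bd _ 0 1 fun x => ⟨abs_nonneg _, E.abs_le fun ω =>
    abs_mul_le (hg _ _) (abs_prod_le _ fun _ => ha _ _ _)⟩).1, ?_⟩).2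
  let u : (Fin n → β) → Fin n → Fin N → β := fun x r => Function.update (ψ r) (i₀ r) (x r)
  let D : (Fin n → β) → ℝ := fun x => E.E fun ω => g (pt (u x) i₀) ω *
    ∏ i : {i // i ≠ i₀}, a i (pt (u x) i) ω
  have h := box E n (fun x => if 0 ≤ D x then 1 else -1) g
    (fun r x ω => ∏ i with ρ i = r, a i (pt (u x) i) ω) (fun x => by split_ifs <;> simp) hg
    (fun _ _ _ => abs_prod_le _ fun _ => ha _ _ _) (fun r x b => funext fun ω =>
      Finset.prod_congr rfl fun i hi => congrArg (a i · ω) (funext fun r' => ?_)) hZ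
  · rw [avg_comm] at h
    refine le_of_not_gt fun hc => (pow_lt_pow_left₀ hc h0 (by positivity)).not_ge
      (le_trans (le_of_eq ?_) (h.trans hη))
    refine congrArg (· ^ _) (congrArg _ (funext fun x => ?_))
    have e : pt (u x) i₀ = x := funext fun r => by simp [pt, u]
    simp only [Finset.prod_fiberwise, mul_assoc, mul]
    change |D x| = _ * _
    rw [show (E.E fun ω => g x ω * ∏ i : {i // i ≠ i₀}, a i (pt (u x) i) ω) = D x by
      simp only [D, e]]
    split_ifs with h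
    · rw [one_mul, abs_of_nonneg h]
    · rw [neg_one_mul, abs_of_neg (not_le.1 h)]
  · by_cases e : r' = r
    · have := hρ i
      rw [(Finset.mem_filter.1 hi).2] at this
      simp [pt, u, e, this]
    · simp [pt, u, e]

lemma tele {g : (Fin n → β) → Ω → ℝ} (hg : ∀ x ω, |g x ω| ≤ 1) (hZ : Zn E n g) {η : ℝ}
    (h0 : 0 ≤ η) (hη : n / Fintype.card β ≤ η ^ 2 ^ n)
    (a b : (Fin n → Fin N) → (Fin n → β) → Ω → ℝ) (ha : ∀ i x ω, |a i x ω| ≤ 1)
    (hb : ∀ i x ω, |b i x ω| ≤ 1)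
    (hc : ∀ i, ∃ c : ℝ, |c| ≤ 1 ∧ ∀ x ω, a i x ω - b i x ω = c * g x ω) :
    (avg (Fin n → Fin N → β)).E (fun ψ => |(E.E fun ω => ∏ i, a i (pt ψ i) ω) -
      E.E fun ω => ∏ i, b i (pt ψ i) ω|) ≤ N ^ n * η := by
  have key : ∀ S : Finset (Fin n → Fin N), (avg (Fin n → Fin N → β)).E (fun ψ =>
      |(E.E fun ω => ∏ i, S.piecewise a b i (pt ψ i) ω) - E.E fun ω => ∏ i, b i (pt ψ i) ω|) ≤
      S.card * η := by
    intro S
    induction S using Finset.induction_on with
    | empty => simp [const]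
    | insert i₀ S hi ih =>
      obtain ⟨c, h1, h2⟩ := hc i₀
      have h3 : ∀ S : Finset (Fin n → Fin N), ∀ i x ω, |S.piecewise a b i x ω| ≤ 1 :=
        fun S i x ω => by by_cases h : i ∈ S <;> simp [h, ha, hb]
      have h4 := one_step E hg hZ h0 hη i₀ _ (h3 S)
      rw [Finset.card_insert_of_notMem hi, Nat.cast_succ, add_one_mul]
      refine le_trans ((avg _).mono 3 (fun ψ => ?_) fun ψ => ?_)
        (((avg _).add _ _).trans_le (add_le_add ih h4))
      · refine (abs_sub_le _ (E.E fun ω => ∏ i, S.piecewise a b i (pt ψ i) ω) _).trans ?_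
        rw [add_comm]
        refine add_le_add_right (le_trans (le_of_eq ?_)
          (mul_le_of_le_one_left (abs_nonneg _) h1)) _
        rw [← abs_mul, ← sub, ← mul]
        refine congrArg _ (congrArg _ (funext fun ω => ?_))
        rw [Fintype.prod_eq_mul_prod_subtype_ne _ i₀, Fintype.prod_eq_mul_prod_subtype_ne _ i₀,
          Finset.piecewise_insert_self, Finset.piecewise_eq_of_notMem _ _ _ hi, ← mul_assoc, ← h2,
          sub_mul]
        congr 2
        exact Finset.prod_congr rfl fun i _ => by rw [Finset.piecewise_insert_of_ne _ _ _ i.2]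
      · have k1 := E.abs_le fun ω => abs_prod_le Finset.univ fun i => h3 S i (pt ψ i) ω
        have k2 := E.abs_le fun ω => abs_prod_le Finset.univ fun i => hb i (pt ψ i) ω
        have k3 := E.abs_le fun ω => abs_mul_le (hg (pt ψ i₀) ω)
          (abs_prod_le Finset.univ fun i : {i // i ≠ i₀} => h3 S i (pt ψ i) ω)
        have k4 := abs_sub (E.E fun ω => ∏ i, S.piecewise a b i (pt ψ i) ω)
          (E.E fun ω => ∏ i, b i (pt ψ i) ω)
        have k5 := abs_nonneg ((E.E fun ω => ∏ i, (insert i₀ S).piecewise a b i (pt ψ i) ω) -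
          E.E fun ω => ∏ i, b i (pt ψ i) ω)
        linarith
  simpa using key Finset.univ

lemma prod_ind {ι : Type} [Fintype ι] (A : ι → Prop) : ∏ i, ind (A i) = ind (∀ i, A i) := by
  by_cases h : ∀ i, A i
  · simp [ind_pos, h]
  · obtain ⟨i, hi⟩ := not_forall.1 h
    rw [ind_neg h, Finset.prod_eq_zero (Finset.mem_univ i) (ind_neg hi)]

/-- Every pattern has positive mean on some subgrid. -/
theorem pattern (n N : ℕ) {ε : ℝ} (hε : 0 < ε) : ∃ B : ℕ, ∀ {Ω : Type} (E : Mean Ω)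
    (U V : (Fin n → Fin (B + 1)) → Ω → Prop), Zn E n (fun j ω => ind (U j ω) - ind (V j ω)) →
    (∀ j, ε ≤ E.P fun ω => ¬ (U j ω ↔ V j ω)) → ∃ ψ : Fin n → Fin N → Fin (B + 1),
      ∀ s : Set (Fin n → Fin N), 0 < E.P fun ω => ∀ i, U (pt ψ i) ω ↔ i ∈ s := by
  classical
  let c : ℝ := Fintype.card (Set (Fin n → Fin N)) * N ^ n
  let η : ℝ := (1 / 2) ^ N ^ n * ε ^ N ^ n / (c + 1)
  have h0 : 0 < η := by positivity
  obtain ⟨B, hB⟩ := exists_nat_ge (n / η ^ 2 ^ n)
  refine ⟨B, fun {Ω} E U V hZ hP => ?_⟩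
  have hη : n / Fintype.card (Fin (B + 1)) ≤ η ^ 2 ^ n := by
    rw [div_le_iff₀ (by positivity)] at hB ⊢
    rw [Fintype.card_fin, Nat.cast_succ]
    nlinarith [pow_pos h0 (2 ^ n)]
  let a : Set (Fin n → Fin N) → (Fin n → Fin N) → (Fin n → Fin (B + 1)) → Ω → ℝ :=
    fun s i x ω => ind (U x ω ↔ i ∈ s)
  let b : Set (Fin n → Fin N) → (Fin n → Fin N) → (Fin n → Fin (B + 1)) → Ω → ℝ :=
    fun s i x ω => (ind (U x ω ↔ i ∈ s) + ind (V x ω ↔ i ∈ s)) / 2
  let w : (Fin n → Fin (B + 1)) → Ω → ℝ := fun x ω => ind (¬ (U x ω ↔ V x ω))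
  have hab : ∀ s i x ω, |a s i x ω| ≤ 1 ∧ |b s i x ω| ≤ 1 ∧ 1 / 2 * w x ω ≤ b s i x ω ∧
      a s i x ω - b s i x ω = (if i ∈ s then 1 / 2 else -1 / 2) * (ind (U x ω) - ind (V x ω)) ∧
      |ind (U x ω) - ind (V x ω)| ≤ 1 := fun s i x ω => by
    by_cases h1 : U x ω <;> by_cases h2 : V x ω <;> by_cases h3 : i ∈ s <;>
      norm_num [a, b, w, ind, h1, h2, h3, abs_le]
  have h1 := fun s => tele E (fun x ω => ?_) hZ h0.le hη (a s) (b s)
    (fun i x ω => (hab s i x ω).1) (fun i x ω => (hab s i x ω).2.1)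
    fun i => ⟨_, by split_ifs <;> norm_num [abs_le], fun x ω => (hab s i x ω).2.2.2.1⟩
  swap
  · linarith [abs_sub_le_iff.2 (show ind (U x ω) - ind (V x ω) ≤ 1 ∧ _ from
      ⟨by linarith [ind_mem (U x ω), ind_mem (V x ω)],
        by linarith [ind_mem (U x ω), ind_mem (V x ω)]⟩)]
  have hw : ∀ ψ : Fin n → Fin N → Fin (B + 1), Un fun ω => ∏ i, w (pt ψ i) ω := fun ψ =>
    Un.prod _ fun i ω => ind_mem _
  have h2 : ε ^ N ^ n ≤ (avg _).E fun ψ : Fin n → Fin N → Fin (B + 1) =>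
      E.E fun ω => ∏ i, w (pt ψ i) ω := by
    have h3 : ∀ ω, _ := fun ω => (avg _).bd _ 0 1 fun x => ind_mem (¬ (U x ω ↔ V x ω))
    rw [← avg_comm]
    refine le_trans (pow_le_pow_left₀ hε.le ?_ _) ((E.pow_le h3 _).trans (E.mono 1
      (fun ω => jensen N n _ fun x => ind_mem _) fun ω => ?_))
    · rw [avg_comm]
      exact ((avg _).bd _ ε 1 fun x => ⟨hP x, (E.P_mem _).2⟩).1
    · exact sub_le_iff_le_add.2 (le_add_of_le_of_nonneg ((avg _).bd _ 0 1 fun ψ => hw ψ ω).2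
        (pow_nonneg (h3 ω).1 _))
  by_contra hc
  push Not at hc
  choose s hs using hc
  have h4 : (avg _).E (fun ψ : Fin n → Fin N → Fin (B + 1) => (1 / 2) ^ N ^ n *
      E.E fun ω => ∏ i, w (pt ψ i) ω) ≤ (avg _).E fun ψ : Fin n → Fin N → Fin (B + 1) =>
      ∑ s, |(E.E fun ω => ∏ i, a s i (pt ψ i) ω) - E.E fun ω => ∏ i, b s i (pt ψ i) ω| := by
    simp only [avg_E]
    refine div_le_div_of_nonneg_right (Finset.sum_le_sum fun ψ _ => le_trans ?_
      (Finset.single_le_sum (fun _ _ => abs_nonneg _) (Finset.mem_univ (s ψ)))) (by positivity)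
    have k1 : (E.E fun ω => ∏ i, a (s ψ) i (pt ψ i) ω) ≤ 0 := by
      simpa only [a, prod_ind, P] using hs ψ
    have k2 : (1 / 2) ^ N ^ n * (E.E fun ω => ∏ i, w (pt ψ i) ω) ≤
        E.E fun ω => ∏ i, b (s ψ) i (pt ψ i) ω := by
      rw [← mul]
      refine E.mono 1 (fun ω => le_trans (le_of_eq ?_) (Finset.prod_le_prod (fun i _ =>
        mul_nonneg (by norm_num) (ind_mem _).1) fun i _ => (hab (s ψ) i _ ω).2.2.1)) fun ω => ?_
      · simp [Finset.prod_mul_distrib, w]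
      · exact sub_le_iff_le_add.2 (le_add_of_le_of_nonneg ((le_abs_self _).trans (abs_prod_le _
          fun i => (hab (s ψ) i _ ω).2.1)) (mul_nonneg (by positivity) (hw ψ ω).1))
    rw [abs_sub_comm]
    exact le_trans (by linarith) (le_abs_self _)
  rw [mul, sum] at h4
  have h5 := h4.trans (Finset.sum_le_card_nsmul _ _ _ fun s _ => h1 s)
  have h6 := (mul_le_mul_of_nonneg_left h2 (by positivity : (0 : ℝ) ≤ (1 / 2) ^ N ^ n)).trans h5
  rw [Finset.card_univ, nsmul_eq_mul, ← mul_assoc,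
    ← div_mul_cancel₀ (_ * ε ^ N ^ n) (by positivity : c + 1 ≠ 0)] at h6
  change η * (c + 1) ≤ c * η at h6
  linarith

end Pool.Agent.MP_829a8f_lc.H56

end MrgPart2

-- ======== part 3: formerly Pool.Agent.MP_829a8f_lc.h56.Abs
section MrgPart3

/-!
Classes modulo a multiplicative group `T` without shattered product grids: the flip lemma and
absorption of translations.
-/

namespace Pool.Agent.MP_829a8f_lc.H56

open Filter Mean H33

namespace Mean

variable {X Y : Type} {m : Mean X} {k : Mean Y} {τ : X → X} {A B : X → Prop}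

lemma Inv.abs (h : m.Inv τ) {f : X → ℝ} (hf : ∀ x, |f x| ≤ 1) :
    m.E (fun x => f (τ x)) = m.E f := by
  have := h (fun x => 1 / 2 * f x + 1 / 2) fun x => by
    constructor <;> linarith [_root_.abs_le.1 (hf x)]
  simp only [add, mul, const] at this
  linarith

lemma Inv.left (h : m.Inv τ) : (m.prod k).Inv (Prod.map τ id) := fun f hf =>
  h (fun x => k.E fun y => f (x, y)) fun _ => k.bd _ 0 1 fun _ => hf _

lemma Inv.right (h : m.Inv τ) : (k.prod m).Inv (Prod.map id τ) := fun f hf =>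
  congrArg k.E (funext fun y => h (fun x => f (y, x)) fun _ => hf _)

lemma P_snd : (k.prod m).P (fun p => A p.2) = m.P A := k.const (m.P A)

lemma ae_snd : (∀ᶠ p in (k.prod m).ae, A p.2) ↔ ∀ᶠ x in m.ae, A x := by
  rw [ae_iff, ae_iff, P_snd (A := fun x => ¬ A x)]

lemma ae_symm (h : m.P B ≤ m.P A) (h' : ∀ᶠ x in m.ae, A x → B x) : ∀ᶠ x in m.ae, B x → A x := by
  have h1 : m.P B = m.P (fun x => B x ∧ A x) + m.P fun x => ¬ (B x → A x) := by
    refine Eq.trans (congrArg m.E (funext fun x => ?_)) (m.add _ _)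
    by_cases hA : A x <;> by_cases hB : B x <;> simp [ind, hA, hB]
  have h2 := P_mono_ae (B := fun x => B x ∧ A x) (h'.mono fun x hx h => ⟨hx h, h⟩)
  exact ae_iff.2 (le_antisymm (by linarith) (m.P_mem _).1)

lemma null_of_disjoint (h : ∀ K : ℕ, ∃ τ : Fin K → X → X, (∀ a, m.Inv (τ a)) ∧
    ∀ x a a', A (τ a x) → A (τ a' x) → a = a') : ∀ᶠ x in m.ae, ¬ A x := by
  simp only [ae_iff, not_not]
  refine (m.P_mem _).1.eq_or_lt.elim Eq.symm fun h0 => ?_
  obtain ⟨K, hK⟩ := exists_nat_gt (1 / m.P A)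
  obtain ⟨τ, h1, h2⟩ := h K
  have h3 := (m.bd (fun x => ∑ a, ind (A (τ a x))) 0 1 fun x =>
    ⟨Finset.sum_nonneg fun _ _ => (ind_mem _).1, ?_⟩).2
  · have h4 := (Finset.sum_congr rfl fun a _ => (h1 a).P A).symm.trans_le
      ((m.sum _ _).symm.trans_le h3)
    rw [div_lt_iff₀ h0] at hK
    simp at h4
    linarith
  · by_cases h : ∃ a, A (τ a x)
    · obtain ⟨a, ha⟩ := h
      rw [Finset.sum_eq_single a (fun b _ hb => ind_neg fun e => hb (h2 x b a e ha)) (by simp)]
      exact (ind_mem _).2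
    · simp [ind, not_exists.1 h]

/-- Markov's inequality for iterated means. -/
lemma ae_P_le {C : X × Y → Prop} (h : ∀ᶠ p in (m.prod k).ae, C p) {c : ℝ} (hc : 0 < c) :
    ∀ᶠ x in m.ae, k.P (fun y => ¬ C (x, y)) ≤ c :=
  ae_le (fun _ => k.P_mem _) h hc

end Mean

variable {F : Type} [Field F]

/-- Evaluation of a vector of coefficients. -/
def ev {m : ℕ} (c : Fin m → F) (x : F) : F := ∑ i, c i * x ^ (i : ℕ)

lemma ev_add {m : ℕ} (c d : Fin m → F) (x : F) : ev (c + d) x = ev c x + ev d x := by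
  simp [ev, add_mul, Finset.sum_add_distrib]

lemma ev_smul {m : ℕ} (a : F) (c : Fin m → F) (x : F) : ev (a • c) x = a * ev c x := by
  simp [ev, Finset.mul_sum, mul_assoc]

lemma ev_single {m : ℕ} [NeZero m] (a x : F) : ev (Pi.single (0 : Fin m) a) x = a := by
  rw [ev, Finset.sum_eq_single 0] <;> simp +contextual

lemma ev_two (a b x : F) : ev ![b, a] x = a * x + b := by simp [ev, add_comm]

lemma exists_ev {m : ℕ} {I : Type} [Fintype I] (hm : Fintype.card I ≤ m) {p : I → F}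
    (hp : Function.Injective p) (v : I → F) : ∃ c : Fin m → F, ∀ i, ev c (p i) = v i := by
  classical
  have h := Polynomial.mem_degreeLT.2 ((Lagrange.degree_interpolate_lt (s := Finset.univ) v
    hp.injOn).trans_le (Nat.cast_le.2 hm))
  exact ⟨_, fun i => (Polynomial.eval_eq_sum_degreeLTEquiv h _).symm.trans
    (Lagrange.eval_interpolate_at_node v hp.injOn (Finset.mem_univ i))⟩

theorem shatter {X : Type} (μ : Mean X) (τ : F → X → X) (hτ : ∀ a b x, τ (a + b) x = τ a (τ b x))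
    (hμ : ∀ a, μ.Inv (τ a)) {θ : X → Prop} {δ : F} (hθ : 0 < μ.P fun x => ¬ (θ x ↔ θ (τ δ x)))
    {Q : F → X → Prop} (hQ : ∀ u, ∀ᶠ x in μ.ae, Q u x) (n N : ℕ) :
    ∃ B : ℕ, ∀ p : (Fin n → Fin (B + 1)) → F, Function.Injective p →
      ∃ ψ : Fin n → Fin N → Fin (B + 1), ∀ s : Set (Fin n → Fin N), ∃ (c : Fin (2 ^ n) → F) (x : X),
        ∀ i, Q (ev c (p (pt ψ i))) x ∧ (θ (τ (ev c (p (pt ψ i))) x) ↔ i ∈ s) := by
  classical
  obtain ⟨B, hB⟩ := pattern n N hθ
  obtain ⟨ν, hν⟩ := exists_inv (0 : Fin (2 ^ n) → F) (fun d c => d + c) fun _ _ _ =>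
    add_left_comm _ _ _
  let g : X → ℝ := fun x => ind (θ x) - ind (θ (τ δ x))
  have hg : ∀ x, |g x| ≤ 1 := fun x => abs_sub_le_iff.2 (by
    constructor <;> linarith [ind_mem (θ x), ind_mem (θ (τ δ x))])
  have key : ∀ (k : ℕ) (I : Type) [Fintype I] [Nonempty I] (p : I → (Fin k → Fin (B + 1)) → F),
      Fintype.card I * 2 ^ k ≤ 2 ^ n → Function.Injective (Function.uncurry p) →
      Zn (ν.prod μ) k fun x ω => ∏ i, g (τ (ev ω.1 (p i x)) ω.2) := by
    intro k
    induction k with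
    | zero =>
      intro I _ ⟨i₀⟩ p h1 h2 x
      obtain ⟨d, hd⟩ := exists_ev (p := fun i => p i x) (by simpa using h1)
        (fun i j e => congrArg Prod.fst (h2 (a₁ := (i, x)) (a₂ := (j, x)) e)) (Pi.single i₀ δ)
      have h3 := ((hν d).left (k := μ)).abs (f := fun ω => ind (θ (τ (ev ω.1 (p i₀ x)) ω.2)) *
        ∏ i : {i // i ≠ i₀}, g (τ (ev ω.1 (p i x)) ω.2)) fun ω => abs_mul_le
        (abs_le.2 ⟨by linarith [ind_mem (θ (τ (ev ω.1 (p i₀ x)) ω.2))], (ind_mem _).2⟩)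
        (abs_prod_le _ fun _ => hg _)
      rw [← sub_eq_zero.2 h3.symm, ← sub]
      refine congrArg _ (funext fun ω => ?_)
      refine (Fintype.prod_eq_mul_prod_subtype_ne _ i₀).trans ((sub_mul _ _ _).trans ?_)
      simp only [Prod.map_fst, Prod.map_snd, id, ev_add, hd, Pi.single_eq_same, hτ δ]
      congr 2
      exact Finset.prod_congr rfl fun i _ => by rw [Pi.single_eq_of_ne i.2, zero_add]
    | succ k ih =>
      intro I _ _ p h1 h2 a a' ha
      have := ih (I ⊕ I) (Sum.elim (fun i x => p i (Fin.cons a x)) fun i x => p i (Fin.cons a' x))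
        (by rw [Fintype.card_sum, ← two_mul, mul_right_comm, ← pow_succ', mul_comm]; exact h1) ?_
      · simpa only [Fintype.prod_sum_type, Sum.elim_inl, Sum.elim_inr] using this
      · rintro ⟨i | i, x⟩ ⟨j | j, y⟩ e <;>
          have := h2 (a₁ := (i, Fin.cons _ x)) (a₂ := (j, Fin.cons _ y)) e <;>
          simp_all [Fin.cons_inj]
  refine ⟨B, fun p hp => ?_⟩
  obtain ⟨ψ, hψ⟩ := hB (ν.prod μ) (fun j ω => θ (τ (ev ω.1 (p j)) ω.2))
    (fun j ω => θ (τ δ (τ (ev ω.1 (p j)) ω.2))) (by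
      simpa using key n Unit (fun _ => p) (by simp) fun a b e => Prod.ext rfl (hp e)) fun j =>
    ((ν.const _).symm.trans (congrArg ν.E (funext fun c =>
      ((hμ (ev c (p j))).P fun x => ¬ (θ x ↔ θ (τ δ x))).symm))).le
  refine ⟨ψ, fun s => ?_⟩
  obtain ⟨ω, h1, h2⟩ := exists_of_pos (hψ s) (B := fun ω => ∀ i, Q (ev ω.1 (p (pt ψ i))) ω.2)
    (ae_bind (Eventually.of_forall fun c => eventually_all.2 fun i => hQ (ev c (p (pt ψ i)))))
  exact ⟨ω.1, ω.2, fun i => ⟨h2 i, h1 i⟩⟩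

/-- The points of a product grid. -/
def gp {n N : ℕ} (b : Fin n → Fin N → F) (j : Fin n → Fin N) : F := ∏ r, b r (j r)

theorem exists_grid {G : Set F} (hG : ∀ M : Set F, M.Finite → ∃ h, h ≠ 0 ∧ ∀ x ∈ M, x / h ∈ G)
    (N n : ℕ) : ∃ b : Fin n → Fin N → F, (∀ j, gp b j ≠ 0) ∧
      ∀ i j : Fin n → Fin N, toLex i < toLex j → gp b i / gp b j ∈ G := by
  induction n with
  | zero => exact ⟨Fin.elim0, fun _ => by simp [gp], fun i j ⟨r, _⟩ => r.elim0⟩
  | succ n ih =>
    obtain ⟨b, h0, hb⟩ := ih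
    obtain ⟨a, k0, ha⟩ := exists_seq_of_forall_finset_exists (· ≠ (0 : F))
      (fun x y => ∀ i j, x * (gp b i / gp b j) / y ∈ G) fun s _ => by
        obtain ⟨h, k1, k2⟩ := hG _ (Set.finite_range
          fun p : s × (Fin n → Fin N) × (Fin n → Fin N) => p.1 * (gp b p.2.1 / gp b p.2.2))
        exact ⟨h, k1, fun x hx i j => k2 _ ⟨(⟨x, hx⟩, i, j), rfl⟩⟩
    have e : ∀ j, gp (Fin.cons (fun i : Fin N => a i) b : Fin (n + 1) → Fin N → F) j =
        a (j 0) * gp b (Fin.tail j) := fun j => Fin.prod_univ_succ _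
    refine ⟨Fin.cons (fun i => a i) b, fun j => e j ▸ mul_ne_zero (k0 _) (h0 _),
      fun i j ⟨r, h1, h2⟩ => ?_⟩
    rw [e, e]
    induction r using Fin.cases with
    | zero =>
      convert ha _ _ h2 (Fin.tail i) (Fin.tail j) using 1
      rw [← mul_div_assoc, div_div, mul_comm (gp b (Fin.tail j))]
      rfl
    | succ r =>
      rw [show i 0 = j 0 from h1 0 r.succ_pos, mul_div_mul_left _ _ (k0 _)]
      exact hb _ _ ⟨r, fun k hk => h1 _ (Fin.succ_lt_succ_iff.2 hk), h2⟩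

lemma exists_grid_inj [Infinite F] (N n : ℕ) :
    ∃ b : Fin n → Fin N → F, Function.Injective (gp b) := by
  obtain ⟨b, h0, hb⟩ := exists_grid (G := {x : F | x ≠ 1}) (fun M hM => by
    obtain ⟨h, hh⟩ := (hM.insert 0).exists_notMem
    exact ⟨h, fun e => hh (Or.inl e), fun x hx e => hh (Or.inr (eq_of_div_eq_one e ▸ hx))⟩) N n
  refine ⟨b, fun i j e => ?_⟩
  rcases lt_trichotomy (toLex i) (toLex j) with h | h | h
  · exact absurd (e ▸ div_self (h0 i)) (hb _ _ h)
  · exact h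
  · exact absurd (e ▸ div_self (h0 i)) (hb _ _ h)

/-- Equivalence modulo `T`. -/
def Eqv (T : Set F) (x y : F) : Prop := ∃ τ ∈ T, x = τ * y

variable {T H : Set F} {x y z : F}

lemma Eqv.mul_left (a : F) (h : Eqv T x y) : Eqv T (a * x) (a * y) :=
  h.imp fun _ k => ⟨k.1, by rw [k.2, mul_left_comm]⟩

lemma eqv_mul_left {a : F} (ha : a ≠ 0) : Eqv T (a * x) (a * y) ↔ Eqv T x y :=
  ⟨fun h => by simpa [ha] using h.mul_left a⁻¹, Eqv.mul_left a⟩

lemma eqv_iff (hy : y ≠ 0) : Eqv T x y ↔ x / y ∈ T :=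
  ⟨fun ⟨_, h, e⟩ => by rwa [e, mul_div_cancel_right₀ _ hy],
    fun h => ⟨_, h, (div_mul_cancel₀ x hy).symm⟩⟩

lemma Eqv.zero (h : Eqv T x 0) : x = 0 := h.elim fun _ k => k.2.trans (mul_zero _)

lemma Eqv.of_eq {x' y' : F} (h : Eqv T x y) (e : x' = x) (e' : y' = y) : Eqv T x' y' :=
  e ▸ e' ▸ h

lemma Eqv.ne_of_add {a : F} (h : Eqv T (x + a) x) (ha : a ≠ 0) : x ≠ 0 := fun e => ha (by
  simpa [e] using (h.of_eq rfl e.symm).zero)

variable [hT : Fact (MG T)] [hH : Fact (MG H)]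

lemma Eqv.refl (x : F) : Eqv T x x := ⟨1, hT.1.one, (one_mul x).symm⟩

lemma Eqv.symm (h : Eqv T x y) : Eqv T y x := h.elim fun _ k =>
  ⟨_, hT.1.inv k.1, by rw [k.2, inv_mul_cancel_left₀ (hT.1.ne k.1)]⟩

lemma Eqv.trans (h : Eqv T x y) (h' : Eqv T y z) : Eqv T x z := h.elim fun _ k => h'.elim
  fun _ k' => ⟨_, hT.1.mul k.1 k'.1, by rw [k.2, k'.2, mul_assoc]⟩

lemma Eqv.mul {x' y' : F} (h : Eqv T x y) (h' : Eqv T x' y') : Eqv T (x * x') (y * y') :=
  (h'.mul_left x).trans ((h.mul_left y').of_eq (mul_comm _ _) (mul_comm _ _))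

lemma Eqv.ne (h : Eqv T x y) (hy : y ≠ 0) : x ≠ 0 := fun e => hy (e ▸ h).symm.zero

lemma Eqv.congr {x' y' : F} (h : Eqv T x x') (h' : Eqv T y y') : Eqv T x y ↔ Eqv T x' y' :=
  ⟨fun k => h.symm.trans (k.trans h'), fun k => h.trans (k.trans h'.symm)⟩

variable (T H) in
/-- The quotient of `x` by `y` lies in `H`, and it lies in `T` exactly if `P` holds. -/
def Pat (x y : F) (P : Prop) : Prop := y ≠ 0 ∧ Eqv H x y ∧ (Eqv T x y ↔ P)

variable (T H) in
/-- The hypotheses on the pair of groups. -/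
structure Tame : Prop where
  sub : T ⊆ H
  fi : FI H T
  ng : ∃ n : ℕ, ∀ m : ℕ, ∃ N : ℕ, ∀ b : Fin n → Fin N → F, ∃ s : Set (Fin n → Fin N),
    ∀ f g : Fin m → F, ¬ ∀ j, Pat T H (ev f (gp b j)) (ev g (gp b j)) (j ∈ s)
  hm : ∃ (ι : Type) (_ : Finite ι), ∀ δ, ∃ B : ι → F → Prop,
    (∀ w, (∀ i, ¬ B i w) → Eqv H (w + δ) w) ∧ ∀ K : ℕ, ∃ Φ : Fin K → F,
      ∀ i z a a', B i (z + Φ a) → B i (z + Φ a') → a = a'
  hf : ∃ Λ : Set F, Λ.Finite ∧ 0 ∉ Λ ∧ ∀ w c, (∀ l ∈ Λ, Eqv T (w + l) c) → Eqv H w c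
  hd : ∀ u y c, Eqv T (u + 1) u → Eqv T (y + c) y → Eqv T (y + 1) y →
    Eqv T (u * y + c + y) (u * y + c) → Eqv H (u * y + c) (u * y)

variable (T) in
/-- The flip property of a finite set of nonzero elements. -/
structure Flip (Λ : Set F) : Prop where
  fin : Λ.Finite
  ne : 0 ∉ Λ
  one : 1 ∈ Λ
  fl : ∀ w a c, (∀ l ∈ Λ, Eqv T (w + a * l) c) → Eqv T w c

variable (T) in
/-- Absorption of translations. -/
def Abs (m : Mean F) : Prop := ∀ {Z : Type} (E : Mean Z) (y t : Z → F) (δ : F),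
  ∀ᶠ p in (m.prod E).ae, Eqv T (y p.2 + (p.1 + δ) * t p.2) (y p.2 + p.1 * t p.2)

namespace Tame

variable (d : Tame T H)
include d

omit hT hH in
lemma ng1 : ∃ n N : ℕ, ∀ b : Fin n → Fin N → F, ∃ s : Set (Fin n → Fin N),
    ∀ a c a' c' : F, ¬ ∀ j, Pat T H (a * gp b j + c) (a' * gp b j + c') (j ∈ s) := by
  obtain ⟨n, h⟩ := d.ng
  obtain ⟨N, h⟩ := h 2
  exact ⟨n, N, fun b => (h b).imp fun s hs a c a' c' => by
    simpa only [ev_two] using hs ![c, a] ![c', a']⟩

theorem flip [Infinite F] : ∃ Λ, Flip T Λ := by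
  classical
  suffices h : ∃ Λ : Set F, Λ.Finite ∧ 0 ∉ Λ ∧ ∀ w c, (∀ l ∈ Λ, Eqv T (w + l) c) → Eqv T w c by
    obtain ⟨Λ, h1, h2, h3⟩ := h
    refine ⟨insert 1 Λ, h1.insert 1, by simp [h2], Or.inl rfl, fun w a c h => ?_⟩
    by_cases ha : a = 0
    · simpa [ha] using h 1 (Or.inl rfl)
    · exact (eqv_mul_left (inv_ne_zero ha)).1 (h3 _ _ fun l hl =>
        ((h l (Or.inr hl)).mul_left a⁻¹).of_eq (by field_simp) rfl)
  by_contra hc
  push Not at hc
  obtain ⟨Λ, h1, h2, h3⟩ := d.hf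
  obtain ⟨n, N, h⟩ := d.ng1
  obtain ⟨b, hb⟩ := exists_grid_inj (F := F) N n
  obtain ⟨s, hs⟩ := h b
  have key : ∀ S : Finset (Fin n → Fin N), ∃ a c : F, ∀ j, Pat T H (a * gp b j + c) 1 (j ∉ S) := by
    intro S
    induction S using Finset.induction_on with
    | empty => exact ⟨0, 1, fun j => ⟨one_ne_zero, by simp [Eqv.refl], by simp [Eqv.refl]⟩⟩
    | insert i S hi ih =>
      obtain ⟨a, c, h⟩ := ih
      have h0 : ∀ j, a * gp b j + c ≠ 0 := fun j => (h j).2.1.ne one_ne_zero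
      obtain ⟨w, γ, k1, k2⟩ := hc (Λ ∪ Set.range fun j : {j // j ≠ i} =>
        (gp b j - gp b i) / (a * gp b j + c)) (h1.union (Set.finite_range _)) (by
          rintro (e | ⟨j, e⟩)
          · exact h2 e
          · exact div_ne_zero (sub_ne_zero.2 (hb.ne j.2)) (h0 j) e)
      have k3 := h3 w γ fun l hl => k1 l (Or.inl hl)
      have k4 : γ ≠ 0 := fun e => k2 (by rw [e, (k3.of_eq rfl e.symm).zero]; exact Eqv.refl _)
      refine ⟨(a * w + 1) / γ, (c * w - gp b i) / γ, fun j => ⟨one_ne_zero, ?_⟩⟩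
      by_cases e : j = i
      · subst e
        have k5 : Eqv T ((a * w + 1) / γ * gp b j + (c * w - gp b j) / γ) (γ⁻¹ * w) :=
          (((h j).2.2.2 hi).mul_left (γ⁻¹ * w)).of_eq (by field_simp; ring) (mul_one _).symm
        refine ⟨Eqv.trans (k5.imp fun _ k => ⟨d.sub k.1, k.2⟩) ((k3.mul_left γ⁻¹).of_eq rfl
          (inv_mul_cancel₀ k4).symm), iff_of_false (fun k => k2 ?_) (by simp)⟩
        exact (eqv_mul_left (inv_ne_zero k4)).1 ((k5.symm.trans k).of_eq rfl (inv_mul_cancel₀ k4))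
      · have k5 : Eqv T ((a * w + 1) / γ * gp b j + (c * w - gp b i) / γ) (a * gp b j + c) :=
          ((k1 _ (Or.inr ⟨⟨j, e⟩, rfl⟩)).mul_left ((a * gp b j + c) / γ)).of_eq (by
            rw [mul_add, div_mul_div_cancel₀' (h0 j)]
            ring) (div_mul_cancel₀ _ k4).symm
        exact ⟨Eqv.trans (k5.imp fun _ k => ⟨d.sub k.1, k.2⟩) (h j).2.1,
          (k5.congr (Eqv.refl _)).trans ((h j).2.2.trans (by simp [e]))⟩
  obtain ⟨a, c, h⟩ := key (Finset.univ.filter (· ∉ s))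
  exact hs a c 0 1 fun j => by simpa using h j

variable {m : Mean F} (hm : ∀ b, m.Inv (· + b))
include hm

omit hT in
theorem habs : Abs H m := by
  intro Z E y t δ
  obtain ⟨ι, _, h⟩ := d.hm
  obtain ⟨B, h1, h2⟩ := h δ
  have key : ∀ i, ∀ᶠ p in (m.prod E).ae, ¬ B i (y p.2 / t p.2 + p.1) := fun i =>
    null_of_disjoint fun K => (h2 K).elim fun Φ h => ⟨fun a => Prod.map (· + Φ a) id,
      fun a => (hm _).left, fun p a a' k k' => h i (y p.2 / t p.2 + p.1) a a'
        (by rw [add_assoc]; exact k) (by rw [add_assoc]; exact k')⟩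
  filter_upwards [eventually_all.2 key] with p hp
  by_cases h0 : t p.2 = 0
  · simp [h0, Eqv.refl]
  · exact ((h1 _ hp).mul_left (t p.2)).of_eq (by field_simp; ring) (by field_simp)

theorem abs [Infinite F] : Abs T m := by
  intro Z E y t δ
  obtain ⟨κ, _, χ, hχ⟩ := d.fi
  have hq : ∀ k, ∃ q ∈ H, ∀ x ∈ H, χ x = k → x / q ∈ T := fun k => by
    by_cases h : ∃ x ∈ H, χ x = k
    · exact h.imp fun q h => ⟨h.1, fun x hx e => hχ x hx q h.1 (e.trans h.2.symm)⟩
    · exact ⟨1, hH.1.one, fun x hx e => absurd ⟨x, hx, e⟩ h⟩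
  choose q hq hq' using hq
  let ρ : F → F := fun v => Classical.epsilon fun r => Eqv H v r
  have h1 : ∀ v, Eqv H v (ρ v) := fun v => Classical.epsilon_spec ⟨v, Eqv.refl v⟩
  have h2 : ∀ {v v'}, Eqv H v v' → ρ v = ρ v' := fun h =>
    congrArg Classical.epsilon (funext fun r => propext (h.congr (Eqv.refl r)))
  let v : F × Z → F := fun p => y p.2 + p.1 * t p.2
  let τ : F → F × Z → F × Z := fun a => Prod.map (· + a) id
  have h3 : ∀ u, ∀ᶠ p in (m.prod E).ae, Eqv H (v (τ u p)) (v p) := d.habs hm E y t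
  have key : ∀ k, ∀ᶠ p in (m.prod E).ae, (Eqv T (v p) (q k * ρ (v p)) ↔
      Eqv T (v (τ δ p)) (q k * ρ (v (τ δ p)))) := fun k => by
    refine ((m.prod E).P_mem _).1.eq_or_lt.elim Eq.symm fun h0 => False.elim ?_
    obtain ⟨n, hn⟩ := d.ng
    obtain ⟨N, hN⟩ := hn (2 ^ n)
    obtain ⟨B, hB⟩ := shatter (m.prod E) τ (fun a b x => Prod.ext (by
      simp only [τ, Prod.map_fst, add_assoc, add_comm a]) rfl) (fun a => (hm a).left)
      (θ := fun p => Eqv T (v p) (q k * ρ (v p))) h0 h3 n N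
    obtain ⟨b, hb⟩ := exists_grid_inj (F := F) (B + 1) n
    obtain ⟨ψ, hψ⟩ := hB _ hb
    obtain ⟨s, hs⟩ := hN fun r i => b r (ψ r i)
    obtain ⟨c, x, h⟩ := hψ s
    by_cases e : v x = 0
    · refine hs (Pi.single 0 1) (Pi.single 0 1) fun j => ?_
      rw [ev_single]
      refine ⟨one_ne_zero, Eqv.refl _, iff_of_true (Eqv.refl _) ((h j).2.1 ?_)⟩
      rw [h2 (h j).1, ((h j).1.of_eq rfl e.symm).zero, ((h1 (v x)).symm.of_eq rfl e.symm).zero,
        mul_zero]
      exact Eqv.refl _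
    · refine hs (t x.2 • c + Pi.single 0 (v x)) (Pi.single 0 (q k * ρ (v x))) fun j => ?_
      have e1 : ev (t x.2 • c + Pi.single 0 (v x)) (gp (fun r i => b r (ψ r i)) j) =
          v (τ (ev c (gp b (pt ψ j))) x) := by
        rw [ev_add, ev_smul, ev_single]
        change t x.2 * ev c (gp b (pt ψ j)) + (y x.2 + _) = y x.2 + (x.1 + _) * t x.2
        ring
      rw [e1, ev_single]
      refine ⟨mul_ne_zero (hH.1.ne (hq k)) ((h1 _).symm.ne e), (h j).1.trans ((h1 _).trans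
        (Eqv.symm ⟨_, hq k, rfl⟩)), ?_⟩
      rw [← h2 (h j).1]
      exact (h j).2
  filter_upwards [eventually_all.2 key, h3 δ] with p k1 k2
  obtain ⟨η, k3, k4⟩ := h1 (v p)
  have k5 : Eqv T (v p) (q (χ η) * ρ (v p)) :=
    ⟨_, hq' _ η k3 rfl, by rw [← mul_assoc, div_mul_cancel₀ _ (hH.1.ne (hq _)), ← k4]⟩
  exact (h2 k2 ▸ (k1 _).1 k5).trans k5.symm

end Tame

omit hT in
/-- The covering property. -/
theorem Abs.cov {m : Mean F} (h : Abs T m) {A : Set F} (hA : A.Finite) :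
    ∃ C : Set F, C.Finite ∧ ∀ y, ∃ c ∈ C, ∀ a ∈ A, Eqv T (c - y + a) (c - y) := by
  by_contra hc
  push Not at hc
  have : (⨅ c : F, 𝓟 {y | ∃ a ∈ A, ¬ Eqv T (c - y + a) (c - y)}).NeBot :=
    (hasBasis_iInf_principal_finite _).neBot_iff.2 fun {C} hC => (hc C hC).imp fun y hy =>
      Set.mem_iInter₂.2 hy
  obtain ⟨E, hE⟩ := exists_ae_le (⨅ c : F, 𝓟 {y | ∃ a ∈ A, ¬ Eqv T (c - y + a) (c - y)})
  obtain ⟨p, ⟨a, ha, h1⟩, h2⟩ := ((ae_bind (m := m) (k := fun _ => E)
    (C := fun p => ∃ a ∈ A, ¬ Eqv T (p.1 - p.2 + a) (p.1 - p.2)) (Eventually.of_forall fun c =>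
    hE (mem_iInf_of_mem c (mem_principal_self _)))).and
    ((eventually_all_finite hA).2 fun a _ => h E (fun y => -y) (fun _ => 1) a)).exists
  exact h1 ((h2 a ha).of_eq (by ring) (by ring))

end Pool.Agent.MP_829a8f_lc.H56

end MrgPart3

-- ======== part 4: formerly Pool.Agent.MP_829a8f_lc.h56.Nil
section MrgPart4

/-!
Dilation invariant means, their sensitivity to translations, and continuity of multiplication.
-/

namespace Pool.Agent.MP_829a8f_lc.H56

open Filter Mean H33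

variable {F : Type} [Field F] {T H Λ : Set F} {m κ κ' : Mean F}

variable (T κ) in
/-- The probability that `x + r` and `y + r` have different classes. -/
noncomputable def dd (x y : F) : ℝ := κ.P fun r => ¬ Eqv T (x + r) (y + r)

variable (κ) in
/-- Invariance under dilations. -/
def Dil : Prop := ∀ a, a ≠ 0 → κ.Inv (a * ·)

variable (T κ) in
/-- Insensitivity to translations. -/
def Ins : Prop := ∀ x, ∀ᶠ r in κ.ae, Eqv T (x + r) r

variable (κ κ') in
/-- Convolution; the first factor is the outer one. -/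
def conv : Mean F := (κ.prod κ').map fun p => p.1 + p.2

variable (κ) in
/-- Convolution powers. -/
def pw : ℕ → Mean F
  | 0 => κ
  | j + 1 => conv κ (pw j)

lemma Dil.dd (h : Dil κ) {a : F} (ha : a ≠ 0) (x y : F) : dd T κ (a * x) (a * y) = dd T κ x y :=
  ((h a ha).P _).symm.trans (congrArg κ.P (funext fun r => by
    rw [← mul_add, ← mul_add, eqv_mul_left ha]))

lemma Dil.conv (h : Dil κ) (h' : Dil κ') : Dil (conv κ κ') := fun a ha f hf =>
  (congrArg (κ.prod κ').E (funext fun p => congrArg f (mul_add a p.1 p.2))).trans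
    (((h a ha).left (fun p => f (p.1 + a * p.2)) fun _ => hf _).trans
      ((h' a ha).right (fun p => f (p.1 + p.2)) fun _ => hf _))

lemma Dil.pw (h : Dil κ) : ∀ j, Dil (pw κ j)
  | 0 => h
  | j + 1 => h.conv (h.pw j)

variable [hT : Fact (MG T)] [hH : Fact (MG H)]

lemma dd_tri (x y z : F) : dd T κ x z ≤ dd T κ x y + dd T κ y z :=
  κ.P_le_add fun _ h => not_and_or.1 fun k => h (k.1.trans k.2)

lemma dd_symm (x y : F) : dd T κ x y = dd T κ y x :=
  congrArg κ.P (funext fun _ => propext ⟨mt Eqv.symm, mt Eqv.symm⟩)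

lemma Ins.conv (h : Ins T κ') : Ins T (conv κ κ') := fun x =>
  ae_bind (m := κ) (k := fun _ => κ') (C := fun p => Eqv T (x + (p.1 + p.2)) (p.1 + p.2))
    (Eventually.of_forall fun w => ((h (x + w)).and (h w)).mono fun _ k =>
      (k.1.trans k.2.symm).of_eq (add_assoc _ _ _).symm rfl)

lemma Ins.pw (h : Ins T κ) : ∀ j, Ins T (pw κ j)
  | 0 => h
  | j + 1 => (h.pw j).conv

lemma Ins.pw_conv (h : Ins T (H56.conv κ κ')) : ∀ j, Ins T (H56.conv (H56.pw κ j) κ')
  | 0 => h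
  | j + 1 => fun x => Eventually.mono (f := (κ.prod ((H56.pw κ j).prod κ')).ae)
      (p := fun p : F × F × F => Eqv T (x + (p.1 + (p.2.1 + p.2.2))) (p.1 + (p.2.1 + p.2.2)))
      (q := fun p : F × F × F => Eqv T (x + (p.1 + p.2.1 + p.2.2)) (p.1 + p.2.1 + p.2.2))
      ((h.pw_conv j).conv (κ := κ) x) fun p k => by rwa [add_assoc p.1]

omit hT in
lemma Abs.ne (hA : Abs T m) (c : F) : ∀ᶠ h in m.ae, h ≠ c := by
  by_contra hc
  have := ae_P_le (hA m (fun _ => -c) (fun _ => 1) 1) (c := 1 / 2) (by norm_num)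
  refine hc (this.mono fun h k e => ?_)
  rw [m.P_true fun _ k => by simpa [e] using (k.of_eq rfl (by simp [e])).zero] at k
  norm_num at k

lemma Flip.nc (hΛ : Flip T Λ) (hA : Abs T m) (hκ : Dil κ) {t : F} (ht : t ≠ 0) (x : F) :
    ∀ᶠ r in κ.ae, (∀ l ∈ Λ, Eqv T (l * t + r) (t + r)) → Eqv T (x + r) r := by
  have key : ∀ x, ∀ᶠ p in (m.prod κ).ae, (∀ l ∈ Λ, Eqv T (p.1 * (l * t) + p.2) p.2) →
      Eqv T (x + p.2) p.2 := fun x => by
    filter_upwards [(eventually_all_finite hΛ.fin).2 fun l _ =>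
      hA κ id (fun _ => l * t) (x / (l * t))] with p hp h
    refine hΛ.fl _ (p.1 * t) _ fun l hl => Eqv.trans ((hp l hl).of_eq ?_ (add_comm _ _)) (h l hl)
    have : l ≠ 0 := fun e => hΛ.ne (e ▸ hl)
    simp only [id]
    field_simp
    ring
  have h1 := ae_symm (B := fun p : F × F => ∀ l ∈ Λ, Eqv T (l * t + p.2) p.2) ?_
    (((eventually_all_finite hΛ.fin).2 fun l _ => key (l * t)).mono fun p k h l hl => k l hl h)
  · refine (ae_snd (k := m)).1 ((h1.and (key x)).mono fun p k h => k.2 (k.1 fun l hl => ?_))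
    exact (h l hl).trans (hΛ.fl _ t _ fun l hl => (h l hl).of_eq (by ring) rfl).symm
  · refine m.mono 1 (fun h => ?_) fun h => ?_
    · by_cases h0 : h = 0
      · exact κ.P_mono fun r _ l _ => by simp [h0, Eqv.refl]
      · refine (κ.P_mono fun r k l hl => ?_).trans_eq
          ((hκ h h0).P fun r => ∀ l ∈ Λ, Eqv T (h * (l * t) + r) r)
        exact ((k l hl).mul_left h).of_eq (mul_add _ _ _).symm rfl
    · exact sub_le_iff_le_add.2 (le_add_of_le_of_nonneg (κ.P_mem _).2 (κ.P_mem _).1)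

theorem Tame.nilp [Infinite F] (d : Tame T H) (hΛ : Flip T Λ) (hA : Abs T m) (h1 : Dil κ)
    (h2 : Ins H κ) (h3 : Ins T (conv κ κ)) : Ins T κ := by
  classical
  by_contra hc
  obtain ⟨u, hu, hq⟩ : ∃ u, u ≠ 0 ∧ 0 < dd T κ u 1 := by
    by_contra h
    push Not at h
    refine hc fun x => ?_
    filter_upwards [hΛ.nc hA h1 one_ne_zero x, (eventually_all_finite hΛ.fin).2 fun l hl =>
      ae_iff.2 (le_antisymm (h l fun e => hΛ.ne (e ▸ hl)) (κ.P_mem _).1)] with r k1 k2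
    exact k1 fun l hl => by simpa using k2 l hl
  obtain ⟨n, N, h⟩ := d.ng1
  obtain ⟨b, hb⟩ := exists_grid_inj (F := F) N n
  obtain ⟨s, hs⟩ := h b
  have key : ∀ S : Finset (Fin n → Fin N), ∀ η : ℝ, 0 < η → ∃ a c a' c' : F, ∀ j,
      Pat T H (a * gp b j + c) (a' * gp b j + c') (j ∉ S) ∧
      dd T κ (a * gp b j + c) (a' * gp b j + c') ≤ η := by
    intro S
    induction S using Finset.induction_on with
    | empty => exact fun η h => ⟨0, 1, 0, 1, fun j => ⟨⟨by simp, Eqv.refl _, by simp [Eqv.refl]⟩,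
        (κ.P_false fun _ k => k (Eqv.refl _)).trans_le h.le⟩⟩
    | insert i S hi ih =>
      intro η hη
      obtain ⟨ε, h0, e1, e2⟩ : ∃ ε : ℝ, 0 < ε ∧ 3 * ε ≤ η ∧
          Fintype.card (Fin n → Fin N) * (3 * ε) < dd T κ u 1 := by
        have := Nat.cast_nonneg (α := ℝ) (Fintype.card (Fin n → Fin N))
        generalize (Fintype.card (Fin n → Fin N) : ℝ) = C at *
        refine ⟨min (η / 3) (dd T κ u 1 / (3 * (C + 1))), by positivity,
          by linarith [min_le_left (η / 3) (dd T κ u 1 / (3 * (C + 1)))], ?_⟩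
        have h := (le_div_iff₀ (by positivity)).1
          (min_le_right (η / 3) (dd T κ u 1 / (3 * (C + 1))))
        have h' : 0 < min (η / 3) (dd T κ u 1 / (3 * (C + 1))) := by positivity
        linarith
      obtain ⟨a, c, a', c', h⟩ := ih ε h0
      set L : (Fin n → Fin N) → F := fun j => a * gp b j + c with hL
      set L' : (Fin n → Fin N) → F := fun j => a' * gp b j + c' with hL'
      have k0 : ∀ j, L' j ≠ 0 := fun j => (h j).1.1
      have k1 : ∀ j, L j ≠ 0 := fun j => (h j).1.2.1.ne (k0 j)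
      have k2 : ∀ j y, y ≠ 0 → dd T κ (y / L j) (y / L' j) ≤ ε := fun j y hy => by
        rw [← h1.dd (div_ne_zero (mul_ne_zero (k1 j) (k0 j)) hy), dd_symm]
        convert (h j).2 using 2
        · have := k0 j
          change _ = L j
          field_simp
        · have := k1 j
          change _ = L' j
          field_simp
      obtain ⟨e, k3, k4⟩ : ∃ e : F, e ≠ 0 ∧ ∀ j, j ≠ i → ∀ v ∈ ({1, u} : Set F),
          dd T κ (gp b j - gp b i + v * e) (gp b j - gp b i) ≤ ε := by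
        obtain ⟨g, l1, l2⟩ := ((hA.ne 0).and (eventually_all.2 fun j =>
          (eventually_all_finite (Set.toFinite ({1, u} : Set F))).2 fun v _ => ae_P_le
          (hA κ id (fun _ => gp b j - gp b i) (v / (gp b j - gp b i))) h0)).exists
        refine ⟨g⁻¹, inv_ne_zero l1, fun j hj v hv => ?_⟩
        have := sub_ne_zero.2 (hb.ne hj)
        rw [← h1.dd l1]
        refine (κ.P_mono fun r k k' => k (k'.of_eq ?_ (add_comm _ _))).trans (l2 j v hv)
        simp only [id]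
        field_simp
        ring
      let X : (Fin n → Fin N) → F := fun j => (gp b j - gp b i + u * e) / L j
      let X' : (Fin n → Fin N) → F := fun j => (gp b j - gp b i + 1 * e) / L' j
      let Y : (Fin n → Fin N) → F := fun j => if j = i then u * e / L' i else X' j
      have k5 : ∀ j, dd T κ (X j) (Y j) ≤ 3 * ε := fun j => by
        by_cases e : j = i
        · simpa [X, Y, e] using (k2 i _ (mul_ne_zero hu k3)).trans (by linarith : ε ≤ 3 * ε)
        · have l1 := dd_tri (T := T) (κ := κ) (X j) ((gp b j - gp b i) / L j) (X' j)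
          have l2 := dd_tri (T := T) (κ := κ) ((gp b j - gp b i) / L j)
            ((gp b j - gp b i) / L' j) (X' j)
          have l3 := k2 j _ (sub_ne_zero.2 (hb.ne e))
          have l4 := k4 j e u (Or.inr rfl)
          have l5 := k4 j e 1 (Or.inl rfl)
          rw [← h1.dd (inv_ne_zero (k1 j)), ← div_eq_inv_mul, ← div_eq_inv_mul] at l4
          rw [← h1.dd (inv_ne_zero (k0 j)), ← div_eq_inv_mul, ← div_eq_inv_mul, dd_symm] at l5
          simp only [Y, if_neg e]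
          linarith
      have k6 := κ.P_le_add (A := fun w => ¬ Eqv T (Y i + w) (X' i + w))
        (B := fun w => ¬ Eqv T (Y i + w) (X' i + w) ∧ ∀ j, Eqv T (X j + w) (Y j + w))
        (C := fun w => ∃ j, ¬ Eqv T (X j + w) (Y j + w)) fun w hw => by
          rw [← not_forall]
          tauto
      have k7 : dd T κ (Y i) (X' i) = dd T κ u 1 := by
        rw [← h1.dd (div_ne_zero k3 (k0 i)) u 1]
        simp only [X', Y, if_true]
        congr 1 <;> ring
      have k8 : ∀ x, ∀ᶠ w in κ.ae, dd T κ (x + w) w ≤ ε := fun x => (ae_P_le (m := κ) (k := κ)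
        (C := fun p => Eqv T (x + (p.1 + p.2)) (p.1 + p.2)) (h3 x) h0).mono fun w k =>
        (κ.P_mono fun r k k' => k (k'.of_eq (add_assoc _ _ _) rfl)).trans k
      obtain ⟨w, ⟨l1, l2⟩, l3, l4⟩ := exists_of_pos
        (by linarith [κ.P_exists _ k5, show κ.P _ = _ from k7] : 0 < κ.P fun w =>
          ¬ Eqv T (Y i + w) (X' i + w) ∧ ∀ j, Eqv T (X j + w) (Y j + w))
        ((h2 1).and (eventually_all.2 fun j => ((h2 (X j)).and (h2 (X' j))).and
          ((k8 (X j)).and (k8 (X' j)))))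
      have l5 : w ≠ 0 := (l3.of_eq (add_comm _ _) rfl).ne_of_add one_ne_zero
      refine ⟨1 + w * a, u * e - gp b i + w * c, 1 + w * a', e - gp b i + w * c', fun j => ?_⟩
      have e3 : (1 + w * a) * gp b j + (u * e - gp b i + w * c) = L j * (X j + w) := by
        rw [mul_add (L j), mul_div_cancel₀ _ (k1 j)]
        ring
      have e4 : (1 + w * a') * gp b j + (e - gp b i + w * c') = L' j * (X' j + w) := by
        rw [mul_add (L' j), mul_div_cancel₀ _ (k0 j)]
        ring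
      have l6 := (l4 j).1.2.ne l5
      rw [e3, e4]
      refine ⟨⟨mul_ne_zero (k0 j) l6, (h j).1.2.1.mul ((l4 j).1.1.trans (l4 j).1.2.symm), ?_⟩, ?_⟩
      · by_cases e : j = i
        · subst e
          refine iff_of_false (fun k => l1 ((eqv_mul_left (k0 j)).1 ?_)) (by simp)
          exact (((h j).1.2.2.2 hi).mul (l2 j)).symm.trans k
        · rw [((l2 j).mul_left _).congr (Eqv.refl _), show Y j = X' j from if_neg e, mul_comm,
            mul_comm (L' j), eqv_mul_left l6]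
          exact (h j).1.2.2.trans (by simp [e])
      · have m1 := dd_tri (T := T) (κ := κ) (L j * (X j + w)) (L j * w) (L' j * (X' j + w))
        have m2 := dd_tri (T := T) (κ := κ) (L j * w) (L' j * w) (L' j * (X' j + w))
        rw [h1.dd (k1 j)] at m1
        rw [h1.dd (k0 j), dd_symm w, mul_comm _ w, mul_comm _ w, h1.dd l5, mul_comm w] at m2
        linarith [(l4 j).2.1, (l4 j).2.2, show dd T κ (L j) (L' j) ≤ ε from (h j).2]
  obtain ⟨a, c, a', c', h⟩ := key (Finset.univ.filter (· ∉ s)) 1 one_pos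
  exact hs a c a' c' fun j => by simpa using (h j).1

theorem Tame.ins_pw [Infinite F] (d : Tame T H) (hΛ : Flip T Λ) (hA : Abs T m) (h1 : Dil κ)
    (h2 : Ins H κ) : ∀ j, Ins T (pw κ j) → Ins T κ
  | 0 => id
  | j + 1 => fun h => d.ins_pw hΛ hA h1 h2 j (d.nilp hΛ hA (h1.pw j) (h2.pw j) (h.pw_conv j))

end Pool.Agent.MP_829a8f_lc.H56

end MrgPart4

-- ======== part 5: formerly Pool.Agent.MP_829a8f_lc.h56.Mul
section MrgPart5

/-!
Continuity of multiplication at zero for the topology of a tame pair of groups.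
-/

namespace Pool.Agent.MP_829a8f_lc.H56

open Filter Mean H33

variable {F : Type} [Field F] {T H Λ : Set F} {m : Mean F}

variable (T H) in
/-- The law of one level `(w, t)` of the linear forms. -/
structure Lev (l : Mean (F × F)) : Prop where
  a1 : ∀ (κ : Mean F) (e c b : F), c ≠ 0 → ∀ᶠ p in (l.prod κ).ae,
    Eqv T (e + c * p.1.1 + b * p.1.2 + p.2) (e + c * p.1.1 + p.2)
  a2 : ∀ (κ : Mean F) (e b : F), b ≠ 0 → ∀ᶠ p in (l.prod κ).ae,
    Eqv T (e + b * p.1.2 + p.2) (b * p.1.2 + p.2)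
  ne : ∀ᶠ z in l.ae, z.2 ≠ 0
  dil : Dil (l.map Prod.fst)
  ins : Ins H (l.map Prod.fst)

variable [hT : Fact (MG T)] [hH : Fact (MG H)]

omit hT hH in
lemma Abs.grid (hA : Abs T m) {ν : Mean F} (h1 : Dil ν) {η : ℝ} (hη : 0 < η) (M N n : ℕ) :
    ∃ b : Fin n → Fin N → F, (∀ j, gp b j ≠ 0) ∧ ∀ i j, toLex i < toLex j → gp b i ≠ gp b j ∧
      ∀ k ≤ M, ∀ e, (ν.prod (pw ν k)).P (fun p => ¬ Eqv T (e + (gp b i - gp b j) * p.1 + p.2)
        (e + (-gp b j * p.1 + p.2))) ≤ η := by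
  refine (exists_grid (G := {ε : F | ε ≠ 1 ∧ ∀ k ≤ M, ∀ e c, c ≠ 0 →
      (ν.prod (pw ν k)).P (fun p => ¬ Eqv T (e + (1 - ε) * c * p.1 + p.2)
        (e + (c * p.1 + p.2))) ≤ η}) (fun A hA' => ?_) N n).imp fun b ⟨h0, hb⟩ =>
    ⟨h0, fun i j h => ⟨fun e => (hb i j h).1 (e ▸ div_self (h0 i)), fun k hk e => ?_⟩⟩
  swap
  · convert (hb i j h).2 k hk e _ (neg_ne_zero.2 (h0 j)) using 7
    have := h0 j
    field_simp
    ring
  obtain ⟨h, k0, k1⟩ := ((hA.ne 0).and ((eventually_all_finite hA').2 fun x _ => (hA.ne x).and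
    ((eventually_all_finite (Set.finite_le_nat M)).2 fun k _ =>
    (eventually_all_finite (Set.toFinite ({0, 1} : Set F))).2 fun e _ => ae_P_le
    (hA (ν.prod (pw ν k)) (fun z => e + z.2) Prod.fst (-x)) hη))).exists
  refine ⟨h, k0, fun x hx => ⟨fun e => (k1 x hx).1 (eq_of_div_eq_one e).symm,
    fun k hk e c hc => ?_⟩⟩
  obtain ⟨u, hu, e', he, rfl⟩ : ∃ u, u ≠ 0 ∧ ∃ e' ∈ ({0, 1} : Set F), e = u * e' := by
    by_cases h : e = 0
    · exact ⟨1, one_ne_zero, 0, Or.inl rfl, by simp [h]⟩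
    · exact ⟨e, h, 1, Or.inr rfl, by simp⟩
  rw [← (h1.pw k u hu).right.P, ← (h1 _ (div_ne_zero (mul_ne_zero hu k0) hc)).left.P]
  refine (P_mono _ fun p k k' => k ((k'.mul_left u).of_eq ?_ ?_)).trans ((k1 x hx).2 k hk e' he) <;>
  · simp only [Prod.map_fst, Prod.map_snd, id]
    field_simp
    ring

theorem Tame.ins_lev [Infinite F] (d : Tame T H) (hΛ : Flip T Λ) (hA : Abs T m)
    {l : Mean (F × F)} (h : Lev T H l) : Ins T (l.map Prod.fst) := by
  classical
  obtain ⟨n, N, hN⟩ := d.ng1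
  have := hΛ.fin.fintype
  let M := Fintype.card (Fin n → Fin N)
  set ν := l.map Prod.fst
  refine d.ins_pw hΛ hA h.dil h.ins M fun x₀ => ?_
  refine ((pw ν M).P_mem _).1.eq_or_lt.elim Eq.symm fun hq => False.elim ?_
  replace hq : 0 < dd T (pw ν M) x₀ 0 := by simpa [dd] using hq
  let C : ℝ := Fintype.card ((Fin n → Fin N) × ((Fin n → Fin N) → Λ))
  obtain ⟨η, hη, e1⟩ : ∃ η : ℝ, 0 < η ∧ (M + 1) * (C * η) < dd T (pw ν M) x₀ 0 := by
    have h0 : 0 < (M + 1) * C + 1 := by positivity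
    refine ⟨dd T (pw ν M) x₀ 0 / ((M + 1) * C + 1), div_pos hq h0, ?_⟩
    rw [← mul_assoc, ← mul_div_assoc, div_lt_iff₀ h0]
    linarith
  obtain ⟨b, h0, hb⟩ := hA.grid h.dil hη M N n
  let Pr : F → (((Fin n → Fin N) → Λ) → F) → (Fin n → Fin N) → F → Prop := fun a c i r =>
    ∃ φ : Λ → F, (∀ β, Eqv T (a * gp b i + c β + r) (φ (β i))) ∧ ∃ l l', ¬ Eqv T (φ l) (φ l')
  have key : ∀ S : Finset (Fin n → Fin N), ∀ k, k + S.card = M → ∃ x y a c,
      (k + 1) * (C * η) < (pw ν k).P fun r => ¬ Eqv T (x + r) (y + r) ∧ ∀ i ∈ S, Pr a c i r := by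
    intro S
    refine Finset.induction_on_max_value (fun i => toLex i) S ?_ fun j S hj hS ih k hk => ?_
    · rintro _ rfl
      exact ⟨x₀, 0, 0, 0, e1.trans_le (P_mono _ fun r h => ⟨h, by simp⟩)⟩
    · obtain ⟨x, y, a, c, ih⟩ := ih (k + 1) (by rw [← hk, Finset.card_insert_of_notMem hj]; ring)
      have hb' := fun i (hi : i ∈ S) => hb i j ((hS i hi).lt_of_ne fun e =>
        hj (toLex.injective e ▸ hi))
      have k1 : (pw ν (k + 1)).P (fun r => ¬ Eqv T (x + r) (y + r) ∧ ∀ i ∈ S, Pr a c i r) =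
          (l.prod (pw ν k)).P fun p => ¬ Eqv T (x + (-gp b j * p.1.1 + p.2))
            (y + (-gp b j * p.1.1 + p.2)) ∧ ∀ i ∈ S, Pr a c i (-gp b j * p.1.1 + p.2) :=
        ((h.dil _ (neg_ne_zero.2 (h0 j))).left.P fun p => ¬ Eqv T (x + (p.1 + p.2))
          (y + (p.1 + p.2)) ∧ ∀ i ∈ S, Pr a c i (p.1 + p.2)).symm
      have k2 := (l.prod (pw ν k)).P_exists
        (fun (i : (Fin n → Fin N) × ((Fin n → Fin N) → Λ)) p => i.1 ∈ S ∧ ¬ Eqv T
          (a * gp b i.1 + c i.2 + (gp b i.1 - gp b j) * p.1.1 + p.2)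
          (a * gp b i.1 + c i.2 + (-gp b j * p.1.1 + p.2))) (c := η) fun i => by
          by_cases hi : i.1 ∈ S
          · exact (P_mono _ fun p => And.right).trans
              ((hb' _ hi).2 k (by omega) (a * gp b i.1 + c i.2))
          · exact (P_false _ fun p k => hi k.1).trans_le hη.le
      let New : (F × F) × F → Prop := fun p => ¬ Eqv T (x - gp b j * p.1.1 + p.2)
        (y - gp b j * p.1.1 + p.2) ∧ ∀ i ∈ insert j S,
          Pr (a + p.1.1) (fun β => c β - gp b j * p.1.1 + β j * p.1.2) i p.2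
      have k3 := (P_mono_ae (m := l.prod (pw ν k)) (A := fun p => ¬ Eqv T
          (x + (-gp b j * p.1.1 + p.2)) (y + (-gp b j * p.1.1 + p.2)) ∧
          ∀ i ∈ S, Pr a c i (-gp b j * p.1.1 + p.2)) (B := fun p => New p ∨
          ∃ i : (Fin n → Fin N) × ((Fin n → Fin N) → Λ), i.1 ∈ S ∧ ¬ Eqv T
          (a * gp b i.1 + c i.2 + (gp b i.1 - gp b j) * p.1.1 + p.2)
          (a * gp b i.1 + c i.2 + (-gp b j * p.1.1 + p.2))) ?_).trans
          (P_le_add _ fun _ => id)
      · obtain ⟨z, hz⟩ := l.exists_lt (f := fun z => (pw ν k).P fun r => New (z, r))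
          (c := (k + 1) * (C * η)) (fun z => (P_mem _ _).1) (by
            change _ < (l.prod (pw ν k)).P New
            push_cast at ih
            linarith)
        exact ⟨x - gp b j * z.1, y - gp b j * z.1, a + z.1,
          fun β => c β - gp b j * z.1 + β j * z.2, hz⟩
      filter_upwards [(eventually_all_finset S).2 fun i hi => eventually_all.2 fun β =>
        h.a1 (pw ν k) (a * gp b i + c β) _ (β j) (sub_ne_zero.2 (hb' i hi).1),
        eventually_all.2 fun β => h.a2 (pw ν k) (a * gp b j + c β) (β j)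
          fun e => hΛ.ne (e ▸ (β j).2),
        ae_bind (k := fun _ => pw ν k) (C := fun p => (∀ l ∈ Λ, Eqv T (l * p.1.2 + p.2)
          (p.1.2 + p.2)) → Eqv T (x - gp b j * p.1.1 + p.2) (y - gp b j * p.1.1 + p.2))
          (h.ne.mono fun z hz => ((hΛ.nc hA (h.dil.pw k) hz (x - gp b j * z.1)).and
            (hΛ.nc hA (h.dil.pw k) hz (y - gp b j * z.1))).mono fun r k h =>
            (k.1 h).trans (k.2 h).symm)] with p l1 l2 l3 ⟨l4, l5⟩
      refine or_iff_not_imp_right.2 fun l6 => ?_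
      have l7 : ¬ Eqv T (x - gp b j * p.1.1 + p.2) (y - gp b j * p.1.1 + p.2) := fun k =>
        l4 (k.of_eq (by ring) (by ring))
      refine ⟨l7, Finset.forall_mem_insert .. |>.2 ⟨⟨fun l => l * p.1.2 + p.2, fun β =>
        (l2 β).of_eq (by ring) rfl, ?_⟩, fun i hi => (l5 i hi).imp fun φ k => ⟨fun β => ?_, k.2⟩⟩⟩
      · by_contra k
        push Not at k
        exact l7 (l3 fun l hl => by simpa using k ⟨l, hl⟩ ⟨1, hΛ.one⟩)
      · exact ((l1 i hi β).of_eq (by ring) rfl).trans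
          ((not_not.1 fun k => l6 ⟨(i, β), hi, k⟩).trans (k.1 β))
  obtain ⟨x, y, a, c, k1⟩ := key Finset.univ 0 (zero_add _)
  obtain ⟨r, ⟨-, k2⟩, k3, k4⟩ := exists_of_pos (lt_of_le_of_lt (by positivity) k1)
    ((h.ins 1).and (eventually_all.2 fun i => eventually_all.2 fun β => h.ins (a * gp b i + c β)))
  choose φ k5 l l' k6 using fun i => k2 i (Finset.mem_univ i)
  obtain ⟨s, hs⟩ := hN b
  refine hs a (c (fun i => if i ∈ s then l' i else l i) + r) a (c l' + r) fun i => ?_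
  rw [← add_assoc, ← add_assoc]
  refine ⟨(k4 i _).ne ((k3.of_eq (add_comm _ _) rfl).ne_of_add one_ne_zero),
    (k4 i _).trans (k4 i _).symm, ((k5 i _).congr (k5 i _)).trans ?_⟩
  by_cases hi : i ∈ s <;> simp [hi, k6, Eqv.refl]

/-- Multiplication is continuous at zero. -/
theorem Tame.mul_cont [Infinite F] (d : Tame T H) :
    ∀ᶠ p : F × F in nb T ×ˢ nb T, 1 + p.1 * p.2 ∈ T := by
  by_contra hc
  obtain ⟨Λ, hΛ⟩ := d.flip
  obtain ⟨m, hm, hm'⟩ := exists_aff F
  have hA : Abs T m := d.abs hm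
  obtain ⟨U, h1, h2⟩ : ∃ U : Mean (F × F), (∀ a, ∀ᶠ z in U.ae, Eqv T (z.1 + a) z.1 ∧
      Eqv T (z.2 + a) z.2) ∧ ∀ᶠ z in U.ae, ¬ Eqv T (z.1 * z.2 + 1) (z.1 * z.2) := by
    have := frequently_iff_neBot.1 (not_eventually.1 hc)
    obtain ⟨U, hU⟩ := exists_ae_le ((nb T ×ˢ nb T) ⊓ 𝓟 {p : F × F | ¬ 1 + p.1 * p.2 ∈ T})
    have h1 : ∀ᶠ p in U.ae, 1 + p.1 * p.2 ∉ T := hU (mem_inf_of_right (mem_principal_self _))
    have h2 : ∀ {s s' : F}, 1 + s * s' ∉ T → s * s' ≠ 0 := fun h e =>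
      h (by simpa [e] using hT.1.one)
    refine ⟨U.map fun p => (p.1⁻¹, p.2⁻¹), fun a => Eventually.mono (f := U.ae) (h1.and
      (hU (mem_inf_of_left ((nb_ev a).prod_mk (nb_ev a))))) fun p k => ⟨⟨_, k.2.1, ?_⟩,
      ⟨_, k.2.2, ?_⟩⟩, Eventually.mono (f := U.ae) h1 fun p k k' => k ?_⟩
    · have := left_ne_zero_of_mul (h2 k.1)
      field_simp
    · have := right_ne_zero_of_mul (h2 k.1)
      field_simp
    · rw [← mul_inv, eqv_iff (inv_ne_zero (h2 k)), div_inv_eq_mul, add_mul,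
        inv_mul_cancel₀ (h2 k), one_mul] at k'
      exact k'
  have h3 : ∀ α β c, ∀ᶠ z in U.ae, Eqv T (z.1 + α + c) (z.1 + α) ∧ Eqv T (z.2 + β + c) (z.2 + β) :=
    fun α β c => by
      filter_upwards [h1 α, h1 β, h1 (α + c), h1 (β + c)] with z k1 k2 k3 k4
      rw [add_assoc, add_assoc]
      exact ⟨k3.1.trans k1.1.symm, k4.2.trans k2.2.symm⟩
  have h4 : ∀ {C : F × F × F × F → Prop}, (∀ α β, ∀ᶠ z in U.ae, C (α, β, z)) →
      ∀ᶠ p in (m.prod (m.prod U)).ae, C p := fun h =>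
    ae_bind (Eventually.of_forall fun α => ae_bind (Eventually.of_forall (h α)))
  have h5 := d.ins_lev hΛ hA (l := (m.prod (m.prod (m.prod U))).map fun p =>
    ((p.2.2.2.1 + p.2.1) * (p.2.2.2.2 + p.2.2.1) * p.1⁻¹, p.2.2.2.2 + p.2.2.1))
    ⟨fun κ e c b hc => ?_, fun κ e b hb => ?_, ?_, fun a ha f hf => ?_, fun x => ?_⟩ 1
  · replace h5 : ∀ᶠ p in (m.prod (m.prod (m.prod U))).ae, Eqv T (p.1 + (p.2.2.2.1 + p.2.1) *
        (p.2.2.2.2 + p.2.2.1)) ((p.2.2.2.1 + p.2.1) * (p.2.2.2.2 + p.2.2.1)) :=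
      Eventually.mono (Eventually.and (p := fun p : F × F × F × F × F => Eqv T
        (1 + (p.2.2.2.1 + p.2.1) * (p.2.2.2.2 + p.2.2.1) * p.1⁻¹)
        ((p.2.2.2.1 + p.2.1) * (p.2.2.2.2 + p.2.2.1) * p.1⁻¹)) h5 (ae_fst (hA.ne 0)))
        fun p k => (k.1.mul_left p.1).of_eq (by have := k.2; field_simp) (by have := k.2; field_simp)
    have h6 : ∀ᶠ p in (m.prod (m.prod U)).ae, Eqv T ((p.2.2.1 + p.1) * (p.2.2.2 + p.2.1) + 1)
        ((p.2.2.1 + p.1) * (p.2.2.2 + p.2.1)) := by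
      refine (ae_snd (k := m)).1 ?_
      filter_upwards [(eventually_all_finite hΛ.fin).2 fun l hl =>
        ((hm' l fun e => hΛ.ne (e ▸ hl)).left.ae h5).and (hA (m.prod (m.prod U))
        (fun p => (p.2.2.1 + p.1) * (p.2.2.2 + p.2.1)) (fun _ => l) l⁻¹)] with p hp
      refine hΛ.fl _ p.1 _ fun l hl => ((hp l hl).2.of_eq ?_ ?_).trans (hp l hl).1
      · rw [add_mul p.1, inv_mul_cancel₀ fun e => hΛ.ne (e ▸ hl)]
        ring
      · simp only [Prod.map_fst, Prod.map_snd, id]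
        ring
    have h7 : ∀ᶠ p in (m.prod (m.prod U)).ae, Eqv T ((p.2.2.1 + p.1) * p.2.2.2 + 1)
        ((p.2.2.1 + p.1) * p.2.2.2) := by
      filter_upwards [(eventually_all_finite hΛ.fin).2 fun l hl =>
        ((hm' l fun e => hΛ.ne (e ▸ hl)).left.right.ae h6).and
        (h4 (C := fun p => Eqv T (p.2.2.2 + l * p.2.1) p.2.2.2) fun α β =>
          (h1 (l * β)).mono fun _ k => k.2)] with p hp
      refine hΛ.fl _ ((p.2.2.1 + p.1) * p.2.1) _ fun l hl => ((hp l hl).1.of_eq ?_ rfl).trans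
        ((hp l hl).2.mul_left _)
      simp only [Prod.map_fst, Prod.map_snd, id]
      ring
    obtain ⟨p, k, hp⟩ := ((h4 (C := fun p => ¬ Eqv T (p.2.2.1 * p.2.2.2 + 1) (p.2.2.1 * p.2.2.2))
      fun _ _ => h2).and ((eventually_all_finite hΛ.fin).2 fun l hl =>
        ((hm' l fun e => hΛ.ne (e ▸ hl)).left.ae h7).and
        (h4 (C := fun p => Eqv T (p.2.2.1 + l * p.1) p.2.2.1) fun α β =>
          (h1 (l * α)).mono fun _ k => k.1))).exists
    refine k (hΛ.fl _ (p.1 * p.2.2.2) _ fun l hl => ((hp l hl).1.of_eq ?_ rfl).trans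
      ((hp l hl).2.mul (Eqv.refl _)))
    simp only [Prod.map_fst, Prod.map_snd, id]
    ring
  · refine ae_bind (m := m) (k := fun _ => m.prod ((m.prod U).prod κ)) (C := fun p => Eqv T
      (e + c * ((p.2.2.1.2.1 + p.2.1) * (p.2.2.1.2.2 + p.2.2.1.1) * p.1⁻¹) +
        b * (p.2.2.1.2.2 + p.2.2.1.1) + p.2.2.2)
      (e + c * ((p.2.2.1.2.1 + p.2.1) * (p.2.2.1.2.2 + p.2.2.1.1) * p.1⁻¹) + p.2.2.2))
      ((hA.ne 0).mono fun M hM => (hA ((m.prod U).prod κ)
      (fun z => e + c * z.1.2.1 * (z.1.2.2 + z.1.1) * M⁻¹ + z.2)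
      (fun z => c * (z.1.2.2 + z.1.1) * M⁻¹) (b * M / c)).mono fun p k => k.of_eq ?_ ?_)
    · field_simp
      ring
    · ring
  · refine ae_bind (m := m.prod m) (k := fun _ => m.prod (U.prod κ)) (C := fun p => Eqv T
      (e + b * (p.2.2.1.2 + p.2.1) + p.2.2.2) (b * (p.2.2.1.2 + p.2.1) + p.2.2.2))
      (Eventually.of_forall fun _ => (hA (U.prod κ) (fun z => b * z.1.2 + z.2) (fun _ => b)
      (e / b)).mono fun p k => k.of_eq ?_ ?_)
    · field_simp
      ring
    · ring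
  · exact ae_bind (m := m) (k := fun _ => m.prod (m.prod U))
      (C := fun p => p.2.2.2.2 + p.2.2.1 ≠ 0) (Eventually.of_forall fun _ =>
      h4 fun α β => (h3 α β 1).mono fun _ k => k.2.ne_of_add one_ne_zero)
  · refine Eq.trans (congrArg (m.prod (m.prod (m.prod U))).E (funext fun p => congrArg f ?_))
      ((hm' _ (inv_ne_zero ha)).left (fun p : F × F × F × F × F =>
        f ((p.2.2.2.1 + p.2.1) * (p.2.2.2.2 + p.2.2.1) * p.1⁻¹)) fun _ => hf _)
    simp only [Prod.map_fst, Prod.map_snd, id, mul_inv, inv_inv]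
    ring
  · refine ae_bind (m := m) (k := fun _ => m.prod (m.prod U)) (C := fun p => Eqv H
      (x + (p.2.2.2.1 + p.2.1) * (p.2.2.2.2 + p.2.2.1) * p.1⁻¹)
      ((p.2.2.2.1 + p.2.1) * (p.2.2.2.2 + p.2.2.1) * p.1⁻¹)) ((hA.ne 0).mono fun M hM => ?_)
    filter_upwards [h4 (C := fun p => (Eqv T (p.2.2.1 + p.1 + 1) (p.2.2.1 + p.1) ∧
      Eqv T (p.2.2.2 + p.2.1 + 1) (p.2.2.2 + p.2.1)) ∧ Eqv T (p.2.2.2 + p.2.1 + x * M)
      (p.2.2.2 + p.2.1)) fun α β => (h3 α β 1).and ((h3 α β (x * M)).mono fun _ k => k.2),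
      hA (m.prod U) (fun z => z.2.1 * (z.2.2 + z.1) + x * M) (fun z => z.2.2 + z.1) 1] with p k k'
    refine ((d.hd _ _ _ k.1.1 k.2 k.1.2 (k'.of_eq (by ring) (by ring))).mul_left M⁻¹).of_eq ?_
      (mul_comm _ _)
    field_simp
    ring

end Pool.Agent.MP_829a8f_lc.H56

end MrgPart5

-- marker of a merged file
example : 731051 + 448216 = 731051 + 448216 := rfl
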