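import Pool.Agent.MP_829a8f_lc.h56.Top

/-!
Valuation rings in `n`-dependent structures: the V-topology of a definable subgroup of finite index,
uniqueness of extensions, and the main theorems. Adapted from the files of helper33 for `n = 1`.
-/

namespace Pool.Agent.MP_829a8f_lc.H56

open H33

section

open Filter

variable {F : Type} [Field F]

/-- Two valuation rings of a finite family whose intersection is definable up to scaling are
never independent. -/
theorem no_indep (S : NS F) [Infinite F] {ι : Type} [Finite ι] (O : ι → ValuationSubring F)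
    (hO : ∀ i, O i ≠ ⊤) {D : Set F} (hD : S.U D) {a : F} (ha : a ≠ 0)
    (h1 : ∀ x, (∀ i, x ∈ O i) → a * x ∈ D) (h2 : ∀ x ∈ D, ∀ i, x ∈ O i) {l : ℕ} {ζ : F}
    (hζ : ζ ^ l = 1) (hζ1 : ζ ≠ 1) (hl : ∀ i, (l : F) ∉ (O i).nonunits)
    (hf : FI {x : F | x ≠ 0} (PW F l)) {i j : ι} (hij : ∀ z, ∃ w ∈ O i, z - w ∈ O j) : False := by
  classical
  have hl0 : l ≠ 0 := fun h => hl i (by simp [h])
  obtain ⟨π, hπ0, hπ⟩ : ∃ π : F, π ≠ 0 ∧ ∀ i, π ∈ (O i).nonunits := by
    choose x hx using fun i => exists_not_mem (hO i)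
    obtain ⟨w, k1, -, k2⟩ := Gauge.exists_den O (Set.finite_range x)
    exact ⟨w, k1, fun i => nu_of_mul (hx i) (mul_comm w _ ▸ k2 _ ⟨i, rfl⟩ i)⟩
  have hb0 := mul_ne_zero ha hπ0
  have hb : ∀ i, a * π ∈ (O i).nonunits := fun i =>
    nu_mul' (h2 _ (by simpa using h1 1 fun i => one_mem _) i) (hπ i)
  generalize hbe : a * π = b at hb0 hb
  let H : Set F := {x | ∀ i, (x - 1) / b ∈ O i}
  let T : Set F := {x | ∃ y ∈ H, x = y ^ l}
  have hH1 : ∀ x ∈ H, ∀ i, x - 1 ∈ (O i).nonunits := fun x hx i => by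
    simpa [hb0] using nu_mul' (hx i) (hb i)
  have hH2 : ∀ x ∈ H, ∀ i, x ∉ (O i).nonunits := fun x hx i => not_nu_of_sub one_nu (hH1 x hx i)
  have hH : MG H := by
    refine ⟨fun i => by simp, fun {x y} hx hy i => ?_, fun {x} hx i => ?_,
      fun hx => (not_nu.1 (hH2 _ hx i)).1⟩
    · convert add_mem (mul_mem (hx i) (add_mem (nu_le (hH1 y hy i)) (one_mem _))) (hy i) using 1
      ring
    · obtain ⟨k1, k2⟩ := not_nu.1 (hH2 _ hx i)
      convert neg_mem (mul_mem (hx i) k2) using 1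
      field_simp
      ring
  have hTH : T ⊆ H := by
    rintro _ ⟨y, hy, rfl⟩
    exact pow_mem (S := (⟨⟨H, hH.mul⟩, hH.one⟩ : Submonoid F)) hy l
  have hT : MG T := ⟨⟨1, hH.one, (one_pow l).symm⟩,
    fun ⟨x, hx, e⟩ ⟨y, hy, e'⟩ => ⟨x * y, hH.mul hx hy, by rw [e, e', mul_pow]⟩,
    fun ⟨x, hx, e⟩ => ⟨x⁻¹, hH.inv hx, by rw [e, inv_pow]⟩, fun h => hH.ne (hTH h)⟩
  have hroot : ∀ y, (∀ i, y - 1 ∈ (O i).nonunits) → y ^ l ∈ H → y ∈ H := by
    intro y hy h i
    obtain ⟨k1, k2⟩ := not_nu.1 (geom_unit (hl i) (hy i))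
    convert mul_mem (h i) k2 using 1
    rw [← geom_sum_mul]
    field_simp
  have hfi : FI H T := by
    obtain ⟨κ, _, χ, hχ⟩ := hf
    choose κ' hκ' χ' hχ' using fun i => exists_col (O i) hl0
    have hq : ∀ k, ∃ q : F, (∃ x ∈ H, χ x = k) → q ∈ H ∧ χ q = k := fun k => by
      by_cases h : ∃ x ∈ H, χ x = k
      · exact h.imp fun _ h _ => h
      · exact ⟨0, fun h' => absurd h' h⟩
    choose q hq using hq
    choose! y hy using fun x (hx : x ∈ H) =>
      (hχ x (hH.ne hx) _ (hH.ne (hq _ ⟨x, hx, rfl⟩).1) (hq _ ⟨x, hx, rfl⟩).2.symm).2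
    have hy' : ∀ x ∈ H, y x ^ l ∈ H := fun x hx => hy x hx ▸ hH.div hx (hq _ ⟨x, hx, rfl⟩).1
    refine ⟨κ × ∀ i, κ' i, inferInstance, fun x => (χ x, fun i => χ' i (y x)),
      fun x hx x' hx' e => ?_⟩
    obtain ⟨e1, e2⟩ := Prod.mk.inj e
    have e3 : x / x' = (y x / y x') ^ l := by
      rw [div_pow, ← hy x hx, ← hy x' hx', e1,
        div_div_div_cancel_right₀ (hH.ne (hq _ ⟨x', hx', rfl⟩).1)]
    refine ⟨_, hroot _ (fun i => ?_) (e3 ▸ hH.div hx hx'), e3⟩
    obtain ⟨k1, k2⟩ := not_nu.1 (hH2 _ (hy' x' hx') i)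
    rw [div_sub_one (ne_zero_pow hl0 k1), div_eq_mul_inv]
    exact nu_mul (hχ' i _ _ (hH1 _ (hy' x hx) i) (hH1 _ (hy' x' hx') i) (congrFun e2 i))
      (mem_of_pow hl0 (by rwa [inv_pow]))
  have hP : ∀ x ∈ H, x ∈ {x | ∃ y, (y - 1) / π ∈ D ∧ x = y ^ l} ↔ x ∈ T := by
    refine fun x hx => ⟨fun ⟨y, hy, e⟩ => ⟨y, hroot y (fun i => ?_) (e ▸ hx), e⟩,
      fun ⟨y, hy, e⟩ => ⟨y, ?_, e⟩⟩
    · simpa [hπ0] using nu_mul' (h2 _ hy i) (hπ i)
    · convert h1 _ hy using 1
      rw [← hbe]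
      field_simp
  have hPd : S.U {x | ∃ y, (y - 1) / π ∈ D ∧ x = y ^ l} :=
    NS.ex1 (P := fun v y => (y - 1) / π ∈ D ∧ v () = y ^ l) (S.and (hD.app
      (((NS.proj _).sub (NS.const _)).div (NS.const _))) (NS.eq (NS.proj _) ((NS.proj _).pow l)))
  have nd : ∃ᶠ z in nb T, z ≠ 0 := nondiscrete hH hfi fun G hG => by
    obtain ⟨w, k1, -, k2⟩ := Gauge.exists_den O hG
    refine ⟨b * w, mul_ne_zero hb0 k1, fun x hx i => ?_⟩
    convert k2 x hx i using 1
    field_simp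
    ring
  have hbO : ∀ {x}, (∀ i, x / b ∈ O i) → ∀ i, x ∈ O i := fun h i => by
    simpa [hb0] using mul_mem (h i) (nu_le (hb i))
  have he : ∀ {v c}, v ≠ 0 → (Eqv H (v + c) v ↔ ∀ i, c / v / b ∈ O i) := fun {v c} h0 => by
    rw [eqv_iff h0, add_div, div_self h0]
    simp only [H, Set.mem_ofPred_eq, add_sub_cancel_left]
  have he' : ∀ {x y}, Eqv T x y → Eqv H x y := fun h => h.imp fun _ k => ⟨hTH k.1, k.2⟩
  have := Fact.mk hH
  have d : Dat S T H := by
    refine ⟨hT, hH, ⟨hTH, hfi, hPd.ng hP, ⟨ι, ‹_›, fun δ => ⟨fun i w => δ ≠ 0 ∧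
      b * w / δ ∈ (O i).nonunits, fun w h => ?_, fun K => ?_⟩⟩, ⟨{π, 1 + π}, Set.toFinite _, ?_,
      fun w c h => ?_⟩, fun u y c k1 k2 k3 _ => ?_⟩,
      ⟨{z | 1 + z ∈ {x | ∃ y, (y - 1) / π ∈ D ∧ x = y ^ l} ∧
      z / b ∈ D}, S.and (hPd.app ((NS.const _).add (NS.proj _)))
      (hD.app ((NS.proj _).div (NS.const _))), ?_, fun z hz => (hP _ fun i => ?_).1 hz.1⟩, nd⟩
    · by_cases h0 : δ = 0
      · simpa [h0] using Eqv.refl w
      have k := fun i => not_nu.1 fun k => h i ⟨h0, k⟩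
      refine (he fun e => (k i).1 (by simp [e])).2 fun i => ?_
      convert (k i).2 using 1
      rw [inv_div, div_div, mul_comm]
    · let c : Fin K → F := fun a => Infinite.natEmbedding F a
      have hc : Function.Injective c := (Infinite.natEmbedding F).injective.comp Fin.val_injective
      obtain ⟨ρ, k1, -, k2⟩ := Gauge.exists_den O
        (Set.finite_range fun p : Fin K × Fin K => (c p.1 - c p.2)⁻¹)
      refine ⟨fun a => δ * c a / (b * ρ), fun i z a a' k k' => of_not_not fun e => ?_⟩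
      have k3 := sub_ne_zero.2 (hc.ne e)
      have k4 := k.1
      refine one_nu (O := O i) ?_
      convert nu_mul (sub_mem k.2 k'.2) (k2 _ ⟨(a, a'), rfl⟩ i) using 1
      field_simp
      ring
    · rintro (e | e)
      · exact hπ0 e.symm
      · exact one_nu (O := O i) (by simpa [eq_neg_of_add_eq_zero_right e.symm] using hπ i)
    · have k1 := he' (h _ (Or.inl rfl))
      have k2 : Eqv H (w + π + 1) (w + π) :=
        ((he' (h _ (Or.inr rfl))).trans k1.symm).of_eq (by ring) rfl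
      have k3 := k2.ne_of_add one_ne_zero
      refine Eqv.trans (((he (c := -π) k3).2 fun i => ?_).of_eq (by ring) rfl) k1
      convert neg_mem (mul_mem (nu_le (hπ i)) ((he k3).1 k2 i)) using 1
      ring
    · have k4 := k1.ne_of_add one_ne_zero
      have k5 := k3.ne_of_add one_ne_zero
      refine (he (mul_ne_zero k4 k5)).2 fun i => ?_
      convert mul_mem (hbO ((he k4).1 (he' k1)) i) ((he k5).1 (he' k2) i) using 1
      field_simp
    · filter_upwards [nb_ev 1, nb_ev a⁻¹] with z k1 k2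
      rw [one_mul] at k1
      refine ⟨(hP _ (hTH k1)).2 k1, ?_⟩
      convert h1 _ (hTH k2) using 1
      field_simp
      ring
    · simpa using h2 _ hz.2 i
  obtain ⟨V, -, hV, c, hc0, hc⟩ := d.gauge
  have k1 : ∀ i, ∀ x ∈ V, c / b * x ∈ O i := fun i x hx => by
    convert hTH (hc x hx) i using 1
    ring
  obtain ⟨z, k2, k3, k4⟩ := hV.exists_root (hO i) (hO j) (div_ne_zero hc0 hb0) (k1 i) (k1 j) hij
    hζ c⁻¹
  obtain ⟨y, hy, e⟩ := hc _ k2
  rw [mul_inv_cancel_left₀ hc0, add_sub_cancel] at e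
  obtain ⟨k5, k6⟩ := not_nu.1 (hH2 y hy i)
  have k7 : z / y = 1 := eq_one_of_nu (hl i) (by
    convert nu_mul (sub_mem k3 (hH1 y hy i)) k6 using 1
    field_simp
    ring) (by rw [div_pow, e, div_self (pow_ne_zero _ k5)])
  rw [div_eq_one_iff_eq k5] at k7
  exact hζ1 (eq_one_of_nu (hl j) (by simpa [k7] using sub_mem (hH1 y hy j) k4) hζ)

/-- The topology of a definable subgroup of finite index is a definable V-topology. -/
theorem exists_vgauge (S : NS F) [Infinite F] {T : Set F} (hT : MG T) (hP : S.U T)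
    (hf : FI {x : F | x ≠ 0} T) {q : F} (hq0 : q ≠ 0) (hq : q ∉ T)
    (hh : (∃ p : ℕ, p.Prime ∧ (p : F) = 0) ∨ ∃ (l : ℕ) (ζ : F), ζ ^ l = 1 ∧ ζ ≠ 1 ∧ (l : F) ≠ 0 ∧
      FI {x : F | x ≠ 0} (PW F l)) : ∃ V, S.U V ∧ Gauge V ∧
      (∃ c : F, c ≠ 0 ∧ ∀ x ∈ V, 1 + c * x ∈ T) ∧ ∃ g : F, g ≠ 0 ∧ ∀ x, x ∈ V ∨ g * x⁻¹ ∈ V := by
  have nd : ∃ᶠ z in nb T, z ≠ 0 := nondiscrete mg_ne hf fun G hG => by
    obtain ⟨w, hw⟩ := ((hG.image fun x => -x⁻¹).insert 0).exists_notMem
    refine ⟨w, fun h => hw (Or.inl h), fun x hx h => hw (Or.inr ⟨x, hx, ?_⟩)⟩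
    have h0 : x ≠ 0 := fun e => by simp [e] at h
    field_simp
    linear_combination -h
  have he : ∀ {x y : F}, x ≠ 0 → y ≠ 0 → Eqv {x | x ≠ 0} x y := fun h h' =>
    (eqv_iff h').2 (div_ne_zero h h')
  have := Fact.mk hT
  have d : Dat S T {x | x ≠ 0} := by
    refine ⟨hT, mg_ne, ⟨fun _ => hT.ne, hf, hP.ng (P := T) ?_, ⟨Bool, inferInstance, fun δ =>
      ⟨fun i w => w = cond i 0 (-δ), fun w h => he (fun e => h false
      (eq_neg_of_add_eq_zero_left e)) (h true), fun K => ⟨fun a => Infinite.natEmbedding F a,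
      fun i z a a' k k' => Fin.val_injective ((Infinite.natEmbedding F).injective
      (add_left_cancel (k.trans k'.symm)))⟩⟩⟩, ⟨{1, q}, Set.toFinite _, by simp [hq0.symm],
      fun w c h => ?_⟩, fun u y c k1 _ k3 k4 => he (k4.ne_of_add (k3.ne_of_add one_ne_zero))
      (mul_ne_zero (k1.ne_of_add one_ne_zero) (k3.ne_of_add one_ne_zero))⟩, ⟨{z | 1 + z ∈ T},
      hP.app ((NS.const _).add (NS.proj _)), (nb_ev 1).mono fun z h => by rwa [one_mul] at h,
      fun z h => h⟩, nd⟩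
    · exact fun _ _ => Iff.rfl
    · have k1 := h _ (Or.inl rfl)
      have k2 := h _ (Or.inr rfl)
      refine he (fun e => hq ?_) fun e => hq ?_
      · simpa [e, eqv_iff] using k2.trans k1.symm
      · rw [add_left_cancel ((k2.of_eq rfl e.symm).zero.trans (k1.of_eq rfl e.symm).zero.symm)]
        exact hT.one
  obtain ⟨V, h1, hV, h2⟩ := d.gauge
  refine ⟨V, h1, hV, h2, ?_⟩
  obtain ⟨u, hu⟩ := hV.exists_uf
  obtain ⟨ι, _, O, hO⟩ := hV.exists_places (u := u)
  refine (hV.dichotomy hu hO).resolve_right fun hI => ?_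
  have := Infinite.of_injective _ (H33.dg u).injective
  have h3 : H33.cl u id ≠ 0 := cl_ne.2 ((hu 0).mono fun t h => h.1)
  have h4 := (hV.small_iff hu hO (H33.cl u id)).1 fun h =>
    (hu h).mono fun t ht => (mul_comm t h ▸ ht.2 : h * t ∈ V)
  have h5 : ∀ x, (∀ i, x ∈ O i) → H33.cl u id * x ∈ st u V := fun x hx => by
    have h5 := (hV.small_iff hu hO _).2 (fun i => nu_mul (h4 i) (hx i)) 1
    rwa [map_one, one_mul] at h5
  have h6 : ∀ x ∈ st u V, ∀ i, x ∈ O i := fun x hx => (hO.mem _).1 (hV.st_mem hx)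
  rcases hh with ⟨p, hp, h0⟩ | ⟨l, ζ, hζ, hζ1, hl, hf'⟩
  · exact no_idem (S.up u) hp (by rw [← map_natCast (H33.dg u), h0, map_zero]) (h1.up u) h3 h5 h6 h3 h4
      hI
  obtain ⟨i, j, hij⟩ := hI.indep
  refine no_indep (S.up u) O (fun i h => not_nu.2 ⟨h3, h ▸ trivial⟩ (h4 i)) (h1.up u) h3
    h5 h6 (ζ := H33.dg u ζ)
    (by rw [← map_pow, hζ, map_one]) (fun h => hζ1 ((H33.dg u).injective (h.trans (map_one _).symm)))
    (fun i => ?_) (hf'.up u) hij
  rw [← map_natCast (H33.dg u)]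
  exact not_nu.2 ⟨(map_ne_zero _).2 hl, map_inv₀ (H33.dg u) _ ▸ (hO.mem _).1 (hV.dg_mem _) i⟩

lemma U_PW (S : NS F) (p : ℕ) : S.U (PW F p) := S.and (S.not (NS.eq (NS.proj _) (NS.const _)))
  (NS.ex1 (P := fun v y => v () = y ^ p) (NS.eq (NS.proj _) ((NS.proj _).pow p)))

end

section

open IsLocalRing

theorem exists_ext {K : Type} [Field K] (S : NS K) (L : Type) [Field L] [Algebra K L]
    [FiniteDimensional K L] : ∃ S' : NS L, (∀ D, S.U D → S'.U (algebraMap K L '' D)) ∧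
      ∀ D, S'.U D → S.U (algebraMap K L ⁻¹' D) := by
  let v := Module.finBasis K L
  have e1 : ∀ (w : Fin (Module.finrank K L) → K) (c : K),
      algebraMap K L c = v.equivFun.symm w ↔ ∀ i, c * v.repr 1 i = w i := by
    intro w c
    rw [LinearEquiv.eq_symm_apply, Algebra.algebraMap_eq_smul_one, map_smul, funext_iff]
    rfl
  let I : Interp S L (Fin (Module.finrank K L)) :=
    { X := fun _ => True
      π := v.equivFun.symm
      hX := NS.tru
      surj := fun y => ⟨v.equivFun y, trivial, v.equivFun.symm_apply_apply y⟩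
      add := NS.congr (NS.all fun i => NS.eq ((NS.proj (0, i)).add (NS.proj (1, i)))
        (NS.proj (2, i))) fun w => by
          rw [← map_add, v.equivFun.symm.injective.eq_iff, funext_iff]
          exact and_iff_right fun _ => trivial
      mul := NS.congr (NS.all fun k => NS.eq (NS.Fn.sum Finset.univ fun i => NS.Fn.sum Finset.univ
        fun j => ((NS.proj (0, i)).mul (NS.proj (1, j))).mul (NS.const (v.repr (v i * v j) k)))
        (NS.proj (2, k))) fun w => by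
          rw [LinearEquiv.eq_symm_apply, funext_iff, and_iff_right fun _ => trivial]
          simp [Finset.sum_mul_sum, mul_assoc, mul_left_comm] }
  refine ⟨I.ns, fun D hD => I.U_iff.2 (NS.congr (NS.ex1 (P := fun w c => c ∈ D ∧
    ∀ i, c * v.repr 1 i = w i) (S.and (hD.app (NS.proj _)) (NS.all fun i => NS.eq
      ((NS.proj _).mul (NS.const _)) (NS.proj _)))) fun w => ?_), fun D hD => NS.congr
      (NS.comp (g := fun i w => w () * v.repr 1 i) (I.U_iff.1 hD)
      fun i => (NS.proj _).mul (NS.const _)) fun w => ?_⟩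
  · exact (and_iff_right trivial).trans (exists_congr fun c => and_congr_right fun _ => e1 w c)
  · rw [Set.mem_preimage, (e1 _ _).2 fun _ => rfl]
    exact (and_iff_right trivial).symm

variable {L : Type} [Field L]

lemma NS.U.nu {S : NS L} {W : ValuationSubring L} (h : S.U W) : S.U W.nonunits :=
  NS.congr (NS.or (NS.eq (NS.proj ()) (NS.const 0)) (S.not (h.app (NS.proj ()).inv)))
    fun _ => W.mem_nonunits_iff_or

theorem exists_res (S : NS L) {W : ValuationSubring L} (hW : S.U W) :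
    ∃ S' : NS (ResidueField W), ∀ D, S.U D → S'.U {z | ∃ x : W, (x : L) ∈ D ∧ residue W x = z} := by
  classical
  let π : (Unit → L) → ResidueField W := fun w => if h : w () ∈ W then residue W ⟨_, h⟩ else 0
  have hπ : ∀ (w : Unit → L) (h : w () ∈ W), π w = residue W ⟨_, h⟩ := fun w h => dif_pos h
  let I : Interp S (ResidueField W) Unit :=
    { X := fun w => w () ∈ W
      π := π
      hX := hW
      surj := fun y => by
        obtain ⟨x, rfl⟩ := residue_surjective y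
        exact ⟨fun _ => x, x.2, hπ (fun _ => x) x.2⟩
      add := NS.congr (S.and (NS.all fun a => hW.app (NS.proj (a, ()))) (hW.nu.app
        (((NS.proj (0, ())).add (NS.proj (1, ()))).sub (NS.proj (2, ()))))) fun w =>
          and_congr_right fun h => by
            rw [hπ (fun i => w (0, i)) (h 0), hπ (fun i => w (1, i)) (h 1),
              hπ (fun i => w (2, i)) (h 2), ← map_add, res_eq]
            rfl
      mul := NS.congr (S.and (NS.all fun a => hW.app (NS.proj (a, ()))) (hW.nu.app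
        (((NS.proj (0, ())).mul (NS.proj (1, ()))).sub (NS.proj (2, ()))))) fun w =>
          and_congr_right fun h => by
            rw [hπ (fun i => w (0, i)) (h 0), hπ (fun i => w (1, i)) (h 1),
              hπ (fun i => w (2, i)) (h 2), ← map_mul, res_eq]
            rfl }
  refine ⟨I.ns, fun D hD => I.U_iff.2 ?_⟩
  have h1 : S.D fun w : Unit → L => w () ∈ W ∧ ∃ x, x ∈ W ∧ x ∈ D ∧ x - w () ∈ W.nonunits :=
    S.and hW (NS.ex1 (P := fun w x => x ∈ W ∧ x ∈ D ∧ x - w () ∈ W.nonunits)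
      (S.and (hW.app (NS.proj _)) (S.and (hD.app (NS.proj _))
      (hW.nu.app ((NS.proj _).sub (NS.proj _))))))
  refine NS.congr h1 fun w => and_congr_right fun h => ?_
  change π w ∈ _ ↔ _
  rw [hπ w h]
  constructor
  · rintro ⟨x, k1, k2⟩
    exact ⟨x, x.2, k1, res_eq.1 k2⟩
  · rintro ⟨x, k1, k2, k3⟩
    exact ⟨⟨x, k1⟩, k2, res_eq.2 k3⟩

theorem no_incomp (S : NS L) (O : Bool → ValuationSubring L) (hO : ∀ b, ¬ O (!b) ≤ O b)
    (R : Bool → Set L) (hR : ∀ b, S.U (R b)) {a : L} (ha : a ≠ 0) (h1 : ∀ b, ∀ x ∈ O b, x ∈ R b)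
    (h2 : ∀ b, ∀ x ∈ R b, a * x ∈ O b) (h3 : ∀ W, (∀ b, O b ≤ W) → a⁻¹ ∈ W) {l : ℕ} {ζ : L}
    (hζ : ζ ^ l = 1) (hζ1 : ζ ≠ 1) (hl : ∀ b, (l : L) ∉ (O b).nonunits)
    (hf : FI {x : L | x ≠ 0} (PW L l)) : False := by
  let W := sumV (O true) (O false)
  have hW : ∀ b, O b ≤ W := Bool.forall_bool.2
    ⟨fun x hx => ⟨0, zero_mem _, by simpa using hx⟩, fun x hx => ⟨x, hx, by simp⟩⟩
  have hl0 : l ≠ 0 := fun h => hl true (by simp [h])
  have h4 : ∀ b, ∀ x ∈ R b, x ∈ W := fun b x hx => by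
    simpa [ha] using mul_mem (h3 W hW) (hW b (h2 b x hx))
  have hWd : S.U W := NS.congr (NS.ex1 (P := fun v y => y ∈ R true ∧ v () - y ∈ R false)
    (S.and ((hR _).app (NS.proj _)) ((hR _).app ((NS.proj _).sub (NS.proj _))))) fun v =>
      ⟨fun ⟨w, k1, k2⟩ => ⟨w, h1 _ _ k1, h1 _ _ k2⟩, fun ⟨w, k1, k2⟩ => by
        simpa using add_mem (h4 _ _ k2) (h4 _ _ k1)⟩
  obtain ⟨S', hS'⟩ := exists_res S hWd
  have haW : a ∈ W := by simpa using hW _ (h2 true 1 (h1 _ _ (one_mem _)))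
  have hζW : ζ ∈ W := mem_of_pow hl0 (hζ ▸ one_mem W)
  have hlW : (l : L) ∉ W.nonunits :=
    mt (ValuationSubring.nonunits_le_nonunits.2 (hW true) ·) (hl true)
  have h5 : ∀ b, resV W (O b) (hW b) ≠ ⊤ := fun b e =>
    hO b fun x hx => (mem_resV (h := hW b) (x := ⟨x, hW _ hx⟩)).1 (by rw [e]; trivial)
  have := infinite_of_ne_top (h5 true)
  refine no_indep S' (fun b => resV W (O b) (hW b)) h5 (hS' {x | ∀ b, x / a ∈ R b}
    (NS.all fun b => (hR b).app ((NS.proj _).div (NS.const _)))) (a := residue W ⟨a, haW⟩)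
    (res_ne.2 (not_nu.2 ⟨ha, h3 W hW⟩)) (fun z hz => ?_) ?_ (ζ := residue W ⟨ζ, hζW⟩) ?_
    (fun e => ?_) (fun b => ?_) (hf.res hl0 W) (i := true) (j := false) fun z => ?_
  · obtain ⟨x, rfl⟩ := residue_surjective z
    exact ⟨⟨a, haW⟩ * x, fun b => by simpa [ha] using h1 b _ (mem_resV.1 (hz b)), map_mul _ _ _⟩
  · rintro _ ⟨x, hx, rfl⟩ b
    exact mem_resV.2 (by simpa [mul_div_cancel₀ _ ha] using h2 b _ (hx b))
  · rw [← map_pow, ← map_one (residue W)]
    exact congrArg _ (Subtype.ext hζ)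
  · exact hζ1 (eq_one_of_nu hlW (res_eq.1 (e.trans (map_one _).symm)) hζ)
  · obtain ⟨k1, k2⟩ := not_nu.1 (hl b)
    rw [← map_natCast (residue W)]
    refine not_nu.2 ⟨res_ne.2 (by simpa using hlW), ⟨_, hW b k2⟩, k2,
      eq_inv_of_mul_eq_one_left ?_⟩
    rw [← map_mul, ← map_one (residue W)]
    exact congrArg _ (Subtype.ext (by simpa using inv_mul_cancel₀ k1))
  · obtain ⟨x, rfl⟩ := residue_surjective z
    obtain ⟨w, k1, k2⟩ := x.2
    exact ⟨residue W ⟨w, hW _ k1⟩, mem_resV.2 k1, by rw [← map_sub]; exact mem_resV.2 k2⟩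

end

section

open IsLocalRing Polynomial Finset

variable {K L : Type} [Field K] [Field L] [Algebra K L] {O : ValuationSubring K}

theorem uniq_ext (S : NS K) [FiniteDimensional K L] {D : Set K} (hD : S.U D) {a : K} (ha : a ≠ 0)
    (h1 : ∀ x ∈ O, a * x ∈ D) (h2 : ∀ x ∈ D, x ∈ O) (rad : ∀ y ∈ O.nonunits, ∃ k, y ^ k / a ∈ O)
    {l : ℕ} {ζ : L} (hζ : ζ ^ l = 1) (hζ1 : ζ ≠ 1) (hl : (l : K) ∉ O.nonunits)
    (hf : FI {x : L | x ≠ 0} (PW L l)) {W₁ W₂ : ValuationSubring L}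
    (k₁ : W₁.comap (algebraMap K L) = O) (k₂ : W₂.comap (algebraMap K L) = O) : W₁ = W₂ := by
  classical
  by_contra hne
  obtain ⟨S', hS', -⟩ := exists_ext S L
  let ι := {W : ValuationSubring L // W.comap (algebraMap K L) = O}
  have : Finite ι := finite_over
  cases nonempty_fintype ι
  have ha' : algebraMap K L a ≠ 0 := (_root_.map_ne_zero _).2 ha
  have haO : a ∈ O := by simpa using h2 _ (h1 1 (one_mem O))
  generalize hA : algebraMap K L a = A at ha'
  have hAW : ∀ i : ι, A ∈ i.1 := fun i => hA ▸ (over_mem i.2).2 haO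
  have hinc : ∀ i j : ι, i ≠ j → ¬ i.1 ≤ j.1 := fun i j hij h =>
    hij (Subtype.ext (over_eq i.2 j.2 h))
  have hun : ∀ i j : ι, i ≠ j → ∀ W, i.1 ≤ W → j.1 ≤ W → A⁻¹ ∈ W := by
    intro i j hij W hi hj
    obtain ⟨x, hx, hx'⟩ := SetLike.not_le_iff_exists.1 (hinc i j hij)
    obtain ⟨N, c, hc, w, hw, e, -⟩ := exists_pow j.2 (Algebra.IsIntegral.isIntegral x⁻¹)
      (j.1.inv_mem_nonunits_iff.2 (Or.inr hx'))
    obtain ⟨k, hk⟩ := rad c hc
    have h0 : x ≠ 0 := fun h => hx' (h ▸ zero_mem _)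
    convert mul_mem (pow_mem (mul_mem (hj hw) (pow_mem (hi hx) N)) k)
      (hj ((over_mem j.2).2 hk)) using 1
    rw [map_div₀, map_pow, hA, mul_div_assoc', ← mul_pow, mul_right_comm, mul_comm w, ← e,
      ← mul_pow, inv_mul_cancel₀ h0, one_pow, one_pow, one_div]
  let n := Module.finrank K L
  let E : Set L := {x | ∃ c : Fin n → L, (∀ i, c i ∈ algebraMap K L '' D) ∧
    (A * x) ^ n + ∑ i, c i * (A * x) ^ (i : ℕ) = 0}
  have hE : S'.U E := NS.ex' (P := fun v (c : Fin n → L) => (∀ i, c i ∈ algebraMap K L '' D) ∧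
    (A * v ()) ^ n + ∑ i, c i * (A * v ()) ^ (i : ℕ) = 0) (S'.and
    (NS.all fun i => (hS' D hD).app (NS.proj _)) (NS.eq ((((NS.const _).mul (NS.proj _)).pow _).add
      (NS.Fn.sum _ fun i => (NS.proj _).mul (((NS.const _).mul (NS.proj _)).pow _))) (NS.const _)))
  have hE1 : ∀ x, (∀ i : ι, x ∈ i.1) → x ∈ E := by
    intro x hx
    have hi : IsIntegral O x := by
      by_contra h
      obtain ⟨W, k, k'⟩ := exists_over h
      exact k' (hx ⟨W, k⟩)
    have hd : (minpoly O x).natDegree ≤ n := by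
      rw [← (minpoly.monic hi).natDegree_map (algebraMap O K),
        ← minpoly.isIntegrallyClosed_eq_field_fractions' K hi]
      exact minpoly.natDegree_le x
    let p := minpoly O x * X ^ (n - (minpoly O x).natDegree)
    have hp : p.Monic := (minpoly.monic hi).mul (monic_X_pow _)
    have hpd : p.natDegree = n := by
      rw [(minpoly.monic hi).natDegree_mul (monic_X_pow _), natDegree_X_pow]
      omega
    have h3 : aeval x p = 0 := by simp [p]
    rw [aeval_eq_sum_range, sum_range_succ, hp.coeff_natDegree, hpd, sum_range, one_smul] at h3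
    refine ⟨fun i => algebraMap K L (a * (a ^ (n - i - 1) * p.coeff i)),
      fun i => ⟨_, h1 _ (mul_mem (pow_mem haO _) (p.coeff i).2), rfl⟩, ?_⟩
    rw [← mul_zero (A ^ n), ← h3, mul_add, mul_sum, add_comm, mul_pow]
    congr 1
    refine sum_congr rfl fun i _ => ?_
    have e : A ^ n = A * A ^ (n - i - 1) * A ^ (i : ℕ) := by
      rw [← pow_succ', ← pow_add]
      congr 1
      omega
    beta_reduce
    rw [e, map_mul, map_mul, map_pow, hA, Algebra.smul_def,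
      IsScalarTower.algebraMap_apply O K L, ValuationSubring.algebraMap_apply]
    ring
  have hE2 : ∀ x ∈ E, ∀ i : ι, A * x ∈ i.1 := by
    rintro x ⟨c, hc, e⟩ j
    by_contra h
    generalize A * x = y at e h
    have h0 : y ≠ 0 := fun e => h (e ▸ zero_mem _)
    have h3 := j.1.inv_mem_nonunits_iff.2 (Or.inr h)
    have h4 : ∑ i : Fin n, c i * (y⁻¹ ^ (n - i - 1) * y⁻¹) = -1 := by
      refine mul_left_cancel₀ (pow_ne_zero n h0) ?_
      rw [mul_neg, mul_one, neg_eq_of_add_eq_zero_right e, mul_sum]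
      refine sum_congr rfl fun i _ => ?_
      have e : y ^ n = y ^ (n - i - 1) * y * y ^ (i : ℕ) := by
        rw [← pow_succ, ← pow_add]
        congr 1
        omega
      rw [e, inv_pow]
      field_simp
    refine one_nu (O := j.1) (neg_mem_iff.1 (h4 ▸ sum_mem fun i _ => nu_mul' ?_
      (nu_mul' (pow_mem (nu_le h3) _) h3)))
    obtain ⟨d, hd, e⟩ := hc i
    exact e ▸ (over_mem j.2).2 (h2 d hd)
  choose e he using fun J : Set ι => approx (fun i : ι => i.1) (fun _ => A) (fun _ => ha') hAW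
    hinc (fun i j hij => hun i j hij _ le_sup_left le_sup_right)
    (fun i => if i ∈ J then 1 else 0) fun i => by split_ifs <;> simp
  have he' : ∀ J (i : ι), (e J - if i ∈ J then 1 else 0) / A ∈ i.1.nonunits := fun J i => by
    rw [ValuationSubring.mem_nonunits_iff, map_div₀, div_lt_one₀ (by simpa [zero_lt_iff])]
    exact he J i
  have he'' : ∀ J (i : ι), (e J - if i ∈ J then 1 else 0) ∈ i.1.nonunits := fun J i => by
    simpa [ha'] using nu_mul (he' J i) (hAW i)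
  let W : Bool → ι := fun b => cond b ⟨W₁, k₁⟩ ⟨W₂, k₂⟩
  have hW : ∀ b, W (!b) ≠ W b := Bool.forall_bool.2
    ⟨fun h => hne (congrArg Subtype.val h), fun h => hne (congrArg Subtype.val h).symm⟩
  refine no_incomp S' (fun b => (W b).1) (fun b => hinc _ _ (hW b))
    (fun b => {x | ∃ J : {J : Set ι // W b ∉ J}, 1 + e J * x ≠ 0 ∧ x / (1 + e J * x) ∈ E})
    (fun b => NS.any fun J => S'.and (S'.not (NS.eq ((NS.const _).add
      ((NS.const _).mul (NS.proj _))) (NS.const _))) (hE.app ((NS.proj _).div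
      ((NS.const _).add ((NS.const _).mul (NS.proj _)))))) ha' (fun b x hx => ?_) ?_
    (fun V hV => hun _ _ (hW true) V (hV _) (hV _)) hζ hζ1
    (fun b => by rwa [← map_natCast (algebraMap K L), over_nu (W b).2]) hf
  · have h3 : ∀ i : ι, x ∈ i.1 → 1 + e {i | x ∉ i.1} * x ∉ i.1.nonunits := fun i hi =>
      not_nu_of_sub one_nu (by simpa [hi] using nu_mul (he'' {i | x ∉ i.1} i) hi)
    refine ⟨⟨{i | x ∉ i.1}, not_not.2 hx⟩, (not_nu.1 (h3 _ hx)).1, hE1 _ fun i => ?_⟩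
    by_cases hi : x ∈ i.1
    · exact div_eq_mul_inv x _ ▸ mul_mem hi (not_nu.1 (h3 i hi)).2
    · have h0 : x ≠ 0 := fun e => hi (e ▸ zero_mem _)
      have h4 := (not_nu.1 (not_nu_of_sub (y := x⁻¹ + e {i | x ∉ i.1}) one_nu (by
        simpa [hi, add_sub_assoc] using add_mem (i.1.inv_mem_nonunits_iff.2 (Or.inr hi))
          (he'' {i | x ∉ i.1} i)))).2
      convert h4 using 1
      rw [← inv_div]
      congr 1
      field_simp
  · rintro b x ⟨⟨J, hJ⟩, h3, h4⟩
    have h5 := hE2 _ h4 (W b)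
    have h6 := nu_mul' h5 (he' J (W b))
    rw [if_neg hJ, sub_zero] at h6
    obtain ⟨h7, h8⟩ := not_nu.1 (not_nu_of_sub (y := 1 - A * (x / (1 + e J * x)) * (e J / A))
      one_nu (by simpa using neg_mem h6))
    convert mul_mem h5 h8 using 1
    rw [eq_mul_inv_iff_mul_eq₀ h7]
    simp only [mul_comm _ x] at h3 ⊢
    field_simp
    ring

end

open FirstOrder FirstOrder.Ring Finset IntermediateField

/-- The structure of definable sets of an `n`-dependent field. -/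
def nsOf {n : ℕ} {K : Type} [Field K] (h : NIPn n K) : NS K where
  n := n
  D P := ∀ [CompatibleRing K], Df P
  re f _ hP := Set.Definable.preimage_comp f hP
  not hP := Set.Definable.compl hP
  and hP hQ := Df.and hP hQ
  ex {α β} _ _ P hP := Df.ex (P := fun v u => P (Sum.elim v u)) (Df.congr hP fun w =>
    iff_of_eq (congrArg P (Sum.elim_comp_inl_inr w)))
  add := Df.eq ((Fn.proj 0).add (Fn.proj 1)) (Fn.proj 2)
  mul := Df.eq ((Fn.proj 0).mul (Fn.proj 1)) (Fn.proj 2)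
  cst c := Df.eq (Fn.proj 0) (Fn.const c)
  nip {α β} _ _ P hP := by
    let _ := compatibleRingOfRing K
    obtain ⟨N, hN⟩ := exists_not_pattern h (μ := α ⊕ β)
      (fun b y => P (Sum.elim (fun a => b (Sum.inl a)) fun c => y c.1 (Sum.inr c.2)))
      (Df.congr (Set.Definable.preimage_comp (Sum.elim (fun a => (0, Sum.inl a))
        fun c : Fin n × β => (c.1.succ, Sum.inr c.2)) hP) fun v => iff_of_eq (congrArg P (by
          funext c
          cases c <;> rfl)))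
    exact ⟨N, fun ⟨a, b, hab⟩ => hN ⟨fun r j => Sum.elim 0 (a r j),
      fun s => Sum.elim (b s) 0, hab⟩⟩

variable {n : ℕ} {K : Type} [Field K]

/-- A definable subgroup of finite index gives a valuation ring that is definable up to scaling. -/
theorem exists_sandwich (S : NS K) (L : Type) [Field L] [Algebra K L] [FiniteDimensional K L]
    [Infinite L] {T : Set L} (hT : MG T) (hP : ∀ S : NS L, S.U T) (hf : FI {x : L | x ≠ 0} T)
    {q : L} (hq0 : q ≠ 0) (hq : q ∉ T) (hh : (∃ p : ℕ, p.Prime ∧ (p : L) = 0) ∨ -1 ∈ T ∧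
      ∃ (l : ℕ) (ζ : L), ζ ^ l = 1 ∧ ζ ≠ 1 ∧ (l : L) ≠ 0 ∧ FI {x : L | x ≠ 0} (PW L l)) :
    ∃ (O : ValuationSubring K) (D : Set K) (π : K), S.U D ∧ π ≠ 0 ∧ π ∈ O.nonunits ∧
      (∀ x ∈ O, π * x ∈ D) ∧ ∀ x ∈ D, x ∈ O := by
  obtain ⟨S', -, hS'⟩ := exists_ext S L
  obtain ⟨V, h1, hV, h2, h3⟩ := exists_vgauge S' hT (hP S') hf hq0 hq (hh.imp_right And.right)
  obtain ⟨W, h4, h5, t, ht, h6⟩ := hV.exists_val h3 hT h2
    (hh.symm.imp And.left fun ⟨p, hp, e⟩ => ⟨p, hp.ne_zero, e⟩) hq0 hq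
  obtain ⟨x, hx⟩ := exists_not_mem h4
  have h0 : x⁻¹ ≠ 0 := inv_ne_zero fun e => hx (e ▸ zero_mem W)
  have h7 := W.inv_mem_nonunits_iff.2 (Or.inr hx)
  have h8 : t ∈ W := h5 _ (by simpa using h6 1 (one_mem W))
  obtain ⟨N, c, hc, w, hw, e, hw'⟩ := exists_pow (K := K) rfl
    (Algebra.IsIntegral.isIntegral (t * x⁻¹)) (nu_mul' h8 h7)
  have h9 := e ▸ pow_ne_zero N (mul_ne_zero ht h0)
  refine ⟨_, _, c, hS' V h1, fun h => h9 (by simp [h]), hc, fun y hy => ?_,
    fun y hy => h5 _ hy⟩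
  cases N with
  | zero => exact absurd (e ▸ nu_mul ((over_nu rfl).2 hc) hw) (by simpa using one_nu)
  | succ N =>
    have := h6 _ (mul_mem (mul_mem (mul_mem (pow_mem (mul_mem h8 (nu_le h7)) N) (nu_le h7)) hw') hy)
    rw [Set.mem_preimage, map_mul, (eq_mul_inv_iff_mul_eq₀ (right_ne_zero_of_mul h9)).2 e.symm]
    convert this using 1
    ring

/-- A valuation ring that is definable up to scaling has a henselian coarsening. -/
theorem henselian_of_sandwich (S : NS K) {l l' : ℕ} (hl : l.Prime) (hl' : l'.Prime) (hne : l ≠ l')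
    (hf : ∀ (L : Type) [Field L] [Algebra K L] [FiniteDimensional K L] [Algebra.IsSeparable K L],
      ((l : K) ≠ 0 → FI {x : L | x ≠ 0} (PW L l)) ∧ ((l' : K) ≠ 0 → FI {x : L | x ≠ 0} (PW L l')))
    {O : ValuationSubring K} {D : Set K} {π : K} (hD : S.U D) (h0 : π ≠ 0) (h1 : π ∈ O.nonunits)
    (h2 : ∀ x ∈ O, π * x ∈ D) (h3 : ∀ x ∈ D, x ∈ O) :
    ∃ R : ValuationSubring K, R ≠ ⊤ ∧ HenselianLocalRing R := by
  have hπ := nu_le h1
  have k1 : O ≤ coarse O hπ := fun x hx k => mul_mem (pow_mem hx k) hπ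
  have k2 : π⁻¹ ∉ coarse O hπ := fun h => not_nu.2 ⟨h0, by simpa [pow_two, h0] using h 2⟩ h1
  have k3 : coarse O hπ ≠ ⊤ := fun h => k2 (h ▸ trivial)
  have k4 : ∀ y ∈ (coarse O hπ).nonunits, ∃ k, y ^ k / (π * π) ∈ coarse O hπ := by
    intro y hy
    rcases (coarse O hπ).mem_nonunits_iff_or.1 hy with h | h
    · exact ⟨1, by simp [h]⟩
    · obtain ⟨k, hk⟩ := not_forall.1 h
      have h4 : y ^ k / π ∈ O := by
        simpa [div_eq_inv_mul] using (O.mem_or_inv_mem _).resolve_left hk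
      exact ⟨k + k, k1 (by rw [pow_add, ← div_mul_div_comm]; exact mul_mem h4 h4)⟩
  have k5 : ∀ x ∈ coarse O hπ, π * π * x ∈ D := fun x hx => by
    rw [mul_assoc]
    exact h2 _ (by simpa [mul_comm] using hx 1)
  generalize coarse O hπ = R at *
  obtain ⟨r, hr, k6, k7⟩ : ∃ r : ℕ, r.Prime ∧ (r : K) ∉ R.nonunits ∧ ∀ (L : Type) [Field L]
      [Algebra K L] [FiniteDimensional K L] [Algebra.IsSeparable K L],
      FI {x : L | x ≠ 0} (PW L r) := by
    by_cases h : (l : K) ∈ R.nonunits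
    · have h' : (l' : K) ∉ R.nonunits := fun h' => by
        obtain ⟨a, b, e⟩ := Nat.Coprime.isCoprime ((Nat.coprime_primes hl hl').2 hne)
        have e' := congrArg (Int.cast : ℤ → K) e
        push_cast at e'
        exact one_nu (e' ▸ add_mem (nu_mul' (intCast_mem R a) h) (nu_mul' (intCast_mem R b) h'))
      exact ⟨l', hl', h', fun L _ _ _ _ => (hf L).2 (not_nu.1 h').1⟩
    · exact ⟨l, hl, h, fun L _ _ _ _ => (hf L).1 (not_nu.1 h).1⟩
  refine ⟨R, k3, henselian_of_uniq k3 fun x hx W W' hW hW' h => ?_⟩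
  have := NeZero.mk (not_nu.1 k6).1
  obtain ⟨ζ, hζ⟩ := HasEnoughRootsOfUnity.exists_primitiveRoot (AlgebraicClosure K) r
  have : FiniteDimensional K (adjoin K {x, ζ}) :=
    finiteDimensional_adjoin fun z _ => Algebra.IsIntegral.isIntegral z
  have : Algebra.IsSeparable K (adjoin K {x, ζ}) := (isSeparable_adjoin_iff_isSeparable K _).2 (by
    rintro _ (rfl | rfl)
    exacts [hx, sep_of_pow (c := 1) (not_nu.1 k6).1 one_ne_zero (by simpa using hζ.pow_eq_one)])
  have h4 := uniq_ext S hD (mul_ne_zero h0 h0) k5 (fun x hx => k1 (h3 x hx)) k4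
    (ζ := (⟨ζ, subset_adjoin K _ (Or.inr rfl)⟩ : adjoin K {x, ζ})) (Subtype.ext hζ.pow_eq_one)
    (fun e => hζ.ne_one hr.one_lt (congrArg Subtype.val e)) k6 (k7 _)
    (W₁ := W.comap (algebraMap _ _)) (W₂ := W'.comap (algebraMap _ _)) hW hW'
  exact (SetLike.ext_iff.1 h4 ⟨x, subset_adjoin K _ (Or.inl rfl)⟩).1 h

theorem henselian_of_subgroup (hK : NIPn n K) [Infinite K] (L : Type) [Field L] [Algebra K L]
    [FiniteDimensional K L] (T : Subgroup Lˣ) (hf : T.FiniteIndex) (hT : T ≠ ⊤)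
    (hP : ∀ S : NS L, S.U (Units.val '' T))
    (h : ringChar K ≠ 0 ∨ -1 ∈ T ∧ ∃ l l' : ℕ, l.Prime ∧ l'.Prime ∧ l ≠ l' ∧
      (∃ ζ : L, ζ ^ l = 1 ∧ ζ ≠ 1) ∧
      ∀ (M : Type) [Field M] [Algebra K M] [FiniteDimensional K M],
        (powMonoidHom l : Mˣ →* Mˣ).range.FiniteIndex ∧
        (powMonoidHom l' : Mˣ →* Mˣ).range.FiniteIndex) :
    ∃ R : ValuationSubring K, R ≠ ⊤ ∧ HenselianLocalRing R := by
  have := Infinite.of_injective _ (algebraMap K L).injective
  obtain ⟨q, hq⟩ := not_forall.1 (mt (Subgroup.eq_top_iff' T).2 hT)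
  have hM : MG (Units.val '' (T : Set Lˣ)) := ⟨⟨1, T.one_mem, rfl⟩,
    fun ⟨x, hx, e⟩ ⟨y, hy, e'⟩ => ⟨x * y, T.mul_mem hx hy, by rw [← e, ← e', Units.val_mul]⟩,
    fun ⟨x, hx, e⟩ => ⟨x⁻¹, T.inv_mem hx, by rw [← e, Units.val_inv_eq_inv_val]⟩,
    fun ⟨x, _, e⟩ => e ▸ x.ne_zero⟩
  have key := exists_sandwich (nsOf hK) L hM hP (fi_of_subgroup hf) q.ne_zero
    fun ⟨x, hx, e⟩ => hq (Units.val_injective e ▸ hx)
  by_cases h0 : ringChar K = 0
  · obtain ⟨hn, l, l', hl, hl', hne, ⟨ζ, hζ, hζ1⟩, h⟩ := h.resolve_left (not_not.2 h0)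
    have := (CharP.ringChar_zero_iff_CharZero K).1 h0
    have : CharZero L := charZero_of_injective_algebraMap (algebraMap K L).injective
    obtain ⟨O, D, π, h1, h2, h3, h4, h5⟩ := key (Or.inr ⟨⟨-1, hn, by simp⟩, l, ζ, hζ, hζ1,
      Nat.cast_ne_zero.2 hl.ne_zero, fi_of_index hl (h L).1⟩)
    exact henselian_of_sandwich (nsOf hK) hl hl' hne (fun L _ _ _ _ =>
      ⟨fun _ => fi_of_index hl (h L).1, fun _ => fi_of_index hl' (h L).2⟩) h1 h2 h3 h4 h5
  · have := Fact.mk ((CharP.char_is_prime_or_zero K (ringChar K)).resolve_right h0)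
    obtain ⟨O, D, π, h1, h2, h3, h4, h5⟩ := key (Or.inl ⟨ringChar K, this.1, by
      rw [← map_natCast (algebraMap K L), ringChar.Nat.cast_ringChar, map_zero]⟩)
    obtain ⟨R, -, hR⟩ := henselian_of_definable (ringChar K) hK h2 (O.mem_nonunits_iff.1 h3)
      (X := D) (fun {_ α _ f} hf => Df.congr (Df.ex (P := fun v (u : Unit → K) => f v = u () ∧
        u () ∈ D) (Df.and (Df.eq hf.inl (Fn.proj _)) (Set.Definable.preimage_comp Sum.inr h1)))
        fun v => ⟨fun h => ⟨fun _ => f v, rfl, h⟩, fun ⟨u, e, h⟩ => e ▸ h⟩)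
      (fun x hx => by rw [pow_two, mul_assoc]; exact h4 _ (mul_mem (nu_le h3) hx)) h5
    exact ⟨R, hR⟩

theorem shelah_of_finite_index (hK : NIPn n K)
    (h : ∀ (L : Type) [Field L] [Algebra K L] [FiniteDimensional K L] [Algebra.IsSeparable K L]
      (l : ℕ), l.Prime → (l : K) ≠ 0 → (powMonoidHom l : Lˣ →* Lˣ).range.FiniteIndex) :
    Finite K ∨ IsSepClosed K ∨ Module.finrank K (AlgebraicClosure K) = 2 ∨
      ∃ R : ValuationSubring K, R ≠ ⊤ ∧ HenselianLocalRing R := by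
  refine or_iff_not_imp_left.2 fun h1 => or_iff_not_imp_left.2 fun h2 =>
    or_iff_not_imp_left.2 fun h3 => ?_
  have := not_finite_iff_infinite.1 h1
  obtain ⟨L, _, _, _, _, ⟨p, hp, ⟨h4, c, hc⟩ | ⟨h4, ζ, q, hζ, hζ1, -, hq⟩⟩, i, hi⟩ :=
    exists_obst' K h2 h3
  · have := Infinite.of_injective _ (algebraMap K L).injective
    obtain ⟨S, -⟩ := exists_ext (nsOf hK) L
    exact absurd (as_closed S hp h4 c) (not_exists.2 hc)
  have h5 : q ≠ 0 := fun e => hq 0 (by rw [e, zero_pow hp.ne_zero])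
  refine henselian_of_subgroup hK L _ (h L p hp fun e => h4 (by
    rw [← map_natCast (algebraMap K L), e, map_zero])) (fun e => ?_)
    (fun S => pw_eq (L := L) hp.ne_zero ▸ U_PW S p) (or_iff_not_imp_left.2 fun e => ⟨?_, ?_⟩)
  · obtain ⟨x, hx⟩ : Units.mk0 q h5 ∈ (powMonoidHom p : Lˣ →* Lˣ).range := e ▸ trivial
    exact hq x (by simpa using (congrArg Units.val hx).symm)
  · rcases hp.eq_two_or_odd' with rfl | e
    · exact ⟨Units.mk0 i fun e => by simp [e] at hi, Units.ext (by simpa using hi)⟩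
    · exact ⟨-1, e.neg_one_pow⟩
  · have := (CharP.ringChar_zero_iff_CharZero K).1 (not_not.1 e)
    obtain ⟨r, hr, hr'⟩ := Nat.exists_infinite_primes (p + 1)
    exact ⟨p, r, hp, hr', by omega, ⟨ζ, hζ, hζ1⟩, fun M _ _ _ =>
      ⟨h M p hp (Nat.cast_ne_zero.2 hp.ne_zero), h M r hr' (Nat.cast_ne_zero.2 hr'.ne_zero)⟩⟩

end Pool.Agent.MP_829a8f_lc.H56
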