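import Pool.Agent.MP_829a8f_lc.h56.Mul

-- ======== part 0: formerly Pool.Agent.MP_829a8f_lc.h56.Struct
section MrgPart0

/-!
Abstract `n`-dependent structures on a field: a class of predicates closed under the first-order
operations, containing the graphs of the field operations, and without shattering of grids.
Adapted from the files of helper33 for the case `n = 1`.
-/

namespace Pool.Agent.MP_829a8f_lc.H56

open H33

/-- A class of definable predicates on a field without the `n`-independence property. -/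
structure NS (F : Type) [Field F] where
  n : ℕ
  D : ∀ {α : Type}, ((α → F) → Prop) → Prop
  re : ∀ {α β : Type} [Finite α] [Finite β] (f : α → β) {P : (α → F) → Prop},
    D P → D fun v : β → F => P fun a => v (f a)
  not : ∀ {α : Type} [Finite α] {P : (α → F) → Prop}, D P → D fun v => ¬ P v
  and : ∀ {α : Type} [Finite α] {P Q : (α → F) → Prop}, D P → D Q → D fun v => P v ∧ Q v
  ex : ∀ {α β : Type} [Finite α] [Finite β] {P : (α ⊕ β → F) → Prop},
    D P → D fun v : α → F => ∃ u : β → F, P (Sum.elim v u)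
  add : D fun v : Fin 3 → F => v 0 + v 1 = v 2
  mul : D fun v : Fin 3 → F => v 0 * v 1 = v 2
  cst : ∀ c : F, D fun v : Fin 1 → F => v 0 = c
  nip : ∀ {α β : Type} [Finite α] [Finite β] {P : (α ⊕ Fin n × β → F) → Prop}, D P →
    ∃ N : ℕ, ¬ ∃ (a : Fin n → Fin N → β → F) (b : Set (Fin n → Fin N) → α → F),
      ∀ s j, P (Sum.elim (b s) fun p => a p.1 (j p.1) p.2) ↔ j ∈ s

namespace NS

variable {F : Type} [Field F] {S : NS F} {α β : Type} [Finite α] [Finite β]
  {P Q : (α → F) → Prop} {f g : (α → F) → F}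

omit [Finite α] in
lemma congr (hP : S.D P) (h : ∀ v, Q v ↔ P v) : S.D Q := by
  rwa [show Q = P from funext fun v => propext (h v)]

lemma or (hP : S.D P) (hQ : S.D Q) : S.D fun v => P v ∨ Q v :=
  congr (S.not (S.and (S.not hP) (S.not hQ))) fun v => by tauto

lemma imp (hP : S.D P) (hQ : S.D Q) : S.D fun v => P v → Q v :=
  congr (or (S.not hP) hQ) fun v => by tauto

lemma tru : S.D fun _ : α → F => True :=
  congr (S.ex (α := α) (β := Fin 1) (S.re Sum.inr (S.cst 0))) fun v => by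
    simp only [Sum.elim_inr, true_iff]
    exact ⟨fun _ => 0, rfl⟩

lemma all {ι : Type} [Finite ι] {P : ι → (α → F) → Prop} (h : ∀ i, S.D (P i)) :
    S.D fun v => ∀ i, P i v := by
  induction ι using Finite.induction_empty_option with
  | of_equiv e ih => exact congr (ih fun i => h (e i)) fun v => e.forall_congr_right.symm
  | h_empty => exact congr tru fun v => by simp
  | h_option ih => exact congr (S.and (h none) (ih fun i => h (some i))) fun v => Option.forall

lemma any {ι : Type} [Finite ι] {P : ι → (α → F) → Prop} (h : ∀ i, S.D (P i)) :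
    S.D fun v => ∃ i, P i v :=
  congr (S.not (all fun i => S.not (h i))) fun v => by simp

lemma ex' {P : (α → F) → (β → F) → Prop}
    (h : S.D fun w : α ⊕ β → F => P (fun a => w (Sum.inl a)) fun b => w (Sum.inr b)) :
    S.D fun v => ∃ u, P v u := S.ex h

lemma ex1 {P : (α → F) → F → Prop}
    (h : S.D fun w : Option α → F => P (fun a => w (some a)) (w none)) :
    S.D fun v => ∃ x, P v x :=
  congr (ex' (β := Unit) (P := fun v u => P v (u ()))
    (S.re (fun o : Option α => o.elim (Sum.inr ()) Sum.inl) h))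
    fun _ => ⟨fun ⟨x, hx⟩ => ⟨fun _ => x, hx⟩, fun ⟨u, hu⟩ => ⟨u (), hu⟩⟩

lemma all1 {P : (α → F) → F → Prop}
    (h : S.D fun w : Option α → F => P (fun a => w (some a)) (w none)) :
    S.D fun v => ∀ x, P v x :=
  congr (S.not (ex1 (P := fun v x => ¬ P v x) (S.not h))) fun v => by simp

variable (S) in
/-- Definable functions. -/
def Fn (f : (α → F) → F) : Prop := S.D fun w : Option α → F => f (fun a => w (some a)) = w none

lemma eqv (i j : α) : S.D fun v : α → F => v i = v j := by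
  have h : S.D fun v : α → F => ∃ x, x = 0 ∧ v i + x = v j :=
    ex1 (S.and (S.re (fun _ => none) (S.cst 0)) (S.re ![some i, none, some j] S.add))
  exact congr h fun v => by simp

lemma proj (i : α) : S.Fn fun v : α → F => v i := eqv (some i) none

lemma const (c : F) : S.Fn fun _ : α → F => c :=
  congr (S.re (fun _ => none) (S.cst c)) fun _ => eq_comm

lemma Fn.re (r : α → β) (hf : S.Fn f) : S.Fn fun v : β → F => f fun a => v (r a) :=
  S.re (Option.map r) hf

lemma comp {P : (β → F) → Prop} {g : β → (α → F) → F} (hP : S.D P) (hg : ∀ b, S.Fn (g b)) :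
    S.D fun v => P fun b => g b v := by
  have h : S.D fun v => ∃ u : β → F, (∀ b, g b v = u b) ∧ P u :=
    ex' (S.and (all fun b => S.re (fun o : Option α => o.elim (Sum.inr b) Sum.inl) (hg b))
      (S.re Sum.inr hP))
  exact congr h fun v => ⟨fun h => ⟨_, fun _ => rfl, h⟩, fun ⟨u, hu, h⟩ => by
    rwa [show (fun b => g b v) = u from funext hu]⟩

lemma Fn.some (hf : S.Fn f) : S.Fn fun w : Option α → F => f fun a => w (some a) := hf.re _

lemma Fn.inl (hf : S.Fn f) : S.Fn fun w : α ⊕ β → F => f fun a => w (Sum.inl a) := hf.re _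

lemma Fn.add (hf : S.Fn f) (hg : S.Fn g) : S.Fn fun v => f v + g v :=
  comp (g := ![fun w => f fun a => w (Option.some a), fun w => g fun a => w (Option.some a), fun w => w none])
    S.add (Fin.forall_fin_succ.2 ⟨hf.some, Fin.forall_fin_two.2 ⟨hg.some, proj _⟩⟩)

lemma Fn.mul (hf : S.Fn f) (hg : S.Fn g) : S.Fn fun v => f v * g v :=
  comp (g := ![fun w => f fun a => w (Option.some a), fun w => g fun a => w (Option.some a), fun w => w none])
    S.mul (Fin.forall_fin_succ.2 ⟨hf.some, Fin.forall_fin_two.2 ⟨hg.some, proj _⟩⟩)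

lemma eq (hf : S.Fn f) (hg : S.Fn g) : S.D fun v => f v = g v :=
  comp (g := ![f, g]) (eqv 0 1) (Fin.forall_fin_two.2 ⟨hf, hg⟩)

lemma Fn.neg (hf : S.Fn f) : S.Fn fun v => -f v :=
  congr (eq (hf.some.add (proj none)) (const 0)) fun _ => neg_eq_iff_add_eq_zero

lemma Fn.sub (hf : S.Fn f) (hg : S.Fn g) : S.Fn fun v => f v - g v := by
  simpa only [sub_eq_add_neg] using hf.add hg.neg

lemma Fn.inv (hf : S.Fn f) : S.Fn fun v => (f v)⁻¹ := by
  refine congr (or (S.and (eq hf.some (const 0)) (eq (proj none) (const 0)))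
    (eq (hf.some.mul (proj none)) (const 1))) fun w => ?_
  by_cases h0 : f (fun a => w (Option.some a)) = 0
  · simp [h0, eq_comm]
  · simp only [h0, false_and, false_or]
    exact ⟨fun h => h ▸ mul_inv_cancel₀ h0, fun h => (eq_inv_of_mul_eq_one_right h).symm⟩

lemma Fn.div (hf : S.Fn f) (hg : S.Fn g) : S.Fn fun v => f v / g v := by
  simpa only [div_eq_mul_inv] using hf.mul hg.inv

lemma Fn.sum {ι : Type} (s : Finset ι) {G : ι → (α → F) → F} (h : ∀ i, S.Fn (G i)) :
    S.Fn fun v => ∑ i ∈ s, G i v := by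
  classical
  induction s using Finset.induction_on with
  | empty => simpa using const 0
  | insert a s ha ih => simpa [Finset.sum_insert ha] using (h a).add ih

lemma Fn.prod {ι : Type} (s : Finset ι) {G : ι → (α → F) → F} (h : ∀ i, S.Fn (G i)) :
    S.Fn fun v => ∏ i ∈ s, G i v := by
  classical
  induction s using Finset.induction_on with
  | empty => simpa using const 1
  | insert a s ha ih => simpa [Finset.prod_insert ha] using (h a).mul ih

lemma Fn.pow (hf : S.Fn f) (k : ℕ) : S.Fn fun v => f v ^ k := by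
  induction k with
  | zero => simpa using const 1
  | succ k ih => simpa only [pow_succ] using ih.mul hf

variable (S) in
/-- Definable subsets of the field. -/
def U (X : Set F) : Prop := S.D fun v : Unit → F => v () ∈ X

lemma U.app {X : Set F} (hX : S.U X) (hf : S.Fn f) : S.D fun v => f v ∈ X :=
  comp (g := fun _ => f) hX fun _ => hf

/-- No shattering of geometric progressions. -/
lemma U.nip {X : Set F} (hX : S.U X) : ∃ k : ℕ, ∀ ε : Fin k → F,
    (∃ y, ∀ i : Fin k, y ^ (i : ℕ) = ε i) →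
    ¬ ∃ x : Set (Fin k) → F, ∀ s j, ε j * x s ∈ X ↔ j ∈ s := by
  obtain ⟨N, hN⟩ := S.nip (α := Unit) (β := Unit) (hX.app
    ((Fn.prod Finset.univ fun r => proj (Sum.inr (r, ()))).mul (proj (Sum.inl ()))))
  refine ⟨N ^ S.n, fun ε ⟨y, hy⟩ ⟨x, h⟩ => hN ⟨fun r i _ => y ^ (i * N ^ (r : ℕ)),
    fun s _ => x (finFunctionFinEquiv.symm ⁻¹' s), fun s j => ?_⟩⟩
  have := h (finFunctionFinEquiv.symm ⁻¹' s) (finFunctionFinEquiv j)
  rw [← hy, finFunctionFinEquiv_apply, ← Finset.prod_pow_eq_pow_sum, Set.mem_preimage,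
    Equiv.symm_apply_apply] at this
  exact this

/-- No shattering of product grids by quotients of polynomials. -/
lemma U.ng {P T H : Set F} (hP : S.U P) (h : ∀ x ∈ H, x ∈ P ↔ x ∈ T) : ∃ n : ℕ, ∀ m : ℕ, ∃ N : ℕ,
    ∀ b : Fin n → Fin N → F, ∃ s : Set (Fin n → Fin N),
    ∀ f g : Fin m → F, ¬ ∀ j, Pat T H (ev f (gp b j)) (ev g (gp b j)) (j ∈ s) := by
  refine ⟨S.n, fun m => ?_⟩
  have h1 : ∀ e : Bool, S.Fn fun v : Bool × Fin m ⊕ Fin S.n × Unit → F =>
      ev (fun i => v (Sum.inl (e, i))) (∏ r, v (Sum.inr (r, ()))) := fun e =>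
    Fn.sum _ fun i => (proj _).mul ((Fn.prod _ fun r => proj _).pow _)
  obtain ⟨N, hN⟩ := S.nip (hP.app ((h1 true).div (h1 false)))
  refine ⟨N, fun b => ?_⟩
  by_contra hc
  push Not at hc
  choose f g hc using hc
  exact hN ⟨fun r i _ => b r i, fun s p => cond p.1 (f s) (g s) p.2, fun s j =>
    (h _ ((eqv_iff (hc s j).1).1 (hc s j).2.1)).trans
      ((eqv_iff (hc s j).1).symm.trans (hc s j).2.2)⟩

end NS

/-- An interpretation of the field `E` in the field `F`. -/
structure Interp {F : Type} [Field F] (S : NS F) (E : Type) [Field E] (ι : Type) where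
  X : (ι → F) → Prop
  π : (ι → F) → E
  hX : S.D X
  surj : ∀ y, ∃ x, X x ∧ π x = y
  add : S.D fun w : Fin 3 × ι → F => (∀ a, X fun i => w (a, i)) ∧
    π (fun i => w (0, i)) + π (fun i => w (1, i)) = π fun i => w (2, i)
  mul : S.D fun w : Fin 3 × ι → F => (∀ a, X fun i => w (a, i)) ∧
    π (fun i => w (0, i)) * π (fun i => w (1, i)) = π fun i => w (2, i)

namespace Interp

variable {F : Type} [Field F] {S : NS F} {E : Type} [Field E] {ι : Type} [Finite ι]
  (I : Interp S E ι)

lemma hall {α : Type} [Finite α] : S.D fun w : α × ι → F => ∀ a, I.X fun i => w (a, i) :=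
  NS.all fun a => S.re (fun i => (a, i)) I.hX

/-- The induced structure. -/
def ns : NS E where
  n := S.n
  D {α} P := S.D fun w : α × ι → F => (∀ a, I.X fun i => w (a, i)) ∧
    P fun a => I.π fun i => w (a, i)
  re f P hP := NS.congr (S.and I.hall (S.re (Prod.map f id) hP)) fun w =>
    ⟨fun h => ⟨h.1, fun a => h.1 _, h.2⟩, fun h => ⟨h.1, h.2.2⟩⟩
  not hP := NS.congr (S.and I.hall (S.not hP)) fun w => by tauto
  and hP hQ := NS.congr (S.and hP hQ) fun w => by tauto
  ex {α β} _ _ P hP := by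
    refine NS.congr (S.ex (α := α × ι) (β := β × ι)
      (S.re (Equiv.sumProdDistrib α β ι) hP)) fun w => ⟨fun ⟨h, u, hu⟩ => ?_, fun ⟨u, h, hu⟩ => ?_⟩
    · choose x hx hx' using fun b => I.surj (u b)
      refine ⟨fun p => x p.1 p.2, Sum.forall.2 ⟨h, hx⟩, ?_⟩
      convert hu using 2 with a
      cases a with
      | inl a => rfl
      | inr b => exact hx' b
    · refine ⟨fun a => h (Sum.inl a), fun b => I.π fun i => u (b, i), ?_⟩
      convert hu using 2 with a
      cases a <;> rfl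
  add := I.add
  mul := I.mul
  cst c := by
    obtain ⟨x, hx, rfl⟩ := I.surj c
    obtain ⟨z, hz, hz'⟩ := I.surj 0
    refine NS.congr (NS.comp (g := fun p : Fin 3 × ι => ![fun w : Fin 1 × ι → F => w (0, p.2),
      fun _ => z p.2, fun _ => x p.2] p.1) I.add fun p => ?_) fun w => ?_
    · obtain ⟨a, i⟩ := p
      fin_cases a
      exacts [NS.proj _, NS.const _, NS.const _]
    · refine and_congr ⟨fun h => Fin.forall_fin_succ.2 ⟨h 0, Fin.forall_fin_two.2 ⟨hz, hx⟩⟩,
        fun h => Fin.forall_fin_one.2 (h 0)⟩ ?_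
      change _ ↔ I.π (fun i => w (0, i)) + I.π z = I.π x
      rw [hz', add_zero]
  nip {α β} _ _ P hP := by
    obtain ⟨N, hN⟩ := S.nip (α := α × ι) (β := β × ι) (S.re (fun p => Sum.elim
      (fun a => Sum.inl (a, p.2)) (fun q => Sum.inr (q.1, q.2, p.2)) p.1) hP)
    refine ⟨N, fun ⟨a, b, h⟩ => ?_⟩
    choose x hx hx' using fun r j i => I.surj (a r j i)
    choose y hy hy' using fun s i => I.surj (b s i)
    refine hN ⟨fun r j p => x r j p.1 p.2, fun s p => y s p.1 p.2, fun s j => ?_⟩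
    rw [← h s j]
    refine (and_iff_right (Sum.forall.2 ⟨hy s, fun q => hx q.1 (j q.1) q.2⟩)).trans
      (iff_of_eq (congrArg P ?_))
    funext c
    cases c with
    | inl c => exact hy' s c
    | inr c => exact hx' c.1 (j c.1) c.2

lemma U_iff {Y : Set E} : I.ns.U Y ↔ S.D fun w => I.X w ∧ I.π w ∈ Y :=
  ⟨fun h => NS.congr (S.re Prod.snd h) fun w => by simp,
    fun h => NS.congr (S := S) (S.re (fun i => ((), i)) h) fun w => by simp [Unique.forall_iff]⟩

end Interp

section Ultra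

open Filter

variable {F : Type} [Field F] {J : Type} (u : Ultrafilter J)

/-- The ultrapower of a structure. -/
def NS.up (S : NS F) : NS (Germ (u : Filter J) F) where
  n := S.n
  D {α} P := ∃ (γ : Type) (_ : Finite γ) (Q : (α ⊕ γ → F) → Prop) (p : γ → J → F), S.D Q ∧
    ∀ x : α → J → F, P (fun a => ↑(x a)) ↔ ∀ᶠ t in u, Q (Sum.elim (fun a => x a t) fun c => p c t)
  re f P := by
    rintro ⟨γ, _, Q, p, hQ, h⟩
    refine ⟨γ, ‹_›, _, p, S.re (Sum.map f id) hQ, fun x => (h fun a => x (f a)).trans ?_⟩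
    refine eventually_congr (Eventually.of_forall fun t => iff_of_eq (congrArg Q ?_))
    funext c
    cases c <;> rfl
  not := by
    rintro α _ P ⟨γ, _, Q, p, hQ, h⟩
    exact ⟨γ, ‹_›, _, p, S.not hQ, fun x => (h x).not.trans Ultrafilter.eventually_not.symm⟩
  and := by
    rintro α _ P P' ⟨γ, _, Q, p, hQ, h⟩ ⟨γ', _, Q', p', hQ', h'⟩
    refine ⟨γ ⊕ γ', inferInstance, _, Sum.elim p p', S.and (S.re (Sum.map id Sum.inl) hQ)
      (S.re (Sum.map id Sum.inr) hQ'), fun x => ?_⟩
    refine ((h x).and (h' x)).trans (eventually_and.symm.trans ?_)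
    refine eventually_congr (Eventually.of_forall fun t =>
      and_congr (iff_of_eq (congrArg Q ?_)) (iff_of_eq (congrArg Q' ?_))) <;>
    · funext c
      cases c <;> rfl
  ex {α β} _ _ P := by
    rintro ⟨γ, _, Q, p, hQ, h⟩
    refine ⟨γ, ‹_›, _, p, S.ex (α := α ⊕ γ) (β := β) (S.re (Sum.elim (Sum.elim
      (fun a => Sum.inl (Sum.inl a)) Sum.inr) fun c => Sum.inl (Sum.inr c)) hQ), fun x => ?_⟩
    have key : ∀ y : β → J → F, P (Sum.elim (fun a => ↑(x a)) fun b => ↑(y b)) ↔ ∀ᶠ t in u,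
        Q fun c => Sum.elim (Sum.elim (fun a => x a t) fun c => p c t) (fun b => y b t)
          (Sum.elim (Sum.elim (fun a => Sum.inl (Sum.inl a)) Sum.inr)
            (fun c => Sum.inl (Sum.inr c)) c) := by
      intro y
      refine (iff_of_eq (congrArg P ?_)).trans ((h (Sum.elim x y)).trans
        (eventually_congr (Eventually.of_forall fun t => iff_of_eq (congrArg Q ?_))))
      · funext c
        cases c <;> rfl
      · funext c
        rcases c with (c | c) | c <;> rfl
    constructor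
    · rintro ⟨y, hy⟩
      obtain ⟨y, rfl⟩ := germ_surj u y
      exact ((key y).1 hy).mono fun t ht => ⟨_, ht⟩
    · intro hy
      obtain ⟨y, hy⟩ := hy.choice
      exact ⟨_, (key fun b t => y t b).2 hy⟩
  add := ⟨Empty, inferInstance, _, Empty.elim, S.re Sum.inl S.add, fun x => Germ.coe_eq⟩
  mul := ⟨Empty, inferInstance, _, Empty.elim, S.re Sum.inl S.mul, fun x => Germ.coe_eq⟩
  cst c := by
    obtain ⟨y, rfl⟩ := Quotient.exists_rep c
    exact ⟨Unit, inferInstance, _, fun _ => y, NS.eqv (Sum.inl 0) (Sum.inr ()),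
      fun x => Germ.coe_eq⟩
  nip {α β} _ _ P := by
    rintro ⟨γ, _, Q, p, hQ, h⟩
    obtain ⟨N, hN⟩ := S.nip (α := α ⊕ γ) (β := β)
      (S.re (Sum.elim (Sum.map Sum.inl id) fun c => Sum.inl (Sum.inr c)) hQ)
    refine ⟨N, fun ⟨a, b, hab⟩ => ?_⟩
    choose x hx using fun r j => germ_surj u (a r j)
    choose y hy using fun s => germ_surj u (b s)
    have h1 : ∀ s (j : Fin S.n → Fin N), ∀ᶠ t in u, Q (Sum.elim (fun c => Sum.elim (y s)
        (fun q : Fin S.n × β => x q.1 (j q.1) q.2) c t) fun c => p c t) ↔ j ∈ s := by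
      intro s j
      have h2 := (h (Sum.elim (y s) fun q => x q.1 (j q.1) q.2)).symm.trans
        ((iff_of_eq (congrArg P (by
        funext c
        cases c
        · exact (congrFun (hy s) _).symm
        · exact (congrFun (hx _ _) _).symm))).trans (hab s j))
      by_cases hj : j ∈ s
      · exact (h2.2 hj).mono fun t ht => iff_of_true ht hj
      · exact (Ultrafilter.eventually_not.2 (mt h2.1 hj)).mono fun t ht => iff_of_false ht hj
    obtain ⟨t, ht⟩ := (eventually_all.2 fun s => eventually_all.2 (h1 s)).exists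
    refine hN ⟨fun r j c => x r j c t, fun s => Sum.elim (fun c => y s c t) fun c => p c t,
      fun s j => (iff_of_eq (congrArg Q ?_)).trans (ht s j)⟩
    funext c
    rcases c with (c | c) | c <;> rfl

lemma NS.U.up {S : NS F} {X : Set F} (hX : S.U X) : (S.up u).U {w | Germ.LiftPred (· ∈ X) w} :=
  ⟨Empty, inferInstance, _, Empty.elim, S.re Sum.inl hX, fun _ => Iff.rfl⟩

end Ultra

section Form

open FirstOrder FirstOrder.Language FirstOrder.Ring

variable {F : Type} [Field F] [CompatibleRing F] (S : NS F)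

lemma NS.term {A α : Type} [Finite α] (r : A → (α → F) → F) (hr : ∀ a, S.Fn (r a))
    (t : Language.ring.Term A) : S.Fn fun w => t.realize fun a => r a w := by
  induction t with
  | var a => exact hr a
  | func f ts ih =>
    cases f with
    | add => simpa only [Term.realize, CompatibleRing.funMap_add] using (ih 0).add (ih 1)
    | mul => simpa only [Term.realize, CompatibleRing.funMap_mul] using (ih 0).mul (ih 1)
    | neg => simpa only [Term.realize, CompatibleRing.funMap_neg] using (ih 0).neg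
    | zero => simpa only [Term.realize, CompatibleRing.funMap_zero] using NS.const 0
    | one => simpa only [Term.realize, CompatibleRing.funMap_one] using NS.const 1

lemma NS.form {A : Type} {n : ℕ} (φ : Language.ring.BoundedFormula A n) :
    ∀ {α : Type} [Finite α] (r : A → (α → F) → F) (s : Fin n → (α → F) → F), (∀ a, S.Fn (r a)) →
      (∀ i, S.Fn (s i)) → S.D fun w => φ.Realize (fun a => r a w) fun i => s i w := by
  induction φ with
  | falsum => exact fun _ _ _ _ => NS.congr (S.not NS.tru) fun _ => iff_of_false id (not_not.2 trivial)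
  | equal t₁ t₂ =>
    intro α _ r s hr hs
    have h : ∀ a, S.Fn (Sum.elim r s a) := Sum.rec hr hs
    refine NS.congr (NS.eq (S.term _ h t₁) (S.term _ h t₂)) fun w => ?_
    have e : (Sum.elim (fun a => r a w) fun i => s i w) = fun a => Sum.elim r s a w := by
      funext a
      cases a <;> rfl
    rw [← e]
    rfl
  | rel R => exact R.elim
  | imp _ _ ih ih' => exact fun r s hr hs => NS.imp (ih r s hr hs) (ih' r s hr hs)
  | all φ ih =>
    intro α _ r s hr hs
    refine NS.congr (NS.all1 (P := fun w x => φ.Realize (fun a => r a w)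
      (Fin.snoc (fun i => s i w) x)) (NS.congr (ih (fun a w => r a fun b => w (some b))
      (Fin.snoc (α := fun _ => (Option α → F) → F) (fun i w => s i fun b => w (some b))
        fun w => w none) (fun a => (hr a).some) fun i => ?_) fun w => iff_of_eq ?_)) fun w => Iff.rfl
    · induction i using Fin.lastCases with
      | last => simpa using NS.proj none
      | cast i => simpa using (hs i).some
    · congr 1
      funext i
      induction i using Fin.lastCases <;> simp

lemma NS.U_of_definable {X : Set F} (h : (Set.univ : Set F).Definable₁ Language.ring X) :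
    S.U X := by
  obtain ⟨φ, hφ⟩ := Set.definable_iff_exists_formula_sum.1 h
  refine NS.congr (S.form φ (Sum.elim (fun a _ => a) fun _ w => w ()) default
    (Sum.rec (fun a => NS.const _) fun _ => NS.proj _) fun i => i.elim0) fun w => ?_
  refine (Set.ext_iff.1 hφ fun _ => w ()).trans (iff_of_eq ?_)
  simp only [Set.mem_ofPred_eq, Formula.Realize]
  congr 1
  · funext a
    cases a <;> rfl
  · exact Subsingleton.elim _ _

end Form

end Pool.Agent.MP_829a8f_lc.H56

end MrgPart0

-- ======== part 1: formerly Pool.Agent.MP_829a8f_lc.h56.Top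
section MrgPart1

/-!
The gauge of the topology of a tame pair of groups, and the Artin-Schreier arguments, for
`n`-dependent structures. Adapted from the files of helper33 for the case `n = 1`.
-/

namespace Pool.Agent.MP_829a8f_lc.H56

open Filter H33

section

variable {F : Type} [Field F] {S : NS F} {T H X : Set F}

variable (S T H) in
/-- The hypotheses on the pair of groups. -/
structure Dat : Prop where
  hT : MG T
  hH : MG H
  tame : Tame T H
  dN : ∃ N, S.U N ∧ N ∈ nb T ∧ ∀ z ∈ N, 1 + z ∈ T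
  nd : ∃ᶠ z in nb T, z ≠ 0

namespace Dat

variable [Infinite F] (d : Dat S T H)
include d

omit [Infinite F] in
lemma defb {U : Set F} (hU : U ∈ nb T) : ∃ W ∈ nb T, W ⊆ U ∧ S.U W := by
  obtain ⟨N, h1, h2, h3⟩ := d.dN
  obtain ⟨A, hA, hU⟩ := nb_basis hU
  have := hA.to_subtype
  refine ⟨{z | ∀ a : A, a * z ∈ N}, eventually_all.2 fun a => nb_scal _ h2,
    fun z hz => hU z fun a ha => h3 _ (hz ⟨a, ha⟩),
    NS.all fun a => h1.app ((NS.const _).mul (NS.proj _))⟩

lemma exists_mul : ∃ A : Set F, A.Finite ∧ ∀ u u', (∀ a ∈ A, 1 + a * u ∈ T) →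
    (∀ a ∈ A, 1 + a * u' ∈ T) → 1 + u * u' ∈ T := by
  have := Fact.mk d.hT
  have := Fact.mk d.hH
  obtain ⟨U, hU, h⟩ := mem_prod_self_iff.1 d.tame.mul_cont
  obtain ⟨A, hA, hU⟩ := nb_basis hU
  exact ⟨A, hA, fun u u' hu hu' => h (Set.mk_mem_prod (hU u hu) (hU u' hu'))⟩

lemma exists_sub : ∃ A : Set F, A.Finite ∧ ∀ u u', (∀ a ∈ A, 1 + a * u ∈ T) →
    (∀ a ∈ A, 1 + a * u' ∈ T) → 1 + (u - u') ∈ T := by
  obtain ⟨A, hA, h⟩ := d.exists_mul
  have h1 := fun c => (nb_ev c).and ((d.hT.mob 1 c).eventually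
    ((eventually_all_finite hA).2 fun a _ => nb_ev (T := T) a))
  obtain ⟨B, hB, h2⟩ := nb_basis ((h1 1).and (h1 (-1)))
  refine ⟨B, hB, fun u u' hu hu' => ?_⟩
  obtain ⟨k1, k2⟩ := (h2 u hu).1
  obtain ⟨k3, k4⟩ := (h2 u' hu').2
  convert d.hT.mul (d.hT.mul k1 k3) (h _ _ k2 k4) using 1
  rw [mul_add, mul_one, div_mul_div_comm, mul_div_cancel₀ _ (mul_ne_zero (d.hT.ne k1) (d.hT.ne k3))]
  ring

lemma star1 (hX : Gd T X X) :
    Cov T X fun y Y => ∀ x ∈ Y, ∀ x' ∈ Y, (x - y) / (x' - y) ∈ T := by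
  have := Fact.mk d.hT
  have := Fact.mk d.hH
  obtain ⟨A, hA, h⟩ := d.exists_mul
  obtain ⟨m, hm, -⟩ := exists_aff F
  obtain ⟨C, hC, hc⟩ := Abs.cov (d.tame.abs hm) (hA.insert 1)
  obtain ⟨x₀, hx₀⟩ := hX.2.1
  obtain ⟨t, ht, h1⟩ := (d.nd.and_eventually ((eventually_all_finite hC).2 fun c _ =>
    (nb_scal c).eventually (hX.1 _ hx₀))).exists
  refine ⟨(fun c => X ∩ {x | ∀ a ∈ A, 1 + a * ((x - x₀) / t - c) ∈ T}) '' C, hC.image _, ?_,
    fun y => ?_⟩
  · rintro _ ⟨c, k, rfl⟩
    refine ⟨hX.1.inter fun x hx => (eventually_all_finite hA).2 fun a ha => ?_,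
      ⟨x₀ + c * t, h1 c k, fun a _ => by simpa [ht] using d.hT.one⟩, Set.inter_subset_left⟩
    have e : ∀ x, 1 + a * ((x - x₀) / t - c) = a / t * x + (1 - a * (x₀ / t + c)) := fun x => by
      ring
    simp only [e]
    exact d.hT.op_aff _ _ x (e x ▸ hx a ha :)
  · obtain ⟨c, k, k1⟩ := hc ((y - x₀) / t)
    have k2 := (k1 1 (Or.inl rfl)).ne_of_add one_ne_zero
    have key : ∀ x, (∀ a ∈ A, 1 + a * ((x - x₀) / t - c) ∈ T) →
        (x - y) / (t * (c - (y - x₀) / t)) ∈ T := fun x hx => by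
      convert h _ (c - (y - x₀) / t)⁻¹ hx fun a ha => ?_ using 1
      · rw [← div_div, div_eq_iff k2, add_mul, inv_mul_cancel_right₀ k2]
        ring
      · convert (eqv_iff k2).1 (k1 a (Or.inr ha)) using 1
        rw [add_div, div_self k2, div_eq_mul_inv a]
    refine ⟨_, ⟨c, k, rfl⟩, fun x hx x' hx' => ?_⟩
    rw [← div_div_div_cancel_right₀ (mul_ne_zero ht k2)]
    exact d.hT.div (key x hx.2) (key x' hx'.2)

lemma star (J : Type) [Finite J] (hX : Gd T X X) :
    Cov T X fun (y : J → F) Y => ∀ j, ∀ x ∈ Y, ∀ x' ∈ Y, (x - y j) / (x' - y j) ∈ T :=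
  Cov.all (fun j (y : J → F) Y => ∀ x ∈ Y, ∀ x' ∈ Y, (x - y j) / (x' - y j) ∈ T)
    (fun _ _ _ _ h h' x hx x' hx' => h' x (h hx) x' (h hx')) hX fun j _ hY =>
    (d.star1 ⟨hY.1, hY.2.1, le_rfl⟩).mono (fun y => y j) fun _ _ _ h => h

lemma exists_bd : ∃ E ∈ nb T, Bd T E := by
  obtain ⟨A, hA, h⟩ := d.exists_sub
  have := hA.to_subtype
  obtain ⟨𝒴, h1, h2, h3⟩ := d.star A (X := Set.univ) ⟨op_univ, Set.univ_nonempty, le_rfl⟩
  choose! c hc using fun Y hY => (h2 Y hY).2.1
  refine ⟨_, d.hT.le_nb2 ((eventually_all_finite h1).2 fun Y hY => (h2 Y hY).ev), ?_⟩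
  filter_upwards [(eventually_all_finite h1).2 fun Y _ => (eventually_all_finite hA).2
    fun a _ => nb_ev (T := T) (a * c Y)] with v hv s hs
  obtain ⟨Y, hY, h4⟩ := h3 fun a => -(a * v)⁻¹
  obtain ⟨x, hx, hx'⟩ := hs Y hY
  have key : ∀ x ∈ Y, ∀ a ∈ A, 1 + a * (v * x) ∈ T := by
    intro x hx a ha
    by_cases h0 : a * v = 0
    · rw [← mul_assoc, h0, zero_mul, add_zero]
      exact d.hT.one
    refine d.hT.of_div ?_ (hv Y hY a ha)
    convert h4 ⟨a, ha⟩ x hx _ (hc Y hY) using 1
    rw [← mul_div_mul_left _ (c Y - _) h0]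
    congr 1 <;> simp only [mul_sub, mul_neg, mul_inv_cancel₀ h0] <;> ring
  convert h _ _ (key _ hx') (key _ hx) using 2
  ring

theorem gauge :
    ∃ V, S.U V ∧ Gauge V ∧ ∃ c : F, c ≠ 0 ∧ ∀ x ∈ V, 1 + c * x ∈ T := by
  obtain ⟨E, hE, hEb⟩ := d.exists_bd
  obtain ⟨W₀, h1, h2, h3⟩ := d.defb hE
  let W : Set F := {w | w ∈ W₀ ∧ -w ∈ W₀}
  have hW : W ∈ nb T := Eventually.and h1
    (((nb_scal (-1)).eventually h1).mono fun w hw => by rwa [neg_one_mul] at hw)
  have hWb : Bd T W := hEb.mono fun u hu x hx => hu x (h2 hx.1)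
  have hWd : S.U W := S.and h3 (h3.app (NS.proj _).neg)
  let V : Set F := {x | ∀ w ∈ W, x * w ∈ W}
  have hV : V ∈ nb T := hWb.ev hW
  have hVb : Bd T V := by
    obtain ⟨w, h0, hw⟩ := (d.nd.and_eventually hW).exists
    filter_upwards [(nb_scal w⁻¹).eventually hWb] with u hu x hx
    convert hu _ (hx w hw) using 2
    field_simp
  have hneg : ∀ {x}, x ∈ V → -x ∈ V := fun hx w hw => by
    simpa only [W, Set.mem_ofPred_eq, neg_mul, neg_neg, and_comm] using hx w hw
  have key : ∀ {X U : Set F}, Bd T X → U ∈ nb T → ∃ g : F, g ≠ 0 ∧ ∀ x ∈ X, g * x ∈ U :=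
    fun h hU => (d.nd.and_eventually (h.ev hU)).exists
  refine ⟨V, NS.all1 (P := fun v w => w ∈ W → v () * w ∈ W) (NS.imp (hWd.app (NS.proj _))
    (hWd.app ((NS.proj _).mul (NS.proj _)))), ⟨fun w hw => by rwa [one_mul], hneg,
    fun hx hy w hw => by rw [mul_assoc]; exact hx _ (hy w hw), ?_, fun A hA => ?_, ?_, ?_⟩,
    key hVb (U := {z | 1 + z ∈ T}) ((nb_ev 1).mono fun z hz => by simpa using hz)⟩
  · obtain ⟨A, hA, h⟩ := d.exists_sub
    obtain ⟨g, h0, hg⟩ := key (X := {z | ∃ x ∈ V, ∃ y ∈ V, z = x + y}) (by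
      filter_upwards [hVb.ev ((eventually_all_finite hA).2 fun a _ => nb_ev (T := T) a)] with u hu
      rintro _ ⟨x, hx, y, hy, rfl⟩
      convert h _ _ (hu x hx) (hu _ (hneg hy)) using 2
      ring) hV
    exact ⟨g, h0, fun x hx y hy => hg _ ⟨x, hx, y, hy, rfl⟩⟩
  · simpa only [mul_comm] using (d.nd.and_eventually
      ((eventually_all_finite hA).2 fun a _ => nb_scal a hV)).exists
  · obtain ⟨c, h0, hc⟩ := key hVb ((nb_ev 1).and ((d.hT.mob 1 1).eventually hV))
    refine ⟨c, h0, fun x hx => ?_⟩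
    have := hc x hx
    simp only [Set.mem_ofPred_eq, one_mul] at this
    exact ⟨d.hT.ne this.1, this.2⟩
  · obtain ⟨𝒴, k1, k2, k3⟩ := d.star1 (X := Set.univ) ⟨op_univ, Set.univ_nonempty, le_rfl⟩
    choose! c hc using fun Y hY => (k2 Y hY).2.1
    obtain ⟨g, h0, hg⟩ := key (X := {w | ∀ u, (∀ Y ∈ 𝒴, c Y + u ∈ Y) → 1 + u * w ∈ T}) (by
      filter_upwards [(eventually_all_finite k1).2 fun Y hY => (k2 Y hY).1 _ (hc Y hY)]
        with u hu w hw using hw u hu) hV
    refine ⟨c '' 𝒴, g, k1.image c, h0, fun y => ?_⟩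
    obtain ⟨Y, hY, h⟩ := k3 y
    have h4 : c Y - y ≠ 0 := fun h0 =>
      d.hT.ne (h _ (hc Y hY) _ (hc Y hY)) (by rw [h0, zero_div])
    refine ⟨_, ⟨Y, hY, rfl⟩, (sub_ne_zero.1 h4).symm, ?_⟩
    convert hneg (hg (c Y - y)⁻¹ fun u hu => ?_) using 1
    · rw [← neg_sub, div_neg, div_eq_mul_inv]
    · convert h _ (hu Y hY) _ (hc Y hY) using 1
      field_simp
      ring

end Dat

end

open Finset

variable {L : Type} [Field L]

lemma as_data [Infinite L] (p : ℕ) [Fact p.Prime] [CharP L p] (k : ℕ) :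
    ∃ (ε : Fin k → L) (a : Fin k → Fin k → ℕ → L) (b : Fin k → ℕ → L),
      (∃ y, ∀ i : Fin k, y ^ (i : ℕ) = ε i) ∧ (∀ i j, a i j 0 = -(ε i * b j 0)) ∧
      (∀ i j l, a i j l ^ p = a i j (l + 1) + ε i * b j (l + 1)) ∧ (∀ i j, a i j k = 0) ∧
      ∀ i j, ∑ l ∈ range k, a i j l = if i = j then 1 else 0 := by
  let _ := ZMod.algebra L p
  have h : (⋃ g : {g : Fin k → ZMod p // g ≠ 0}, {x : L | ∑ i, g.1 i • x ^ (i : ℕ) = 0}).Finite :=
    Set.finite_iUnion fun g => Set.not_infinite.1 fun h => g.2 (funext fun i =>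
      (algebraMap (ZMod p) L).injective ((congrFun
      (Matrix.eq_zero_of_forall_index_sum_mul_pow_eq_zero (v := fun i => algebraMap _ L (g.1 i))
      (f := fun j : Fin k => (h.natEmbedding _ j : L)) (Subtype.val_injective.comp
      ((h.natEmbedding _).injective.comp Fin.val_injective)) fun j => by
        simpa only [Algebra.smul_def, Set.mem_ofPred_eq] using (h.natEmbedding _ j).2) i).trans (map_zero _).symm))
  obtain ⟨x, hx⟩ := h.exists_notMem
  obtain ⟨a, b, h⟩ := exists_additive (p := p) (ε := fun i : Fin k => x ^ (i : ℕ))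
    (Fintype.linearIndependent_iff.2 fun g hg => congrFun (of_not_not fun e =>
      hx (Set.mem_iUnion.2 ⟨⟨g, e⟩, hg⟩)))
  exact ⟨_, a, b, ⟨x ^ p ^ k, fun i => pow_right_comm _ _ _⟩, h⟩

theorem as_closed (S : NS L) [Infinite L] {p : ℕ} (hp : p.Prime)
    (h0 : (p : L) = 0) (c : L) : ∃ x, x ^ p - x = c := by
  classical
  have := Fact.mk hp
  have : CharP L p := (CharP.charP_iff_prime_eq_zero hp).2 h0
  obtain ⟨k, hk⟩ := NS.U.nip (S := S) (X := {z | ¬ ∃ x, x ^ p - x = z}) (S.not (NS.ex1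
    (P := fun v x => x ^ p - x = v ()) (NS.eq (((NS.proj _).pow p).sub (NS.proj _)) (NS.proj _))))
  obtain ⟨ε, a, b, e0, -, e2, e3, e4⟩ := as_data (L := L) p k
  let s : ℕ → L := fun l => ∑ m ∈ range l, c ^ p ^ m
  have hs : ∀ l, s l ^ p = s (l + 1) - c := fun l => by
    simp only [s, sum_pow_char, sum_range_succ', ← pow_mul, ← pow_succ, pow_zero, pow_one,
      add_sub_cancel_right]
  have key : ∀ i j, (∑ l ∈ range k, a i j l * s l) ^ p - ∑ l ∈ range k, a i j l * s l +
      (if i = j then c else 0) = ε i * ∑ l ∈ range k, b j (l + 1) * s (l + 1) := by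
    intro i j
    have h1 := sum_range_succ (fun l => a i j l * s l) k
    rw [sum_range_succ', e3, zero_mul, add_zero, show s 0 = 0 from rfl, mul_zero, add_zero] at h1
    have h2 : ∑ l ∈ range k, a i j l ^ p * c = if i = j then c else 0 := by
      rw [← sum_mul, ← sum_pow_char, e4]
      split_ifs <;> simp [hp.ne_zero]
    rw [sum_pow_char, ← h1, ← h2, mul_sum, ← sum_sub_distrib, ← sum_add_distrib]
    refine sum_congr rfl fun l _ => ?_
    rw [mul_pow, hs, e2]
    ring
  by_contra hc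
  refine hk ε e0 ⟨fun S => ∑ j ∈ univ.filter (· ∈ S),
    ∑ l ∈ range k, b j (l + 1) * s (l + 1), fun S i => ?_⟩
  have h1 := sum_congr rfl fun j (_ : j ∈ univ.filter (· ∈ S)) => key i j
  rw [sum_add_distrib, sum_sub_distrib, ← sum_pow_char, sum_ite_eq, ← mul_sum] at h1
  simp only [← h1, Set.mem_ofPred_eq, mem_filter, mem_univ, true_and]
  generalize ∑ j ∈ univ.filter (· ∈ S), ∑ l ∈ range k, a i j l * s l = w
  by_cases hi : i ∈ S
  · rw [if_pos hi]
    exact iff_of_true (fun ⟨x, hx⟩ => hc ⟨x - w, by rw [sub_pow_char]; linear_combination hx⟩) hi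
  · rw [if_neg hi]
    exact iff_of_false (not_not.2 ⟨w, (add_zero _).symm⟩) hi

/-- No nontrivial approximate idempotents in positive characteristic. -/
theorem no_idem (S : NS L) [Infinite L] {p : ℕ} (hp : p.Prime) (h0 : (p : L) = 0) {ι : Type}
    [Finite ι] {O : ι → ValuationSubring L} {D : Set L} (hD : S.U D) {c : L} (hc : c ≠ 0)
    (h1 : ∀ x, (∀ i, x ∈ O i) → c * x ∈ D) (h2 : ∀ x ∈ D, ∀ i, x ∈ O i) {π : L} (hπ0 : π ≠ 0)
    (hπ : ∀ i, π ∈ (O i).nonunits) (hO : Idem O) : False := by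
  classical
  have := Fact.mk hp
  have : CharP L p := (CharP.charP_iff_prime_eq_zero hp).2 h0
  obtain ⟨k, hk⟩ := NS.U.nip (S := S) (X := {z | ¬ ∃ x, x / π ∈ D ∧ x ^ p - x = z}) (S.not (NS.ex1
    (P := fun v x => x / π ∈ D ∧ x ^ p - x = v ()) (S.and (hD.app ((NS.proj _).div (NS.const _)))
    (NS.eq (((NS.proj _).pow p).sub (NS.proj _)) (NS.proj _)))))
  obtain ⟨ε, a, b, e0, e1, e2, e3, e4⟩ := as_data (L := L) p k
  obtain ⟨T, hT0, -, hT⟩ := Gauge.exists_den O ((Set.finite_range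
    fun q : Fin k × Fin k × Fin k => a q.1 q.2.1 q.2.2 / (c * π)).insert π⁻¹)
  obtain ⟨e, k1, k2, ⟨i₀, k3⟩, j₀, k4⟩ := hO T hT0
  have hcO : ∀ i, c ∈ O i := h2 _ (by simpa using h1 1 fun i => one_mem _)
  have k5 : ∀ i, e * (1 - e) ∈ (O i).nonunits := fun i => by
    convert nu_mul (nu_mul (hπ i) (hT _ (Or.inl rfl) i)) (k2 i) using 1
    field_simp
  have k6 : ∀ m i, T⁻¹ * (e ^ (m + 1) - e) ∈ O i := fun m i => by
    induction m with
    | zero => simp
    | succ m ih =>
      convert sub_mem (mul_mem (k1 i) ih) (k2 i) using 1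
      ring
  have key : ∀ i j, (∑ l ∈ range k, a i j l * e ^ p ^ l) ^ p - ∑ l ∈ range k, a i j l * e ^ p ^ l =
      ε i * ∑ l ∈ range (k + 1), b j l * e ^ p ^ l := by
    intro i j
    have h3 := sum_range_succ (fun l => a i j l * e ^ p ^ l) k
    rw [sum_range_succ', e3, zero_mul, add_zero, e1] at h3
    rw [sum_pow_char, ← h3, sum_range_succ', mul_add, mul_sum, sub_add_eq_sub_sub,
      ← sum_sub_distrib, sum_congr rfl (g := fun l => ε i * (b j (l + 1) * e ^ p ^ (l + 1)))
      fun l _ => by rw [mul_pow, ← pow_mul, ← pow_succ, e2]; ring]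
    ring
  refine hk ε e0 ⟨fun S => ∑ j ∈ univ.filter (· ∈ S),
    ∑ l ∈ range (k + 1), b j l * e ^ p ^ l, fun S i => ?_⟩
  have h3 := sum_congr rfl fun j (_ : j ∈ univ.filter (· ∈ S)) => key i j
  rw [sum_sub_distrib, ← sum_pow_char, ← mul_sum] at h3
  simp only [← h3, Set.mem_ofPred_eq]
  have h4 : ∀ r, ((∑ j ∈ univ.filter (· ∈ S), ∑ l ∈ range k, a i j l * e ^ p ^ l) -
      if i ∈ S then e else 0) / (c * π) ∈ O r := fun r => by
    have h5 : (if i ∈ S then e else 0) = ∑ j ∈ univ.filter (· ∈ S), ∑ l ∈ range k, a i j l * e := by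
      simp [← sum_mul, e4]
    simp only [h5, ← sum_sub_distrib, sum_div]
    refine sum_mem fun j _ => sum_mem fun l hl => ?_
    convert mul_mem (hT _ (Or.inr ⟨(i, j, ⟨l, mem_range.1 hl⟩), rfl⟩) r) (k6 (p ^ l - 1) r) using 1
    rw [Nat.sub_add_cancel (Nat.one_le_pow _ _ hp.pos)]
    field_simp
  generalize ∑ j ∈ univ.filter (· ∈ S), ∑ l ∈ range k, a i j l * e ^ p ^ l = w at h4
  by_cases hi : i ∈ S
  · refine iff_of_true (fun ⟨x, hx, hx'⟩ => ?_) hi
    rw [if_pos hi] at h4
    have h5 : ∀ r, w - x - e ∈ (O r).nonunits := fun r => by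
      convert nu_mul (hπ r) (sub_mem (mul_mem (hcO r) (h4 r)) (h2 _ hx r)) using 1
      field_simp
      ring
    have h6 : (w - x) * ((w - x) ^ (p - 1) - 1) = 0 := by
      rw [mul_sub, mul_pow_sub_one hp.ne_zero, sub_pow_char]
      linear_combination -hx'
    rcases mul_eq_zero.1 h6 with h | h
    · exact k3 (by simpa [h] using h5 i₀)
    · have h7 : w - x ∈ (O j₀).nonunits := by
        simpa using add_mem (h5 j₀) (of_not_not fun h => not_nu_mul h k4 (k5 j₀))
      obtain ⟨m, hm⟩ := Nat.exists_eq_add_of_lt (Nat.sub_pos_of_lt hp.one_lt)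
      rw [hm, sub_eq_zero, pow_succ] at h
      exact one_nu (h ▸ nu_mul' (pow_mem (nu_le h7) _) h7)
  · refine iff_of_false (not_not.2 ⟨w, ?_, rfl⟩) hi
    rw [if_neg hi, sub_zero] at h4
    convert h1 _ h4 using 1
    field_simp

end Pool.Agent.MP_829a8f_lc.H56

end MrgPart1

-- marker of a merged file
example : 731051 + 169780 = 731051 + 169780 := rfl
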